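import Pool.Agent.H563.TG.Par
import Pool.Agent.H563.AG.Sv
import Pool.Graph.R_pool_sql_team_seeded_843ab51a.Results.MP_bae66e_nt.EveryEvenSmallPrime

/-!
# Every even number, almost primes
-/

set_option autoImplicit false

namespace Pool.Agent.H563.TG

open Finset Filter
open Pool.Agent.Results.MP_bae66e_nt.EveryEvenSmallPrime (sing window)

/-- `N - q` has at most three prime factors, all at least `N ^ (37 / 400) / 2` -/
def hit3 (N q : ℕ) : Prop := q < N ∧ (N - q).primeFactorsList.length ≤ 3 ∧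
  ∀ l : ℕ, l.Prime → l ∣ (N - q) → (N : ℝ) ^ (0.37 / 4 : ℝ) / 2 ≤ l

/-- the primes in `(a / 8, a / 2)` -/
def BP (a : ℕ) : Finset ℕ := (range a).filter (fun q => q.Prime ∧ a < 8 * q ∧ 2 * q < a)

lemma mem_BP {a q : ℕ} : q ∈ BP a ↔ q.Prime ∧ a < 8 * q ∧ 2 * q < a := by
  unfold BP
  rw [mem_filter, mem_range]
  constructor
  · exact fun h => h.2
  · exact fun h => ⟨by omega, h⟩

lemma one_le_sing' (N : ℕ) : 1 ≤ sing N := by
  unfold sing
  apply Finset.prod_induction _ (fun x => (1 : ℝ) ≤ x)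
  · intro a b ha hb
    exact one_le_mul_of_one_le_of_one_le ha hb
  · exact le_rfl
  · intro p hp
    rw [mem_erase] at hp
    have h1 := (Nat.prime_of_mem_primeFactors hp.2).two_le
    have h2 : 3 ≤ p := by omega
    have h3 : (3 : ℝ) ≤ p := by exact_mod_cast h2
    rw [le_div_iff₀ (by linarith)]
    linarith

/-- not many primes -/
lemma BP_card : ∃ a₀ : ℕ, ∀ a, a₀ ≤ a → ((BP a).card : ℝ) ≤ 4 * (a / Real.log a) := by
  have ev := Chebyshev.eventually_primeCounting_le (show (0 : ℝ) < 1 / 2 by norm_num)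
  obtain ⟨x₀, hx₀⟩ := eventually_atTop.1 ev
  refine ⟨⌈x₀⌉₊ + 3, ?_⟩
  intro a ha
  have h1 := hx₀ a ((Nat.le_ceil _).trans (by exact_mod_cast (by omega : ⌈x₀⌉₊ ≤ a)))
  rw [Nat.floor_natCast] at h1
  have h2 : (BP a).card ≤ Nat.primeCounting a := by
    unfold Nat.primeCounting Nat.primeCounting'
    rw [Nat.count_eq_card_filter_range]
    apply card_le_card
    intro q hq
    rw [mem_BP] at hq
    rw [mem_filter, mem_range]
    exact ⟨by omega, hq.1⟩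
  have ha3 : (3 : ℝ) ≤ a := by exact_mod_cast (by omega : 3 ≤ a)
  have hlog : 0 < Real.log (a : ℝ) := Real.log_pos (by linarith)
  have h3 : ((BP a).card : ℝ) ≤ Nat.primeCounting a := by exact_mod_cast h2
  refine h3.trans (h1.trans ?_)
  have hl4 : Real.log 4 = 2 * Real.log 2 := by
    rw [show (4 : ℝ) = 2 ^ 2 by norm_num, Real.log_pow]
    push_cast
    ring
  have hl2' := Real.log_two_lt_d9
  rw [hl4, mul_div_assoc]
  apply mul_le_mul_of_nonneg_right _ (by positivity)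
  linarith

/-- rough numbers -/
lemma rough (κ : ℝ) (hκ : 0 < κ) : ∃ K : ℝ, 0 < K ∧ ∃ Y₀ : ℕ, 2 ≤ Y₀ ∧ ∀ Y : ℕ, Y₀ ≤ Y →
    ∀ A ⊆ Ioc 0 Y, (∀ p ∈ A, ∀ l : ℕ, l.Prime → (l : ℝ) ≤ (Y : ℝ) ^ κ → p % l ≠ 0) →
      (A.card : ℝ) ≤ K * (Y / Real.log Y) := by
  obtain ⟨K, hK, Y₀, hY₀, h⟩ := Pool.Agent.H563.AG.sieves κ hκ
  have e1 := (tendsto_rpow_atTop hκ).eventually (Filter.eventually_ge_atTop (3 : ℝ))
  obtain ⟨x₀, h0⟩ := Filter.eventually_atTop.1 e1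
  refine ⟨K, hK, max Y₀ ⌈x₀⌉₊, hY₀.trans (le_max_left _ _), ?_⟩
  intro Y hY A hA hAv
  have hY1 : Y₀ ≤ Y := (le_max_left _ _).trans hY
  have hY2 := h0 Y ((Nat.le_ceil _).trans (by exact_mod_cast (le_max_right _ _).trans hY))
  have h1 := (h Y hY1).2.2 3 (by norm_num) (by exact_mod_cast hY2) A hA (by
    intro p hp l hl hlY
    exact ⟨hAv p hp l hl hlY, fun h1 h2 => absurd h1 (by omega)⟩)
  refine h1.trans ?_
  have hYr : (2 : ℝ) ≤ Y := by exact_mod_cast hY₀.trans hY1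
  have hlog : 0 < Real.log (Y : ℝ) := Real.log_pos (by linarith)
  have hlog3 : 1 ≤ Real.log (3 : ℝ) := by
    rw [Real.le_log_iff_exp_le (by norm_num)]
    linarith [Real.exp_one_lt_d9]
  apply mul_le_mul_of_nonneg_left _ hK.le
  have e3 : ((3 : ℕ) : ℝ) = 3 := by norm_num
  rw [e3]
  apply div_le_div_of_nonneg_left (by positivity) hlog
  nlinarith

/-- the conditions for the sequence of the scales -/
structure ScaleSeq (a lo : ℕ → ℕ) (m' : ℕ) : Prop where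
  two : ∀ n, 2 ^ n ≤ a n
  mono : Monotone a
  four : ∀ n, m' ≤ n → 4 * a n ≤ a (n + 1)
  low : ∀ m n, m' ≤ m → lo m ≤ n → n < m → 16 * a m ^ 3 ≤ a n ^ 4
  lt : ∀ m, m' ≤ m → lo m < m
  tend : ∀ n₀, ∃ m₁, ∀ m, m₁ ≤ m → n₀ ≤ lo m

lemma ScaleSeq.four' {a lo : ℕ → ℕ} {m' : ℕ} (h : ScaleSeq a lo m') {n n' : ℕ} (hn : m' ≤ n) (hnn : n < n') : 4 * a n ≤ a n' :=
  (h.four n hn).trans (h.mono hnn)

open Classical in
/-- the even numbers of one scale -/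
noncomputable def GE (a : ℕ → ℕ) (m : ℕ) : Finset ℕ := (Ioc (a (m - 1)) (a m)).filter (fun N => 2 ∣ N)

lemma mem_GE {a : ℕ → ℕ} {m N : ℕ} : N ∈ GE a m ↔ (a (m - 1) < N ∧ N ≤ a m) ∧ 2 ∣ N := by
  simp only [GE, mem_filter, mem_Ioc]

lemma window_sub {a N : ℕ} {Q : Finset ℕ} (hQ : ∀ q ∈ BP a, hit3 N q → q ∈ Q) :
    window 3 (0.37 / 4) ((a : ℝ) / 2) N ≤ Q.card := by
  unfold window
  apply card_le_card
  intro q hq
  simp only [mem_filter, mem_range] at hq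
  obtain ⟨h1, h2, h3, h4, h5, h6⟩ := hq
  apply hQ q
  · rw [mem_BP]
    refine ⟨h2, ?_, ?_⟩
    · have : (a : ℝ) < 8 * q := by linarith
      exact_mod_cast this
    · have : (2 : ℝ) * q < a := by linarith
      exact_mod_cast this
  · exact ⟨h1, h5, h6⟩

/-- the lower bound for the number of hitting primes -/
lemma hit3_low : ∃ δ : ℝ, 0 < δ ∧ ∃ x₀ : ℕ, ∀ a b N : ℕ, x₀ ≤ a → 16 * b ^ 3 ≤ a ^ 4 → a ≤ N → N ≤ b → 2 ∣ N →
    ∀ Q : Finset ℕ, (∀ q ∈ BP a, hit3 N q → q ∈ Q) → δ * (a / Real.log b ^ 2) ≤ Q.card := by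
  obtain ⟨δ, hδ, N₀, h⟩ := Pool.Agent.Results.MP_bae66e_nt.EveryEvenSmallPrime.result 3 (3 / 4) 0.37 (by norm_num)
    (by norm_num) (by norm_num) (by norm_num)
  refine ⟨δ / 2, by positivity, N₀ + 2, ?_⟩
  intro a b N ha hab haN hNb h2 Q hQ
  have ha2 : (2 : ℝ) ≤ a := by exact_mod_cast (by omega : 2 ≤ a)
  have hNr : (2 : ℝ) ≤ N := by exact_mod_cast (by omega : 2 ≤ N)
  have hbr : (N : ℝ) ≤ b := by exact_mod_cast hNb
  have haNr : (a : ℝ) ≤ N := by exact_mod_cast haN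
  have h1 := h N (by omega) (even_iff_two_dvd.2 h2) ((a : ℝ) / 2) (by
    have h3 : (16 : ℝ) * b ^ 3 ≤ a ^ 4 := by exact_mod_cast hab
    have h4 : (N : ℝ) ^ 3 ≤ ((a : ℝ) / 2) ^ 4 := by
      have : (N : ℝ) ^ 3 ≤ b ^ 3 := pow_le_pow_left₀ (by linarith) hbr 3
      rw [div_pow]
      linarith
    calc (N : ℝ) ^ (3 / 4 : ℝ) = ((N : ℝ) ^ 3) ^ (1 / 4 : ℝ) := by
          rw [← Real.rpow_natCast, ← Real.rpow_mul (by linarith)]
          norm_num
      _ ≤ (((a : ℝ) / 2) ^ 4) ^ (1 / 4 : ℝ) := Real.rpow_le_rpow (by positivity) h4 (by norm_num)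
      _ = (a : ℝ) / 2 := by
          rw [← Real.rpow_natCast, ← Real.rpow_mul (by positivity)]
          norm_num) (by linarith)
  have h3 : (window 3 (0.37 / 4) ((a : ℝ) / 2) N : ℝ) ≤ Q.card := by exact_mod_cast window_sub hQ
  refine le_trans ?_ (h1.trans h3)
  have hs := one_le_sing' N
  have hlogN : 0 < Real.log (N : ℝ) := Real.log_pos (by linarith)
  have hlogb : Real.log (N : ℝ) ≤ Real.log b := Real.log_le_log (by linarith) hbr
  have h4 : (a : ℝ) / Real.log b ^ 2 ≤ a / Real.log N ^ 2 := by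
    apply div_le_div_of_nonneg_left (by positivity) (by positivity)
    exact pow_le_pow_left₀ hlogN.le hlogb 2
  calc δ / 2 * (a / Real.log b ^ 2) ≤ δ / 2 * (a / Real.log N ^ 2) := mul_le_mul_of_nonneg_left h4 (by positivity)
    _ = δ * 1 * ((a : ℝ) / 2 / Real.log N ^ 2) := by ring
    _ ≤ δ * sing N * ((a : ℝ) / 2 / Real.log N ^ 2) := by gcongr

/-- the upper bound for the number of hit numbers -/
lemma hit3_up : ∃ K : ℝ, 0 < K ∧ ∃ b₀ : ℕ, ∀ b a : ℕ, b₀ ≤ b → b ≤ a ^ 2 → ∀ q, ∀ V : Finset ℕ, (∀ N ∈ V, a ≤ N ∧ N ≤ b) →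
    (∀ N ∈ V, hit3 N q) → (V.card : ℝ) ≤ K * (b / Real.log b) := by
  classical
  obtain ⟨K, hK, Y₀, hY₀, h⟩ := rough (0.37 / 16) (by norm_num)
  have e1 := (tendsto_rpow_atTop (show (0 : ℝ) < 0.37 / 16 by norm_num)).eventually (Filter.eventually_gt_atTop (2 : ℝ))
  obtain ⟨x₀, h0⟩ := Filter.eventually_atTop.1 e1
  refine ⟨K, hK, max Y₀ ⌈x₀⌉₊, ?_⟩
  intro b a hb hba q V hV hVq
  have hb1 : Y₀ ≤ b := (le_max_left _ _).trans hb
  have hb2 := h0 b ((Nat.le_ceil _).trans (by exact_mod_cast (le_max_right _ _).trans hb))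
  have hbr : (2 : ℝ) ≤ b := by exact_mod_cast hY₀.trans hb1
  have hinj : Set.InjOn (fun N => N - q) (V : Set ℕ) := by
    intro N hN N' hN' he
    have h1 := (hVq N (mem_coe.1 hN)).1
    have h2 := (hVq N' (mem_coe.1 hN')).1
    dsimp only at he
    omega
  rw [← card_image_of_injOn hinj]
  apply h b hb1
  · intro n hn
    obtain ⟨N, hN, rfl⟩ := mem_image.1 hn
    have h1 := (hVq N hN).1
    have h2 := (hV N hN).2
    rw [mem_Ioc]
    omega
  · intro n hn l hl hlb h3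
    obtain ⟨N, hN, rfl⟩ := mem_image.1 hn
    have h4 := (hVq N hN).2.2 l hl (Nat.dvd_of_mod_eq_zero h3)
    have h5 := (hV N hN).1
    have h6 : (b : ℝ) ≤ (N : ℝ) ^ 2 := by
      have : b ≤ N ^ 2 := hba.trans (Nat.pow_le_pow_left h5 2)
      exact_mod_cast this
    have h7 : (b : ℝ) ^ (0.37 / 8 : ℝ) ≤ (N : ℝ) ^ (0.37 / 4 : ℝ) := by
      calc (b : ℝ) ^ (0.37 / 8 : ℝ) ≤ ((N : ℝ) ^ 2) ^ (0.37 / 8 : ℝ) := Real.rpow_le_rpow (by linarith) h6 (by norm_num)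
        _ = (N : ℝ) ^ (0.37 / 4 : ℝ) := by
            rw [← Real.rpow_natCast, ← Real.rpow_mul (by positivity)]
            norm_num
    have h8 : (b : ℝ) ^ (0.37 / 8 : ℝ) = (b : ℝ) ^ (0.37 / 16 : ℝ) * (b : ℝ) ^ (0.37 / 16 : ℝ) := by
      rw [← Real.rpow_add (by linarith)]
      norm_num
    have h9 : 2 * (b : ℝ) ^ (0.37 / 16 : ℝ) < (b : ℝ) ^ (0.37 / 16 : ℝ) * (b : ℝ) ^ (0.37 / 16 : ℝ) := by
      apply mul_lt_mul_of_pos_right hb2
      linarith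
    linarith

end Pool.Agent.H563.TG
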