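import Pool.Agent.H563.TG.Alm

/-!
# Thin sets of primes and almost primes
-/

set_option autoImplicit false

namespace Pool.Agent.H563.TG

open Finset Filter

lemma ev_sqrt {δ : ℝ} (hδ : 0 < δ) : ∃ x₀ : ℕ, 3 ≤ x₀ ∧ ∀ a : ℕ, x₀ ≤ a → ∀ k : ℕ, k ^ 2 ≤ a → ∀ b : ℕ, 2 ≤ b → 16 * b ^ 3 ≤ a ^ 4 →
    (k : ℝ) ≤ δ / 2 * (a / Real.log b ^ 2) ∧ Real.log b ≤ 2 * Real.log a := by
  have ev := (isLittleO_log_rpow_atTop (show (0 : ℝ) < 1 / 4 by norm_num)).bound (show 0 < Real.sqrt (δ / 8) by positivity)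
  obtain ⟨x₀, hx₀⟩ := eventually_atTop.1 ev
  refine ⟨⌈x₀⌉₊ + 3, by omega, ?_⟩
  intro a ha k hk b hb hab
  have h1 := hx₀ a ((Nat.le_ceil _).trans (by exact_mod_cast (by omega : ⌈x₀⌉₊ ≤ a)))
  have ha3 : (3 : ℝ) ≤ a := by exact_mod_cast (by omega : 3 ≤ a)
  have hbr : (2 : ℝ) ≤ b := by exact_mod_cast hb
  have hla : 0 < Real.log (a : ℝ) := Real.log_pos (by linarith)
  have hlb : 0 < Real.log (b : ℝ) := Real.log_pos (by linarith)
  rw [Real.norm_eq_abs, Real.norm_eq_abs, abs_of_pos hla, abs_of_nonneg (by positivity)] at h1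
  have h2 : Real.log b ≤ 2 * Real.log a := by
    have h3 : (b : ℝ) ^ 3 ≤ a ^ 4 := by
      have : b ^ 3 ≤ a ^ 4 := by omega
      exact_mod_cast this
    have h4 := Real.log_le_log (by positivity) h3
    rw [Real.log_pow, Real.log_pow] at h4
    push_cast at h4
    linarith
  refine ⟨?_, h2⟩
  have h3 : Real.log (b : ℝ) ^ 2 ≤ δ / 2 * Real.sqrt a := by
    have h4 : Real.log (a : ℝ) ^ 2 ≤ δ / 8 * Real.sqrt a := by
      calc Real.log (a : ℝ) ^ 2 ≤ (Real.sqrt (δ / 8) * (a : ℝ) ^ (1 / 4 : ℝ)) ^ 2 := pow_le_pow_left₀ hla.le h1 2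
        _ = δ / 8 * Real.sqrt a := by
            rw [mul_pow, Real.sq_sqrt (by positivity), ← Real.rpow_natCast, ← Real.rpow_mul (by positivity), Real.sqrt_eq_rpow]
            norm_num
    have h5 : Real.log (b : ℝ) ^ 2 ≤ (2 * Real.log a) ^ 2 := pow_le_pow_left₀ hlb.le h2 2
    nlinarith
  have h4 : (k : ℝ) ≤ Real.sqrt a := by
    apply Real.le_sqrt_of_sq_le
    exact_mod_cast hk
  rw [mul_div_assoc', le_div_iff₀ (by positivity)]
  have h6 : Real.sqrt (a : ℝ) * Real.sqrt a = a := Real.mul_self_sqrt (by positivity)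
  calc (k : ℝ) * Real.log b ^ 2 ≤ Real.sqrt a * (δ / 2 * Real.sqrt a) := by
        apply mul_le_mul h4 h3 (by positivity) (by positivity)
    _ = δ / 2 * a := by rw [← mul_assoc, mul_comm (Real.sqrt (a : ℝ)) (δ / 2), mul_assoc, h6]

lemma GE_card (a : ℕ → ℕ) (m : ℕ) : ((GE a m).card : ℝ) ≤ a m := by
  have h1 : (GE a m).card ≤ (Ioc (a (m - 1)) (a m)).card := card_le_card (by
    intro N hN
    rw [mem_Ioc]
    exact (mem_GE.1 hN).1)
  rw [Nat.card_Ioc] at h1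
  have h2 : (GE a m).card ≤ a m := by omega
  exact_mod_cast h2

/-- **thin sets, general form** -/
lemma thinG (hit : ℕ → ℕ → Prop) (Reg : ℕ → Prop) (δ K : ℝ) (x₁ b₀ : ℕ) (hδ : 0 < δ) (hK : 0 < K)
    (hlow : ∀ a b N : ℕ, x₁ ≤ a → 16 * b ^ 3 ≤ a ^ 4 → a ≤ N → N ≤ b → 2 ∣ N → Reg N →
      ∀ Q : Finset ℕ, (∀ q ∈ BP a, hit N q → q ∈ Q) → δ * (a / Real.log b ^ 2) ≤ Q.card)
    (hup : ∀ b a : ℕ, b₀ ≤ b → b ≤ a ^ 2 → ∀ q, ∀ V : Finset ℕ, (∀ N ∈ V, a ≤ N ∧ N ≤ b) →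
      (∀ N ∈ V, hit N q) → (V.card : ℝ) ≤ K * (b / Real.log b)) :
    ∃ c : ℝ, 0 < c ∧ ∀ (a lo : ℕ → ℕ) (m' : ℕ), ScaleSeq a lo m' → ∃ n₀ m₀ : ℕ, ∀ k : ℕ → ℕ, (∀ n, k n ^ 2 ≤ a n) →
    ∃ g : ℕ × ℕ → ℕ, (∀ s : ℕ × ℕ, n₀ ≤ s.1 → s.2 < k s.1 → g s ∈ BP (a s.1)) ∧
      (∀ s s' : ℕ × ℕ, n₀ ≤ s.1 → n₀ ≤ s'.1 → s.2 < k s.1 → s'.2 < k s'.1 → g s = g s' → s = s') ∧
      ∀ m, m₀ ≤ m → n₀ ≤ lo m ∧ ∀ n : ℝ, 0 ≤ n → n ≤ (steps k (lo m) m).card → ∀ U : Finset ℕ, U ⊆ GE a m →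
        (∀ N ∈ U, Reg N) →
        (∀ N ∈ U, ∀ B ⊆ steps k (lo m) m, (∀ s ∈ B, hit N (g s)) → (B.card : ℝ) ≤ c * (n / Real.log (a m))) →
        (U.card : ℝ) ≤ 12 * a m * Real.exp (-(c * (n / Real.log (a m)))) := by
  classical
  obtain ⟨δ3, hδ3, x₃, hlow3⟩ := hit3_low
  obtain ⟨a₀, hBP⟩ := BP_card
  obtain ⟨x₂, hx₂3, hsq⟩ := ev_sqrt hδ
  obtain ⟨x₄, hx₄3, hsq3⟩ := ev_sqrt hδ3
  obtain ⟨c₁, hc₁⟩ : ∃ c₁ : ℝ, c₁ = δ / 32 := ⟨_, rfl⟩
  have hc₁0 : 0 < c₁ := by rw [hc₁]; positivity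
  obtain ⟨m₂, hpar⟩ := param (2 * c₁) (K / c₁) (by positivity) (by positivity)
  refine ⟨c₁ / 200, by positivity, ?_⟩
  intro a lo m' hs
  obtain ⟨n₀, hn₀⟩ : ∃ n₀, n₀ = max m' (max (max x₁ x₂) (max (a₀) (b₀))) + 10 + x₃ + x₄ := ⟨_, rfl⟩
  obtain ⟨m₃, hm₃⟩ := hs.tend n₀
  obtain ⟨m₁, hm₁⟩ : ∃ m₁, m₁ = max m₃ n₀ := ⟨_, rfl⟩
  refine ⟨n₀, max m₂ m₁, ?_⟩
  intro k hk
  obtain ⟨k', hk'⟩ : ∃ k' : ℕ → ℕ, k' = fun n => if n < n₀ then 0 else k n := ⟨_, rfl⟩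
  have hk'e : ∀ n, n₀ ≤ n → k' n = k n := by
    intro j hj
    rw [hk']
    dsimp only
    rw [if_neg (by omega)]
  have hk'z : ∀ n, k' n ≠ 0 → n₀ ≤ n := by
    intro j hj
    by_contra hcon
    apply hj
    rw [hk']
    dsimp only
    rw [if_pos (by omega)]
  have hst : ∀ l h, n₀ ≤ l → steps k' l h = steps k l h := by
    intro l h hl
    ext s
    rw [mem_steps, mem_steps]
    constructor
    · rintro ⟨h1, h2⟩
      rw [hk'e _ (by omega)] at h2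
      exact ⟨h1, h2⟩
    · rintro ⟨h1, h2⟩
      rw [hk'e _ (by omega)]
      exact ⟨h1, h2⟩
  -- large values
  have hbig3 : ∀ n, n₀ ≤ n → x₃ ≤ a n ∧ x₄ ≤ a n := by
    intro n hn
    have h1 : n < 2 ^ n := Nat.lt_two_pow_self
    have h2 := hs.two n
    omega
  have hbig : ∀ n, n₀ ≤ n → x₁ ≤ a n ∧ x₂ ≤ a n ∧ a₀ ≤ a n ∧ b₀ ≤ a n ∧ m' ≤ n ∧ 4 ≤ n := by
    intro n hn
    have h1 : n < 2 ^ n := Nat.lt_two_pow_self
    have h2 := hs.two n
    rw [hn₀] at hn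
    have e1 := le_max_left m' (max (max x₁ x₂) (max a₀ b₀))
    have e2 := le_max_right m' (max (max x₁ x₂) (max a₀ b₀))
    have e3 := le_max_left (max x₁ x₂) (max a₀ b₀)
    have e4 := le_max_right (max x₁ x₂) (max a₀ b₀)
    have e5 := le_max_left x₁ x₂
    have e6 := le_max_right x₁ x₂
    have e7 := le_max_left a₀ b₀
    have e8 := le_max_right a₀ b₀
    refine ⟨by omega, by omega, by omega, by omega, by omega, by omega⟩
  -- the key inequality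
  have hkey : ∀ n m : ℕ, n₀ ≤ n → 16 * a m ^ 3 ≤ a n ^ 4 → 2 ≤ a m → ∀ N, a n ≤ N → N ≤ a m → 2 ∣ N → Reg N → ∀ R ⊆ BP (a n),
      (BP (a n) \ R).card ≤ k n → ∀ Q : Finset ℕ, (∀ q ∈ R, hit N q → q ∈ Q) →
      δ / 2 * (a n / Real.log (a m) ^ 2) ≤ Q.card := by
    intro n m hn hnm hm2 N hN1 hN2 hN3 hNr R hR hRc Q hQ
    obtain ⟨g1, g2, g3, g4, g5, g6⟩ := hbig n hn
    have h1 := hlow (a n) (a m) N g1 hnm hN1 hN2 hN3 hNr (Q ∪ (BP (a n) \ R)) (by
      intro q hq hh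
      rw [mem_union, Finset.mem_sdiff]
      by_cases hqR : q ∈ R
      · exact Or.inl (hQ q hqR hh)
      · exact Or.inr ⟨hq, hqR⟩)
    have h2 : ((Q ∪ (BP (a n) \ R)).card : ℝ) ≤ Q.card + k n := by
      have h4 := card_union_le Q (BP (a n) \ R)
      have : (Q ∪ (BP (a n) \ R)).card ≤ Q.card + k n := by omega
      exact_mod_cast this
    have h3 := (hsq (a n) g2 (k n) (hk n) (a m) hm2 hnm).1
    have e : δ * (a n / Real.log (a m) ^ 2) = δ / 2 * (a n / Real.log (a m) ^ 2) + δ / 2 * (a n / Real.log (a m) ^ 2) := by ring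
    linarith
  have hlow4 : ∀ n, n₀ ≤ n → k n ≤ (BP (a n)).card := by
    intro n hn
    obtain ⟨g1, g2, g3, g4, g5, g6⟩ := hbig n hn
    have h4n : 2 ^ n ≤ a n := hs.two n
    have h16 : 1024 ≤ a n := by
      have : 2 ^ 10 ≤ 2 ^ n := Nat.pow_le_pow_right (by norm_num) (by omega)
      omega
    by_contra hcon
    push Not at hcon
    -- an even number between a n and a n + 1
    obtain ⟨N, hN1, hN2, hN3⟩ : ∃ N, a n ≤ N ∧ N ≤ a n + 1 ∧ 2 ∣ N := by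
      rcases Nat.even_or_odd (a n) with h | h
      · exact ⟨a n, le_rfl, by omega, even_iff_two_dvd.1 h⟩
      · exact ⟨a n + 1, by omega, le_rfl, even_iff_two_dvd.1 (by
          obtain ⟨t, ht⟩ := h
          exact ⟨t + 1, by omega⟩)⟩
    have h5 : 16 * (a n + 1) ^ 3 ≤ a n ^ 4 := by
      have e1 : (a n + 1) ^ 3 ≤ (2 * a n) ^ 3 := Nat.pow_le_pow_left (by omega) 3
      calc 16 * (a n + 1) ^ 3 ≤ 16 * (2 * a n) ^ 3 := Nat.mul_le_mul_left _ e1
        _ = 128 * a n ^ 3 := by ring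
        _ ≤ a n * a n ^ 3 := Nat.mul_le_mul_right _ (by omega)
        _ = a n ^ 4 := by ring
    have h1 := hlow3 (a n) (a n + 1) N (hbig3 n hn).1 h5 hN1 hN2 hN3 (BP (a n)) (fun q hq _ => hq)
    have h3 := (hsq3 (a n) (hbig3 n hn).2 (k n) (hk n) (a n + 1) (by omega) h5).1
    have h6 : (((BP (a n)).card : ℕ) : ℝ) < k n := by exact_mod_cast hcon
    have h7 : 0 < δ3 * ((a n : ℝ) / Real.log ((a n + 1 : ℕ) : ℝ) ^ 2) := by
      have : 0 < Real.log ((a n + 1 : ℕ) : ℝ) := Real.log_pos (by exact_mod_cast (by omega : 1 < a n + 1))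
      have : (0 : ℝ) < a n := by exact_mod_cast (by omega : 0 < a n)
      positivity
    have e : δ3 / 2 * (a n / Real.log ((a n + 1 : ℕ) : ℝ) ^ 2) = δ3 * (a n / Real.log ((a n + 1 : ℕ) : ℝ) ^ 2) / 2 := by ring
    rw [e] at h3
    linarith
  obtain ⟨g, hg1, hg0, hg2⟩ := hpar hit k' lo (fun m => m) (fun s => if n₀ ≤ s.1 then BP (a s.1) else ∅) (by
      intro s s' hss
      split_ifs with h1 h2
      · rw [disjoint_left]
        intro q hq hq'
        rw [mem_BP] at hq hq'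
        rcases Nat.lt_or_gt_of_ne hss with h | h
        · have := hs.four' (hbig s.1 h1).2.2.2.2.1 h
          omega
        · have := hs.four' (hbig s'.1 h2).2.2.2.2.1 h
          omega
      · exact disjoint_empty_right _
      · exact disjoint_empty_left _
      · exact disjoint_empty_left _) (by
      intro s hs'
      have h1 := hk'z s.1 (by omega)
      rw [if_pos h1, hk'e _ h1]
      exact hlow4 s.1 h1) (fun m => (a m : ℝ)) (fun m => (GE a m).filter Reg) (fun m => c₁ / Real.log (a m)) m₁ (by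
      intro m hm
      have hmn : n₀ ≤ m := by rw [hm₁] at hm; exact (le_max_right _ _).trans hm
      have h1 : (2 : ℝ) ^ m ≤ a m := by exact_mod_cast hs.two m
      have h2 := Real.log_le_log (by positivity) h1
      rw [Real.log_pow] at h2
      have h3 := Real.log_two_gt_d9
      have hm0 : (0 : ℝ) < m := by exact_mod_cast (by have := (hbig m hmn).2.2.2.2.2; omega : 0 < m)
      have h4 : (1 / 2 : ℝ) * m ≤ Real.log (a m) := by nlinarith
      have h5 : 0 < Real.log (a m : ℝ) := by nlinarith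
      refine ⟨le_rfl, by positivity, ?_⟩
      rw [div_mul_eq_mul_div, div_le_iff₀ h5]
      nlinarith) (by
      intro m _
      refine ⟨?_, le_trans (by exact_mod_cast card_filter_le _ _) (GE_card a m)⟩
      have : 0 < 2 ^ m := by positivity
      have := hs.two m
      exact_mod_cast (by omega : 0 < a m)) (by
      intro m hm s hs1 hs2 hs3 N hN R hR hRc Q hQ hQ2
      have hn := hk'z s.1 (by omega)
      rw [if_pos hn] at hR hRc
      rw [hk'e _ hn] at hRc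
      have hmn : n₀ ≤ m := by rw [hm₁] at hm; exact (le_max_right _ _).trans hm
      obtain ⟨g1, g2, g3, g4, g5, g6⟩ := hbig s.1 hn
      have hnm := hs.low m s.1 (hbig m hmn).2.2.2.2.1 hs1 hs2
      rw [mem_filter] at hN
      obtain ⟨hN, hNr⟩ := hN
      obtain ⟨⟨hN1, hN2⟩, hN3⟩ := mem_GE.1 hN
      have hN0 : a s.1 ≤ N := (hs.mono (by omega : s.1 ≤ m - 1)).trans hN1.le
      have ham2 : 2 ≤ a m := by
        have h1 := hs.two m
        have h2 : 2 ^ 1 ≤ 2 ^ m := Nat.pow_le_pow_right (by norm_num) (by omega)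
        omega
      have h1 := hkey s.1 m hn hnm ham2 N hN0 hN2 hN3 hNr R hR hRc.le Q hQ2
      have h2 := (hsq (a s.1) g2 (k s.1) (hk _) (a m) ham2 hnm).2
      have h3 := hBP (a s.1) g3
      have hRr : (R.card : ℝ) ≤ (BP (a s.1)).card := by exact_mod_cast card_le_card hR
      have han : (3 : ℝ) ≤ a s.1 := by exact_mod_cast hx₂3.trans g2
      have hla : 0 < Real.log (a s.1 : ℝ) := Real.log_pos (by linarith)
      have ham : (2 : ℝ) ≤ a m := by exact_mod_cast ham2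
      have hlm : 0 < Real.log (a m : ℝ) := Real.log_pos (by linarith)
      have h4 : (a s.1 : ℝ) / Real.log (a s.1) ≤ 2 * (a s.1 / Real.log (a m)) := by
        rw [div_le_iff₀ hla]
        have e1 : 2 * ((a s.1 : ℝ) / Real.log (a m)) * Real.log (a s.1) = a s.1 * (2 * Real.log (a s.1)) / Real.log (a m) := by
          ring
        rw [e1, le_div_iff₀ hlm]
        exact mul_le_mul_of_nonneg_left h2 (by positivity)
      calc 2 * (c₁ / Real.log (a m)) * R.card ≤ 2 * (c₁ / Real.log (a m)) * (8 * (a s.1 / Real.log (a m))) := by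
            apply mul_le_mul_of_nonneg_left _ (by positivity)
            linarith
        _ = δ / 2 * (a s.1 / Real.log (a m) ^ 2) := by
            rw [hc₁]
            field_simp
            ring
        _ ≤ Q.card := h1) (by
      intro m hm q V hV hVq
      have hmn : n₀ ≤ m := by rw [hm₁] at hm; exact (le_max_right _ _).trans hm
      obtain ⟨g1, g2, g3, g4, g5, g6⟩ := hbig m hmn
      have h1 := hs.low m (m - 1) g5 (by have := hs.lt m g5; omega) (by omega)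
      have ha1 : 1 ≤ a (m - 1) := by
        have := hs.two (m - 1)
        have : 0 < 2 ^ (m - 1) := by positivity
        omega
      have h2 : a m ≤ a (m - 1) ^ 2 := by
        by_contra hcon
        push Not at hcon
        have h3 : (a (m - 1) ^ 2) ^ 3 < a m ^ 3 := Nat.pow_lt_pow_left hcon (by norm_num)
        have h4 : a (m - 1) ^ 4 ≤ (a (m - 1) ^ 2) ^ 3 := by
          rw [← pow_mul]
          exact Nat.pow_le_pow_right ha1 (by norm_num)
        omega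
      have h3 := hup (a m) (a (m - 1)) g4 h2 q V (by
        intro N hN
        have := mem_GE.1 (mem_filter.1 (hV hN)).1
        exact ⟨this.1.1.le, this.1.2⟩) hVq
      refine h3.trans (le_of_eq ?_)
      field_simp)
  refine ⟨g, ?_, ?_, ?_⟩
  · intro s hs1 hs2
    have := hg1 s (by rw [hk'e _ hs1]; exact hs2)
    rw [if_pos hs1] at this
    exact this
  · intro s s' h1 h2 h3 h4 h5
    exact hg0 s s' (by rw [hk'e _ h1]; exact h3) (by rw [hk'e _ h2]; exact h4) h5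
  · intro m hm
    have hmm : m₃ ≤ m := by
      have := (le_max_right m₂ m₁).trans hm
      rw [hm₁] at this
      exact (le_max_left _ _).trans this
    have hlo := hm₃ m hmm
    refine ⟨hlo, ?_⟩
    intro n hn0 hn U hU hUr hUn
    have h1 := hg2 m hm n hn0 (by rw [hst _ _ hlo]; exact hn) U (fun N hN => mem_filter.2 ⟨hU hN, hUr N hN⟩) (by
      intro N hN B hB hBh
      rw [hst _ _ hlo] at hB
      refine (hUn N hN B hB hBh).trans (le_of_eq ?_)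
      ring)
    refine h1.trans ?_
    apply mul_le_mul_of_nonneg_left _ (by positivity)
    apply Real.exp_le_exp.2
    have hlm : 0 ≤ Real.log (a m : ℝ) := Real.log_natCast_nonneg _
    have : 0 ≤ n / Real.log (a m : ℝ) := div_nonneg hn0 hlm
    have e : c₁ / Real.log (a m : ℝ) * n = c₁ * (n / Real.log (a m : ℝ)) := by ring
    rw [e]
    have : 0 ≤ c₁ * (n / Real.log (a m : ℝ)) := by positivity
    linarith

/-- **thin sets, all even numbers** -/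
lemma thin3 : ∃ c : ℝ, 0 < c ∧ ∀ (a lo : ℕ → ℕ) (m' : ℕ), ScaleSeq a lo m' → ∃ n₀ m₀ : ℕ, ∀ k : ℕ → ℕ, (∀ n, k n ^ 2 ≤ a n) →
    ∃ g : ℕ × ℕ → ℕ, (∀ s : ℕ × ℕ, n₀ ≤ s.1 → s.2 < k s.1 → g s ∈ BP (a s.1)) ∧
      (∀ s s' : ℕ × ℕ, n₀ ≤ s.1 → n₀ ≤ s'.1 → s.2 < k s.1 → s'.2 < k s'.1 → g s = g s' → s = s') ∧
      ∀ m, m₀ ≤ m → n₀ ≤ lo m ∧ ∀ n : ℝ, 0 ≤ n → n ≤ (steps k (lo m) m).card → ∀ U : Finset ℕ, U ⊆ GE a m →
        (∀ N ∈ U, ∀ B ⊆ steps k (lo m) m, (∀ s ∈ B, hit3 N (g s)) → (B.card : ℝ) ≤ c * (n / Real.log (a m))) →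
        (U.card : ℝ) ≤ 12 * a m * Real.exp (-(c * (n / Real.log (a m)))) := by
  obtain ⟨δ, hδ, x₁, hlow⟩ := hit3_low
  obtain ⟨K, hK, b₀, hup⟩ := hit3_up
  obtain ⟨c, hc, h⟩ := thinG hit3 (fun _ => True) δ K x₁ b₀ hδ hK (fun a b N h1 h2 h3 h4 h5 _ => hlow a b N h1 h2 h3 h4 h5) hup
  refine ⟨c, hc, ?_⟩
  intro a lo m' hs
  obtain ⟨n₀, m₀, h⟩ := h a lo m' hs
  refine ⟨n₀, m₀, ?_⟩
  intro k hk
  obtain ⟨g, h1, h2, h3⟩ := h k hk
  refine ⟨g, h1, h2, ?_⟩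
  intro m hm
  obtain ⟨h4, h5⟩ := h3 m hm
  exact ⟨h4, fun n hn0 hn U hU hUn => h5 n hn0 hn U hU (fun _ _ => trivial) hUn⟩

end Pool.Agent.H563.TG
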