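import Pool.Agent.H563.TG.Thd

/-!
# Universal thin sets of primes
-/

set_option autoImplicit false

namespace Pool.Agent.H563.TG

open Finset Filter

/-- the relation between the blocks and the numbers -/
def relT (θ : ℝ) (a b : ℕ) : Prop := (b : ℝ) ^ θ ≤ (a : ℝ) / 4

lemma relT_D {θ : ℝ} (hθ : 0 < θ) {a b : ℕ} (h : relT θ a b) : b ≤ a ^ ⌈1 / θ⌉₊ := by
  unfold relT at h
  have hb0 : (0 : ℝ) ≤ b := Nat.cast_nonneg _
  by_cases ha : a = 0
  · rw [ha] at h
    simp only [Nat.cast_zero, zero_div] at h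
    have h1 : (b : ℝ) ^ θ = 0 := le_antisymm h (by positivity)
    rw [Real.rpow_eq_zero hb0 hθ.ne'] at h1
    have h2 : b = 0 := by exact_mod_cast h1
    rw [h2]
    exact Nat.zero_le _
  have ha1 : (1 : ℝ) ≤ a := by exact_mod_cast Nat.pos_of_ne_zero ha
  have h2 : (b : ℝ) ^ θ ≤ a := by linarith
  have h3 : (b : ℝ) ≤ (a : ℝ) ^ (1 / θ) := by
    calc (b : ℝ) = ((b : ℝ) ^ θ) ^ (1 / θ) := by
          rw [← Real.rpow_mul hb0, mul_one_div_cancel hθ.ne', Real.rpow_one]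
      _ ≤ (a : ℝ) ^ (1 / θ) := Real.rpow_le_rpow (by positivity) h2 (by positivity)
  have h4 : (a : ℝ) ^ (1 / θ) ≤ (a : ℝ) ^ ((⌈1 / θ⌉₊ : ℕ) : ℝ) := Real.rpow_le_rpow_of_exponent_le ha1 (Nat.le_ceil _)
  rw [Real.rpow_natCast] at h4
  exact_mod_cast h3.trans h4

/-- the scales `4 ^ n` -/
lemma seq4 {θ η : ℝ} (hθ : 0 < θ) (hη1 : η ≤ 1) :
    ScaleSeqD (relT θ) (fun n => 4 ^ n) (fun m => ⌈θ * m⌉₊ + 1) (fun m => ⌊η * m⌋₊) 2 where
  two := fun n => Nat.pow_le_pow_left (by norm_num) n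
  mono := fun a b h => Nat.pow_le_pow_right (by norm_num) h
  four := fun n _ => by rw [pow_succ]; omega
  low := by
    intro m n _ h1 _
    unfold relT
    have h2 : θ * m ≤ n - 1 := by
      have h3 := Nat.le_ceil (θ * m)
      have h4 : ((⌈θ * m⌉₊ : ℕ) : ℝ) + 1 ≤ n := by exact_mod_cast h1
      linarith
    push_cast
    rw [← Real.rpow_natCast, ← Real.rpow_mul (by norm_num)]
    calc (4 : ℝ) ^ ((m : ℝ) * θ) ≤ (4 : ℝ) ^ ((n : ℝ) - 1) := by
          apply Real.rpow_le_rpow_of_exponent_le (by norm_num)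
          linarith
      _ = 4 ^ n / 4 := by
          rw [Real.rpow_sub (by norm_num), Real.rpow_natCast, Real.rpow_one]
  sq := by
    intro m hm
    show 4 ^ m ≤ (4 ^ (m - 1)) ^ 2
    rw [← pow_mul]
    exact Nat.pow_le_pow_right (by norm_num) (by omega)
  le := by
    intro m _
    have h1 : η * m ≤ m := by
      have : (0 : ℝ) ≤ m := Nat.cast_nonneg _
      nlinarith
    exact Nat.floor_le_of_le h1
  tend := by
    intro n₀
    refine ⟨⌈(n₀ : ℝ) / θ⌉₊, ?_⟩
    intro m hm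
    have h1 : (n₀ : ℝ) / θ ≤ m := (Nat.le_ceil _).trans (by exact_mod_cast hm)
    rw [div_le_iff₀ hθ] at h1
    have h2 : (n₀ : ℝ) ≤ (⌈θ * m⌉₊ : ℝ) := by
      refine le_trans ?_ (Nat.le_ceil _)
      linarith
    have h3 : n₀ ≤ ⌈θ * (m : ℝ)⌉₊ := by exact_mod_cast h2
    omega

/-- **universal thin sets of primes** -/
lemma universal {θ η : ℝ} (hθ : 0 < θ) (hθη : θ < η) (hη1 : η ≤ 1) (hit : ℕ → ℕ → Prop) (Reg : ℕ → Prop)
    (δ K : ℝ) (x₁ b₀ : ℕ) (hδ : 0 < δ) (hK : 0 < K)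
    (hlow : ∀ a b N : ℕ, x₁ ≤ a → relT θ a b → a ≤ N → N ≤ b → b ≤ N ^ 2 → Reg N →
      ∀ Q : Finset ℕ, (∀ q ∈ BP a, hit N q → q ∈ Q) → δ * (a / Real.log b ^ 2) ≤ Q.card)
    (hup : ∀ b a : ℕ, b₀ ≤ b → b ≤ a ^ 2 → ∀ q, ∀ V : Finset ℕ, (∀ N ∈ V, (a ≤ N ∧ N ≤ b) ∧ Reg N) →
      (∀ N ∈ V, hit N q) → (V.card : ℝ) ≤ K * (b / Real.log b)) (B : ℝ) (hB : 0 < B) :
    ∃ C : ℝ, 0 < C ∧ ∃ S : Set ℕ, (∀ q ∈ S, q.Prime) ∧ (∀ x : ℕ, 2 ≤ x → ({q | q ∈ S ∧ q ≤ x}.ncard : ℝ) ≤ C * Real.log x ^ 2) ∧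
      ∃ N₀ : ℕ, ∀ N : ℕ, N₀ ≤ N → Reg N → ∃ H : Finset ℕ, (∀ q ∈ H, q ∈ S ∧ (q : ℝ) ≤ (N : ℝ) ^ η ∧ hit N q) ∧
        B * Real.log N ≤ H.card := by
  classical
  obtain ⟨c, hc, h⟩ := thinD ⌈1 / θ⌉₊ (Nat.ceil_pos.2 (by positivity)) hit Reg (relT θ) (fun a b h => relT_D hθ h)
    δ K x₁ b₀ hδ hK hlow hup
  obtain ⟨n₀, m₀, h⟩ := h (fun n => 4 ^ n) (fun m => ⌈θ * m⌉₊ + 1) (fun m => ⌊η * m⌋₊) 2 (seq4 hθ hη1)
  obtain ⟨ω, hω⟩ : ∃ ω : ℝ, ω = η - θ := ⟨_, rfl⟩
  have hω0 : 0 < ω := by rw [hω]; linarith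
  -- the constant
  obtain ⟨K₀, hK₀⟩ : ∃ K₀ : ℕ, (16 + 4 * B) ≤ c * ω * θ / 4 * K₀ := by
    refine ⟨⌈(16 + 4 * B) / (c * ω * θ / 4)⌉₊, ?_⟩
    have := Nat.le_ceil ((16 + 4 * B) / (c * ω * θ / 4))
    rw [div_le_iff₀ (by positivity)] at this
    linarith
  have hlog4 : Real.log 4 ≤ 2 := by
    rw [show (4 : ℝ) = 2 ^ 2 by norm_num, Real.log_pow]
    have := Real.log_two_lt_d9
    push_cast
    linarith
  have hlog4' : 1 ≤ Real.log 4 := by
    rw [show (4 : ℝ) = 2 ^ 2 by norm_num, Real.log_pow]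
    have := Real.log_two_gt_d9
    push_cast
    linarith
  obtain ⟨k, hk⟩ : ∃ k : ℕ → ℕ, k = fun n => min (K₀ * n) (2 ^ n) := ⟨_, rfl⟩
  have hkm : Monotone k := by
    intro a b hab
    rw [hk]
    exact min_le_min (Nat.mul_le_mul_left _ hab) (Nat.pow_le_pow_right (by norm_num) hab)
  have hkb : ∀ n, K₀ + 1 ≤ n → K₀ * n ≤ 2 ^ n := by
    intro n hn
    have h1 : n - 1 < 2 ^ (n - 1) := Nat.lt_two_pow_self
    have h3 : n ^ 2 ≤ 2 ^ n ∨ n ≤ 3 := by
      by_cases h4 : n ≤ 3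
      · exact Or.inr h4
      · left
        push Not at h4
        have : ∀ t : ℕ, 4 ≤ t → t ^ 2 ≤ 2 ^ t := by
          intro t ht
          induction t, ht using Nat.le_induction with
          | base => norm_num
          | succ t ht ih =>
            rw [pow_succ 2 t]
            nlinarith
        exact this n h4
    rcases h3 with h3 | h3
    · calc K₀ * n ≤ n * n := Nat.mul_le_mul_right _ (by omega)
        _ = n ^ 2 := by ring
        _ ≤ 2 ^ n := h3
    · interval_cases n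
      · omega
      · have : K₀ = 0 := by omega
        rw [this]
        norm_num
      · have : K₀ ≤ 1 := by omega
        have : K₀ * 2 ≤ 1 * 2 := Nat.mul_le_mul_right _ this
        omega
      · have : K₀ ≤ 2 := by omega
        have : K₀ * 3 ≤ 2 * 3 := Nat.mul_le_mul_right _ this
        omega
  obtain ⟨g, hg1, hg0, hg2⟩ := h k (by
    intro n
    rw [hk]
    show (min (K₀ * n) (2 ^ n)) ^ 2 ≤ 4 ^ n
    calc (min (K₀ * n) (2 ^ n)) ^ 2 ≤ (2 ^ n) ^ 2 := Nat.pow_le_pow_left (min_le_right _ _) 2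
      _ = 4 ^ n := by rw [← pow_mul, mul_comm, pow_mul]; norm_num)
  obtain ⟨S, hS⟩ : ∃ S : Set ℕ, S = {q | ∃ s : ℕ × ℕ, n₀ ≤ s.1 ∧ s.2 < k s.1 ∧ q = g s} := ⟨_, rfl⟩
  refine ⟨36 * ((K₀ : ℝ) + 1), by positivity, S, ?_, ?_, ?_⟩
  · intro q hq
    rw [hS] at hq
    obtain ⟨s, h1, h2, rfl⟩ := hq
    exact (mem_BP.1 (hg1 s h1 h2)).1
  · intro x hx
    -- the blocks up to x
    obtain ⟨M, hM⟩ : ∃ M, M = Nat.log 4 x + 3 := ⟨_, rfl⟩
    have hsub : {q | q ∈ S ∧ q ≤ x} ⊆ (((range M).biUnion (fun n => (range (k n)).image (fun t => g (n, t))) : Finset ℕ) : Set ℕ) := by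
      rintro q ⟨hq, hqx⟩
      rw [hS] at hq
      obtain ⟨s, h1, h2, rfl⟩ := hq
      have h3 : 4 ^ s.1 < 8 * g s := (mem_BP.1 (hg1 s h1 h2)).2.1
      rw [mem_coe, mem_biUnion]
      refine ⟨s.1, ?_, ?_⟩
      · rw [mem_range, hM]
        by_contra hcon
        push Not at hcon
        have h4 : 4 ^ (Nat.log 4 x + 3) ≤ 4 ^ s.1 := Nat.pow_le_pow_right (by norm_num) hcon
        have h5 : x < 4 ^ (Nat.log 4 x + 1) := Nat.lt_pow_succ_log_self (by norm_num) x
        have h6 : 4 ^ (Nat.log 4 x + 3) = 16 * 4 ^ (Nat.log 4 x + 1) := by rw [pow_succ, pow_succ]; ring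
        omega
      · rw [mem_image]
        exact ⟨s.2, mem_range.2 h2, rfl⟩
    have hcard : {q | q ∈ S ∧ q ≤ x}.ncard ≤ M * (K₀ * M) := by
      refine (Set.ncard_le_ncard hsub (finite_toSet _)).trans ?_
      rw [Set.ncard_coe_finset]
      refine card_biUnion_le.trans ?_
      calc ∑ n ∈ range M, ((range (k n)).image (fun t => g (n, t))).card ≤ ∑ _n ∈ range M, K₀ * M := by
            apply sum_le_sum
            intro n hn
            rw [mem_range] at hn
            refine card_image_le.trans ?_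
            rw [card_range, hk]
            exact (min_le_left _ _).trans (Nat.mul_le_mul_left _ hn.le)
        _ = M * (K₀ * M) := by rw [sum_const, card_range, smul_eq_mul]
    have hxr : (2 : ℝ) ≤ x := by exact_mod_cast hx
    have hlx : 0.69 ≤ Real.log (x : ℝ) := by
      have := Real.log_le_log (by norm_num) hxr
      have := Real.log_two_gt_d9
      linarith
    have hMr : (M : ℝ) ≤ 6 * Real.log x := by
      have h1 : ((4 : ℝ) ^ (Nat.log 4 x)) ≤ x := by exact_mod_cast Nat.pow_log_le_self 4 (by omega)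
      have h2 := Real.log_le_log (by positivity) h1
      rw [Real.log_pow] at h2
      have h3 : (0 : ℝ) ≤ (Nat.log 4 x : ℕ) := Nat.cast_nonneg _
      rw [hM]
      push_cast
      nlinarith
    calc ({q | q ∈ S ∧ q ≤ x}.ncard : ℝ) ≤ ((M * (K₀ * M) : ℕ) : ℝ) := by exact_mod_cast hcard
      _ = K₀ * (M : ℝ) ^ 2 := by push_cast; ring
      _ ≤ K₀ * (6 * Real.log x) ^ 2 := by gcongr
      _ = 36 * K₀ * Real.log x ^ 2 := by ring
      _ ≤ 36 * ((K₀ : ℝ) + 1) * Real.log x ^ 2 := by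
          have : 0 ≤ Real.log (x : ℝ) ^ 2 := by positivity
          nlinarith
  · -- the size of the scales
    obtain ⟨m₁, hm₁⟩ : ∃ m₁ : ℕ, m₁ = m₀ + ⌈6 / ω⌉₊ + ⌈((K₀ : ℝ) + 1) / θ⌉₊ + 1 := ⟨_, rfl⟩
    refine ⟨4 ^ m₁ + 1, ?_⟩
    intro N hN hReg
    obtain ⟨m, hm⟩ : ∃ m, m = Nat.clog 4 N := ⟨_, rfl⟩
    have hN2 : 2 ≤ N := by
      have : 0 < 4 ^ m₁ := by positivity
      omega
    have hm1 : 4 ^ (m - 1) < N := by
      rw [hm]
      exact Nat.pow_pred_clog_lt_self (by norm_num) (by omega)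
    have hm2 : N ≤ 4 ^ m := by
      rw [hm]
      exact Nat.le_pow_clog (by norm_num) N
    have hmm : m₁ ≤ m := by
      by_contra hcon
      push Not at hcon
      have : 4 ^ m ≤ 4 ^ m₁ := Nat.pow_le_pow_right (by norm_num) hcon.le
      omega
    have hmr : (1 : ℝ) ≤ m := by exact_mod_cast (by omega : 1 ≤ m)
    have hmω : 6 / ω ≤ m := (Nat.le_ceil _).trans (by exact_mod_cast (by omega : ⌈6 / ω⌉₊ ≤ m))
    have hmθ : ((K₀ : ℝ) + 1) / θ ≤ m := (Nat.le_ceil _).trans (by exact_mod_cast (by omega : ⌈((K₀ : ℝ) + 1) / θ⌉₊ ≤ m))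
    rw [div_le_iff₀ hω0] at hmω
    rw [div_le_iff₀ hθ] at hmθ
    obtain ⟨h1, h2⟩ := hg2 m (by omega)
    obtain ⟨lo, hlo⟩ : ∃ lo, lo = ⌈θ * (m : ℝ)⌉₊ + 1 := ⟨_, rfl⟩
    obtain ⟨hi, hhi⟩ : ∃ hi, hi = ⌊η * (m : ℝ)⌋₊ := ⟨_, rfl⟩
    have h2' : ∀ n : ℝ, 0 ≤ n → n ≤ (steps k lo hi).card → ∀ U : Finset ℕ, U ⊆ GN Reg (fun n => 4 ^ n) m →
        (∀ N ∈ U, ∀ B ⊆ steps k lo hi, (∀ s ∈ B, hit N (g s)) → (B.card : ℝ) ≤ c * (n / Real.log ((4 ^ m : ℕ) : ℝ))) →
        (U.card : ℝ) ≤ 12 * ((4 ^ m : ℕ) : ℝ) * Real.exp (-(c * (n / Real.log ((4 ^ m : ℕ) : ℝ)))) := by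
      rw [hlo, hhi]
      exact h2
    have h1' : n₀ ≤ lo := by
      rw [hlo]
      exact h1
    have hlo1 : θ * m ≤ lo := by
      rw [hlo]
      push_cast
      linarith [Nat.le_ceil (θ * (m : ℝ))]
    have hlo2 : (lo : ℝ) ≤ θ * m + 2 := by
      rw [hlo]
      push_cast
      linarith [Nat.ceil_lt_add_one (show 0 ≤ θ * (m : ℝ) by positivity)]
    have hhi1 : η * m - 1 ≤ hi := by
      rw [hhi]
      linarith [Nat.lt_floor_add_one (η * (m : ℝ))]
    have hklo : K₀ * lo ≤ k lo := by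
      rw [hk]
      apply le_min le_rfl
      apply hkb
      have : (K₀ : ℝ) + 1 ≤ lo := by linarith
      exact_mod_cast this
    obtain ⟨n, hn⟩ : ∃ n : ℝ, n = (ω * m / 2) * (K₀ * (θ * m)) := ⟨_, rfl⟩
    have hn0 : 0 ≤ n := by rw [hn]; positivity
    have hn1 : n ≤ (steps k lo hi).card := by
      have h3 := steps_card hkm lo hi
      have h4 : ω * m / 2 ≤ ((hi - lo : ℕ) : ℝ) := by
        have h5 : (hi : ℝ) - lo ≤ ((hi - lo : ℕ) : ℝ) := by
          have := Nat.le_sub_iff_add_le' (n := hi - lo) (m := lo) (k := hi)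
          have h6 : hi ≤ (hi - lo) + lo := by omega
          have h7 : (hi : ℝ) ≤ ((hi - lo : ℕ) : ℝ) + lo := by exact_mod_cast h6
          linarith
        rw [hω] at hmω ⊢
        nlinarith
      have h5 : (K₀ * (θ * m) : ℝ) ≤ k lo := by
        have h6 : ((K₀ * lo : ℕ) : ℝ) ≤ k lo := by exact_mod_cast hklo
        push_cast at h6
        refine le_trans ?_ h6
        exact mul_le_mul_of_nonneg_left hlo1 (Nat.cast_nonneg _)
      calc n = (ω * m / 2) * (K₀ * (θ * m)) := hn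
        _ ≤ ((hi - lo : ℕ) : ℝ) * k lo := mul_le_mul h4 h5 (by positivity) (by positivity)
        _ = (((hi - lo) * k lo : ℕ) : ℝ) := by push_cast; ring
        _ ≤ _ := by exact_mod_cast h3
    have hlogm : Real.log ((4 ^ m : ℕ) : ℝ) = m * Real.log 4 := by
      push_cast
      rw [Real.log_pow]
    have hY : (16 + 4 * B) * m ≤ c * (n / Real.log ((4 ^ m : ℕ) : ℝ)) := by
      rw [hlogm, mul_div_assoc', le_div_iff₀ (by positivity), hn]
      calc (16 + 4 * B) * m * (m * Real.log 4) ≤ (c * ω * θ / 4 * K₀) * m * (m * 2) := by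
            apply mul_le_mul _ _ (by positivity) (by positivity)
            · exact mul_le_mul_of_nonneg_right hK₀ (by positivity)
            · exact mul_le_mul_of_nonneg_left hlog4 (by positivity)
        _ = c * (ω * m / 2 * (K₀ * (θ * m))) := by ring
    by_contra hcon
    have h3 := h2' n hn0 hn1 {N} (by
      intro N' hN'
      rw [mem_singleton] at hN'
      rw [hN', mem_GN]
      exact ⟨⟨hm1, hm2⟩, hReg⟩) (by
      intro N' hN' B' hB' hBh
      rw [mem_singleton] at hN'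
      rw [hN'] at hBh
      by_contra hlt
      push Not at hlt
      apply hcon
      refine ⟨B'.image g, ?_, ?_⟩
      · intro q hq
        obtain ⟨s, hs, rfl⟩ := mem_image.1 hq
        obtain ⟨f1, f2⟩ := mem_steps.1 (hB' hs)
        refine ⟨?_, ?_, hBh s hs⟩
        · rw [hS]
          exact ⟨s, by omega, f2, rfl⟩
        · have h4 : 2 * g s < 4 ^ s.1 := (mem_BP.1 (hg1 s (by omega) f2)).2.2
          have h5 : (2 : ℝ) * g s ≤ (4 : ℝ) ^ s.1 := by exact_mod_cast h4.le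
          have h6 : (s.1 : ℝ) + 1 ≤ η * m := by
            have h7 : ((s.1 + 1 : ℕ) : ℝ) ≤ hi := by exact_mod_cast (by omega : s.1 + 1 ≤ hi)
            push_cast at h7
            refine h7.trans ?_
            rw [hhi]
            apply Nat.floor_le
            have : 0 < η := by linarith
            positivity
          have h7 : (4 : ℝ) ^ s.1 ≤ (4 : ℝ) ^ (η * m - 1) := by
            rw [← Real.rpow_natCast]
            apply Real.rpow_le_rpow_of_exponent_le (by norm_num)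
            linarith
          have h8 : (4 : ℝ) ^ (η * m - η) ≤ (N : ℝ) ^ η := by
            have e1 : (4 : ℝ) ^ ((m - 1 : ℕ) : ℝ) ≤ N := by
              rw [Real.rpow_natCast]
              exact_mod_cast hm1.le
            have e2 : η * m - η = ((m - 1 : ℕ) : ℝ) * η := by
              rw [Nat.cast_sub (by omega)]
              push_cast
              ring
            rw [e2, Real.rpow_mul (by norm_num)]
            exact Real.rpow_le_rpow (by positivity) e1 (by linarith)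
          have h9 : (4 : ℝ) ^ (η * m - 1) ≤ (4 : ℝ) ^ (η * m - η) := by
            apply Real.rpow_le_rpow_of_exponent_le (by norm_num)
            linarith
          have h10 : (0 : ℝ) ≤ g s := Nat.cast_nonneg _
          linarith
      · have e2 : (B'.image g : Finset ℕ).card = B'.card := by
          apply card_image_of_injOn
          intro s hs s' hs' he
          have f1 := mem_steps.1 (hB' hs)
          have f2 := mem_steps.1 (hB' hs')
          exact hg0 s s' (by omega) (by omega) f1.2 f2.2 he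
        rw [e2]
        refine le_trans ?_ (hY.trans hlt.le)
        have e3 : Real.log (N : ℝ) ≤ m * Real.log 4 := by
          rw [← hlogm]
          apply Real.log_le_log
          · exact_mod_cast (by omega : 0 < N)
          · exact_mod_cast hm2
        calc B * Real.log N ≤ B * (m * 2) := by
              apply mul_le_mul_of_nonneg_left _ hB.le
              exact e3.trans (mul_le_mul_of_nonneg_left hlog4 (by positivity))
          _ ≤ (16 + 4 * B) * m := by nlinarith)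
    rw [card_singleton] at h3
    have h4 : 12 * ((4 ^ m : ℕ) : ℝ) * Real.exp (-(c * (n / Real.log ((4 ^ m : ℕ) : ℝ)))) < 1 := by
      have e1 : ((4 ^ m : ℕ) : ℝ) = Real.exp (m * Real.log 4) := by
        rw [← hlogm, Real.exp_log (by positivity)]
      have e2 : (12 : ℝ) ≤ Real.exp 12 := by linarith [Real.add_one_le_exp (12 : ℝ)]
      calc 12 * ((4 ^ m : ℕ) : ℝ) * Real.exp (-(c * (n / Real.log ((4 ^ m : ℕ) : ℝ)))) ≤
            Real.exp 12 * Real.exp (m * Real.log 4) * Real.exp (-((16 + 4 * B) * m)) := by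
            rw [← e1]
            apply mul_le_mul _ _ (Real.exp_pos _).le (by positivity)
            · exact mul_le_mul_of_nonneg_right e2 (by positivity)
            · apply Real.exp_le_exp.2
              linarith
        _ = Real.exp (12 + m * Real.log 4 + -((16 + 4 * B) * m)) := by
            rw [Real.exp_add, Real.exp_add]
        _ < Real.exp 0 := by
            apply Real.exp_lt_exp.2
            nlinarith
        _ = 1 := Real.exp_zero
    have h5 : ((1 : ℕ) : ℝ) < 1 := lt_of_le_of_lt h3 h4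
    norm_num at h5

end Pool.Agent.H563.TG
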