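import Pool.Agent.H563.TG.Num

/-!
# Thin sets of primes
-/

set_option autoImplicit false

namespace Pool.Agent.H563.TG

open Finset Filter
open Pool.Agent.H561.C4 (HoldsA)

/-- the number of the representations `N = q + p`, `q` in `Q`, `p ≠ q` prime -/
noncomputable def reps (Q : Set ℕ) (N : ℕ) : ℕ := {q | q ∈ Q ∧ q < N ∧ (N - q).Prime ∧ q ≠ N - q}.ncard

lemma GG_nonempty : ∃ m₀ : ℕ, ∀ m, m₀ ≤ m → (GG m).Nonempty := by
  classical
  obtain ⟨X₁, hall⟩ := Pool.Agent.H561.C4.allA (1 / 2) (1 / 8) (by norm_num) (by norm_num) 1 1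
  refine ⟨X₁ + 8, ?_⟩
  intro m hm
  by_contra hcon
  rw [not_nonempty_iff_eq_empty] at hcon
  have hX : X₁ ≤ 2 ^ (m + 1) := by
    have : m + 1 < 2 ^ (m + 1) := Nat.lt_two_pow_self
    omega
  have h1 := hall (2 ^ (m + 1)) hX
  have h2 : ((Ioc (2 ^ (m - 1)) (2 ^ m)).image (fun i => 2 * i)) ⊆
      (Icc 1 (2 ^ (m + 1))).filter (fun m : ℕ => 2 ∣ m ∧ ¬ HoldsA (1 / 2) (1 / 8) 1 m) := by
    intro N hN
    obtain ⟨i, hi, rfl⟩ := mem_image.1 hN
    rw [mem_Ioc] at hi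
    have e1 : 2 ^ (m + 1) = 2 * 2 ^ m := by rw [pow_succ]; ring
    have e2 : 2 ^ m = 2 * 2 ^ (m - 1) := by
      conv_lhs => rw [show m = (m - 1) + 1 by omega]
      rw [pow_succ]
      ring
    rw [mem_filter, mem_Icc]
    refine ⟨⟨by omega, by omega⟩, ⟨i, rfl⟩, ?_⟩
    intro hH
    have : 2 * i ∈ GG m := mem_GG.2 ⟨⟨by omega, by omega⟩, ⟨i, rfl⟩, hH⟩
    rw [hcon] at this
    simp at this
  have h3 := card_le_card h2
  rw [card_image_of_injective _ (fun a b h => by simpa using h), Nat.card_Ioc] at h3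
  have e2 : 2 ^ m = 2 * 2 ^ (m - 1) := by
    conv_lhs => rw [show m = (m - 1) + 1 by omega]
    rw [pow_succ]
    ring
  have h4 : 2 ^ (m - 1) ≤ ((Icc 1 (2 ^ (m + 1))).filter (fun m : ℕ => 2 ∣ m ∧ ¬ HoldsA (1 / 2) (1 / 8) 1 m)).card := by omega
  have h5 : (2 : ℝ) ^ (m - 1) ≤ ((2 ^ (m + 1) : ℕ) : ℝ) / Real.log ((2 ^ (m + 1) : ℕ) : ℝ) ^ 1 := by
    refine le_trans ?_ h1
    exact_mod_cast h4
  have hl2 := Real.log_two_gt_d9
  push_cast at h5
  rw [pow_one, Real.log_pow] at h5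
  have hm8 : (8 : ℝ) ≤ m := by exact_mod_cast (by omega : 8 ≤ m)
  rw [le_div_iff₀ (by push_cast; positivity)] at h5
  have e3 : (2 : ℝ) ^ (m + 1) = 4 * 2 ^ (m - 1) := by
    rw [show m + 1 = (m - 1) + 2 by omega, pow_add]
    norm_num
    ring
  rw [e3] at h5
  have h6 : (0 : ℝ) < 2 ^ (m - 1) := by positivity
  push_cast at h5
  have h7 : (4 : ℝ) < ((m : ℝ) + 1) * Real.log 2 := by nlinarith
  nlinarith

lemma PP_low : ∃ j₀ : ℕ, 1 ≤ j₀ ∧ ∀ s : ℕ × ℕ, j₀ ≤ s.1 → 2 ^ (s.1 / 2) ≤ (PP s).card := by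
  obtain ⟨m₀, hm₀⟩ := GG_nonempty
  refine ⟨m₀ + 24, by omega, ?_⟩
  intro s hs
  obtain ⟨N, hN⟩ := hm₀ (s.1 + 1) (by omega)
  have h1 := dist_low (m := s.1 + 1) (by omega) (s := s) (by omega) (by omega) hN (Q := PP s) (fun q hq _ => hq)
  have h2 := pow_half (j := s.1) (m := s.1 + 1) (by omega) (by omega)
  rw [div_le_iff₀ (by positivity)] at h1
  have h3 : 2 ^ s.1 ≤ (PP s).card * ((s.1 + 1) * ((s.1 + 1) + 1)) := by exact_mod_cast h1
  have h4 : 2 ^ (s.1 / 2) * ((s.1 + 1) * (s.1 + 1 + 1)) ≤ (PP s).card * ((s.1 + 1) * ((s.1 + 1) + 1)) := by omega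
  exact Nat.le_of_mul_le_mul_right h4 (by positivity)

open Classical in
/-- the set and the exceptional numbers -/
lemma thin : ∃ c : ℝ, 0 < c ∧ ∃ C : ℝ, 0 < C ∧ ∃ X₀ : ℕ → ℕ, ∀ k : ℕ → ℕ, Monotone k → (∀ j, k j ≤ 2 ^ (j / 2)) →
    ∃ Q : Set ℕ, (∀ q ∈ Q, q.Prime ∧ q ≠ 2) ∧
      (∀ j, {q | q ∈ Q ∧ 2 ^ j < q ∧ q ≤ 2 ^ (j + 1)}.ncard ≤ k j) ∧
      ∀ A X : ℕ, X₀ A ≤ X →
      (((Ioc X (2 * X)).filter (fun N => 2 ∣ N ∧ (reps Q N : ℝ) ≤ c * k (Nat.log 2 X / 2))).card : ℝ) ≤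
        C * X * (Real.exp (-c * k (Nat.log 2 X / 2)) + 1 / Real.log X ^ A) := by
  obtain ⟨m₂, hup⟩ : ∃ m₂ : ℕ, ∀ m, m₂ ≤ m → ∀ q, ∀ V ⊆ GG m, (∀ N ∈ V, hit N q) → (V.card : ℝ) ≤ 8 / m * 2 ^ m := hit_up
  obtain ⟨j₀, hj₀1, hPP⟩ := PP_low
  obtain ⟨m₀, hpar⟩ := param (1 / 64) 512 (by norm_num) (by norm_num)
  have hall := Pool.Agent.H561.C4.allA (1 / 2) (1 / 8) (by norm_num) (by norm_num) 1
  choose X₁ hX₁ using hall
  obtain ⟨mm, hmm⟩ : ∃ mm, mm = max m₀ (max 48 m₂) + 2 * j₀ := ⟨_, rfl⟩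
  refine ⟨1 / 64 / 800, by norm_num, 100, by norm_num, fun A => 2 ^ (mm + 1) + X₁ A, ?_⟩
  intro k hk hk2
  obtain ⟨k', hk'⟩ : ∃ k' : ℕ → ℕ, k' = fun j => if j < j₀ then 0 else k j := ⟨_, rfl⟩
  have hk'le : ∀ j, k' j ≤ k j := by
    intro j
    rw [hk']
    dsimp only
    split_ifs
    · exact Nat.zero_le _
    · exact le_rfl
  have hk'2 : ∀ j, k' j ≤ 2 ^ (j / 2) := fun j => (hk'le j).trans (hk2 j)
  have hk'z : ∀ j, k' j ≠ 0 → j₀ ≤ j := by
    intro j hj
    by_contra hcon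
    apply hj
    rw [hk']
    dsimp only
    rw [if_pos (by omega)]
  have hk'e : ∀ j, j₀ ≤ j → k' j = k j := by
    intro j hj
    rw [hk']
    dsimp only
    rw [if_neg (by omega)]
  obtain ⟨g, hg1, hg0, hg2⟩ := hpar hit k' (fun m => (m + 1) / 2) (fun m => m) PP (by
      intro s s' hs
      rw [disjoint_left]
      intro q hq hq'
      unfold PP at hq hq'
      rw [mem_filter, mem_Ioc] at hq hq'
      rcases Nat.lt_or_gt_of_ne hs with h | h
      · have : 2 ^ (s.1 + 1) ≤ 2 ^ s'.1 := Nat.pow_le_pow_right (by norm_num) h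
        omega
      · have : 2 ^ (s'.1 + 1) ≤ 2 ^ s.1 := Nat.pow_le_pow_right (by norm_num) h
        omega) (by
      intro s hs
      exact (hk'2 s.1).trans (hPP s (hk'z s.1 (by omega)))) (fun m => (2 : ℝ) ^ m) GG (fun m => (1 / 64 : ℝ) / m)
    (max 48 m₂) (by
      intro m hm
      have h48 : 48 ≤ m := (le_max_left _ _).trans hm
      have hm0 : (0 : ℝ) < m := by exact_mod_cast (by omega : 0 < m)
      refine ⟨le_rfl, by positivity, ?_⟩
      rw [div_mul_cancel₀ _ hm0.ne']) (fun m _ => ⟨by positivity, GG_card m⟩)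
    (fun m hm => hit_low hk'2 m ((le_max_left _ _).trans hm)) (by
      intro m hm q V hV hVq
      have := hup m ((le_max_right _ _).trans hm) q V hV hVq
      refine this.trans (le_of_eq ?_)
      ring)
  refine ⟨{q | ∃ s : ℕ × ℕ, s.2 < k' s.1 ∧ q = g s}, ?_, ?_, ?_⟩
  · rintro q ⟨s, hs, rfl⟩
    have h1 := hg1 s hs
    have h2 := hk'z s.1 (by omega)
    unfold PP at h1
    rw [mem_filter, mem_Ioc] at h1
    refine ⟨h1.2, ?_⟩
    have : 2 ^ 1 ≤ 2 ^ s.1 := Nat.pow_le_pow_right (by norm_num) (by omega)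
    omega
  · intro j
    have h1 : {q | q ∈ {q | ∃ s : ℕ × ℕ, s.2 < k' s.1 ∧ q = g s} ∧ 2 ^ j < q ∧ q ≤ 2 ^ (j + 1)} ⊆
        (((range (k' j)).image (fun a => g (j, a)) : Finset ℕ) : Set ℕ) := by
      rintro q ⟨⟨s, hs, rfl⟩, hq1, hq2⟩
      have h2 := hg1 s hs
      unfold PP at h2
      rw [mem_filter, mem_Ioc] at h2
      have h3 : s.1 = j := by
        rcases Nat.lt_trichotomy s.1 j with h | h | h
        · have : 2 ^ (s.1 + 1) ≤ 2 ^ j := Nat.pow_le_pow_right (by norm_num) h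
          omega
        · exact h
        · have : 2 ^ (j + 1) ≤ 2 ^ s.1 := Nat.pow_le_pow_right (by norm_num) h
          omega
      rw [mem_coe, mem_image]
      refine ⟨s.2, ?_, ?_⟩
      · rw [mem_range, ← h3]
        exact hs
      · rw [← h3]
    refine (Set.ncard_le_ncard h1 (finite_toSet _)).trans ?_
    rw [Set.ncard_coe_finset]
    refine card_image_le.trans ?_
    rw [card_range]
    exact hk'le j
  intro A X hX
  obtain ⟨Q, hQ⟩ : ∃ Q : Set ℕ, Q = {q | ∃ s : ℕ × ℕ, s.2 < k' s.1 ∧ q = g s} := ⟨_, rfl⟩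
  rw [← hQ]
  have hX' : 2 ^ (mm + 1) + X₁ A ≤ X := hX
  have hX1 : 2 ^ (mm + 1) ≤ X := by omega
  have hX2 : X₁ A ≤ X := (Nat.le_add_left _ _).trans hX'
  have hX0 : X ≠ 0 := by
    have : 0 < 2 ^ (mm + 1) := by positivity
    omega
  obtain ⟨M, hM⟩ : ∃ M, M = Nat.log 2 X := ⟨_, rfl⟩
  have hM1 : 2 ^ M ≤ X := by rw [hM]; exact Nat.pow_log_le_self 2 hX0
  have hM2 : X < 2 ^ (M + 1) := by rw [hM]; exact Nat.lt_pow_succ_log_self (by norm_num) X
  have hMm : mm ≤ M := by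
    have h1 : 2 ^ (mm + 1) < 2 ^ (M + 1) := lt_of_le_of_lt hX1 hM2
    have := (Nat.pow_lt_pow_iff_right (by norm_num)).1 h1
    omega
  have hXr : (0 : ℝ) < X := by exact_mod_cast Nat.pos_of_ne_zero hX0
  have h2M : ((2 : ℝ) ^ M) ≤ X := by exact_mod_cast hM1
  obtain ⟨E, hE⟩ : ∃ E, E = Real.exp (-(1 / 64 / 800 : ℝ) * k (M / 2)) := ⟨_, rfl⟩
  have hE0 : 0 < E := by rw [hE]; exact Real.exp_pos _
  rw [← hM, ← hE]
  obtain ⟨V, hV⟩ : ∃ V, V = (Ioc X (2 * X)).filter (fun N => 2 ∣ N ∧ (reps Q N : ℝ) ≤ 1 / 64 / 800 * k (M / 2)) := ⟨_, rfl⟩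
  rw [← hV]
  -- the part of one scale
  have hscale : ∀ m, M ≤ m → m ≤ M + 1 →
      (((V.filter (fun N => N ∈ GG m)).card : ℕ) : ℝ) ≤ 24 * X * E := by
    intro m hm1 hm2
    have hm48 : 48 ≤ m := by
      have : 48 ≤ max m₀ (max 48 m₂) := (le_max_left _ _).trans (le_max_right _ _)
      omega
    have hm0 : (0 : ℝ) < m := by exact_mod_cast (by omega : 0 < m)
    have h1 := hg2 m (by omega) ((m / 4 : ℝ) * k (M / 2)) (by positivity) (by
      have h2 := steps_card (k := k') (by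
        intro a b hab
        by_cases ha : k' a = 0
        · rw [ha]; exact Nat.zero_le _
        · have h3 := hk'z a ha
          rw [hk'e a h3, hk'e b (by omega)]
          exact hk hab) ((m + 1) / 2) m
      have h3 : k (M / 2) ≤ k' ((m + 1) / 2) := by
        rw [hk'e _ (by omega)]
        exact hk (by omega)
      have h4 : (m : ℝ) / 4 ≤ ((m - (m + 1) / 2 : ℕ) : ℝ) := by
        rw [div_le_iff₀ (by norm_num)]
        exact_mod_cast (by omega : m ≤ (m - (m + 1) / 2) * 4)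
      have h5 : (((m - (m + 1) / 2) * k' ((m + 1) / 2) : ℕ) : ℝ) ≤ ((steps k' ((m + 1) / 2) m).card : ℝ) := by
        exact_mod_cast h2
      refine le_trans ?_ h5
      push_cast
      have h6 : (k (M / 2) : ℝ) ≤ k' ((m + 1) / 2) := by exact_mod_cast h3
      exact mul_le_mul h4 h6 (by positivity) (by positivity)) (V.filter (fun N => N ∈ GG m)) (by
      intro N hN
      exact (mem_filter.1 hN).2) (by
      intro N hN B hB hBh
      rw [mem_filter, hV, mem_filter] at hN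
      have h2 : (B.image g : Finset ℕ).card = B.card := by
        apply card_image_of_injOn
        intro s hs s' hs' he
        exact hg0 s s' (mem_steps.1 (hB hs)).2 (mem_steps.1 (hB hs')).2 he
      have h3 : ((B.image g : Finset ℕ) : Set ℕ) ⊆ {q | q ∈ Q ∧ q < N ∧ (N - q).Prime ∧ q ≠ N - q} := by
        intro q hq
        rw [mem_coe, mem_image] at hq
        obtain ⟨s, hs, rfl⟩ := hq
        have h4 := hBh s hs
        have h5 := h4.1.two_le
        refine ⟨?_, by omega, h4.1, h4.2⟩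
        rw [hQ]
        exact ⟨s, (mem_steps.1 (hB hs)).2, rfl⟩
      have h4 : B.card ≤ reps Q N := by
        rw [← h2, ← Set.ncard_coe_finset]
        unfold reps
        exact Set.ncard_le_ncard h3 ((Set.finite_lt_nat N).subset (fun q hq => hq.2.1))
      have h5 : (B.card : ℝ) ≤ reps Q N := by exact_mod_cast h4
      refine h5.trans (hN.1.2.2.trans (le_of_eq ?_))
      field_simp
      ring)
    refine h1.trans ?_
    have h2 : (2 : ℝ) ^ m ≤ 2 * X := by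
      calc (2 : ℝ) ^ m ≤ 2 ^ (M + 1) := pow_le_pow_right₀ (by norm_num) hm2
        _ = 2 * 2 ^ M := by rw [pow_succ]; ring
        _ ≤ 2 * X := by linarith
    have h3 : Real.exp (-((1 / 64 : ℝ) / m * (m / 4 * k (M / 2))) / 100) ≤ E := by
      rw [hE]
      apply Real.exp_le_exp.2
      have e1 : (1 / 64 : ℝ) / m * (m / 4 * k (M / 2)) = 1 / 64 / 4 * k (M / 2) := by
        field_simp
      rw [e1]
      have : (0 : ℝ) ≤ k (M / 2) := Nat.cast_nonneg _
      linarith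
    calc 12 * (2 : ℝ) ^ m * Real.exp (-((1 / 64 : ℝ) / m * (m / 4 * k (M / 2))) / 100) ≤ 12 * (2 * X) * E := by
          apply mul_le_mul _ h3 (Real.exp_pos _).le (by positivity)
          linarith
      _ = _ := by ring
  -- the exceptional numbers
  have hexc : (((V.filter (fun N => ¬ HoldsA (1 / 2) (1 / 8) 1 N)).card : ℕ) : ℝ) ≤ 2 * X / Real.log X ^ A := by
    have h1 := hX₁ A (2 * X) (by omega)
    have h2 : V.filter (fun N => ¬ HoldsA (1 / 2) (1 / 8) 1 N) ⊆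
        (Icc 1 (2 * X)).filter (fun N : ℕ => 2 ∣ N ∧ ¬ HoldsA (1 / 2) (1 / 8) 1 N) := by
      intro N hN
      rw [mem_filter, hV, mem_filter, mem_Ioc] at hN
      rw [mem_filter, mem_Icc]
      exact ⟨⟨by omega, hN.1.1.2⟩, hN.1.2.1, hN.2⟩
    refine (Nat.cast_le.2 (card_le_card h2)).trans (h1.trans ?_)
    have hX2r : (2 : ℝ) ≤ X := by
      have : 2 ^ 1 ≤ 2 ^ (mm + 1) := Nat.pow_le_pow_right (by norm_num) (by omega)
      have : 2 ≤ X := by omega
      exact_mod_cast this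
    have hlog : 0 < Real.log (X : ℝ) := Real.log_pos (by linarith)
    push_cast
    apply div_le_div_of_nonneg_left (by positivity) (by positivity)
    apply pow_le_pow_left₀ hlog.le
    exact Real.log_le_log hXr (by linarith)
  have hcov : V ⊆ (V.filter (fun N => N ∈ GG M) ∪ V.filter (fun N => N ∈ GG (M + 1))) ∪
      V.filter (fun N => ¬ HoldsA (1 / 2) (1 / 8) 1 N) := by
    intro N hN
    have h3 := hN
    rw [hV, mem_filter, mem_Ioc] at h3
    rw [mem_union, mem_union, mem_filter, mem_filter, mem_filter]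
    by_cases hH : HoldsA (1 / 2) (1 / 8) 1 N
    · left
      by_cases hNM : N ≤ 2 ^ (M + 1)
      · left
        exact ⟨hN, mem_GG.2 ⟨⟨by omega, hNM⟩, h3.2.1, hH⟩⟩
      · right
        refine ⟨hN, mem_GG.2 ⟨⟨by omega, ?_⟩, h3.2.1, hH⟩⟩
        rw [pow_succ]
        omega
    · right
      exact ⟨hN, hH⟩
  have hcard := (card_le_card hcov).trans ((card_union_le _ _).trans (Nat.add_le_add_right (card_union_le _ _) _))
  have hcr : (V.card : ℝ) ≤ ((V.filter (fun N => N ∈ GG M)).card : ℝ) + (V.filter (fun N => N ∈ GG (M + 1))).card +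
      (V.filter (fun N => ¬ HoldsA (1 / 2) (1 / 8) 1 N)).card := by exact_mod_cast hcard
  have s1 := hscale M le_rfl (by omega)
  have s2 := hscale (M + 1) (by omega) le_rfl
  have hlA : 0 ≤ X / Real.log (X : ℝ) ^ A := by
    apply div_nonneg hXr.le
    apply pow_nonneg
    apply Real.log_nonneg
    exact_mod_cast Nat.pos_of_ne_zero hX0
  calc (V.card : ℝ) ≤ 24 * X * E + 24 * X * E + 2 * X / Real.log X ^ A := by linarith
    _ = 48 * (X * E) + 2 * (X / Real.log X ^ A) := by ring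
    _ ≤ 100 * (X * E) + 100 * (X / Real.log X ^ A) := by
        have : 0 ≤ X * E := by positivity
        linarith
    _ = 100 * X * (E + 1 / Real.log X ^ A) := by ring

end Pool.Agent.H563.TG
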