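import Pool.Agent.H563.TG.Sel

/-!
# Infinitely many scales
-/

set_option autoImplicit false

namespace Pool.Agent.H563.TG

open Finset Filter

lemma Sw_sub {σ : Type} [DecidableEq σ] {hit : ℕ → ℕ → Prop} {G : Finset ℕ} {act T : Finset σ} (h : act ⊆ T)
    (f : σ → ℕ) : Sw hit G act T f = Sw hit G act act f := by
  classical
  unfold Sw hits
  rw [inter_eq_right.2 h, inter_self]

/-- the choice at all scales simultaneously -/
lemma sel_inf {hit : ℕ → ℕ → Prop} (k : ℕ → ℕ) (P : ℕ × ℕ → Finset ℕ) (hP1 : ∀ s s' : ℕ × ℕ, s.1 ≠ s'.1 → Disjoint (P s) (P s'))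
    (hP2 : ∀ s : ℕ × ℕ, s.2 < k s.1 → k s.1 ≤ (P s).card) (m₀ : ℕ) (hm₀ : 2 ≤ m₀)
    (x : ℕ → Sc (ℕ × ℕ)) (hx : ∀ m, m₀ ≤ m → (x m).OK hit P (fun s => k s.1) m)
    (hact : ∀ m, m₀ ≤ m → ∀ s ∈ (x m).act, s.1 < m ∧ s.2 < k s.1) :
    ∃ g : ℕ × ℕ → ℕ, (∀ s, s.2 < k s.1 → g s ∈ P s) ∧ (∀ s s', s.2 < k s.1 → s'.2 < k s'.1 → g s = g s' → s = s') ∧
      ∀ m, m₀ ≤ m → Sw hit (x m).G (x m).act (x m).act g ≤ (if (x m).b then 4 else (m : ℝ) ^ 2) * (x m).W *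
        (1 - (x m).ρ) ^ (x m).act.card := by
  classical
  have h1 : ∀ M : ℕ, ∃ f : ℕ × ℕ → ℕ, (∀ s, s.1 < M → s.2 < k s.1 → f s ∈ P s) ∧
      (∀ s s', s.1 < M → s'.1 < M → s.2 < k s.1 → s'.2 < k s'.1 → f s = f s' → s = s') ∧ ∀ m ∈ Icc m₀ M,
      Sw hit (x m).G (x m).act (x m).act f ≤ (if (x m).b then 4 else (m : ℝ) ^ 2) * (x m).W *
        (1 - (x m).ρ) ^ (x m).act.card := by
    intro M
    obtain ⟨Tf, hTf⟩ : ∃ Tf : Finset (ℕ × ℕ), ∀ s, s ∈ Tf ↔ s.1 < M ∧ s.2 < k s.1 := by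
      refine ⟨(range M).biUnion (fun j => (range (k j)).image (fun a => (j, a))), ?_⟩
      intro s
      rw [mem_biUnion]
      constructor
      · rintro ⟨j, hj, h⟩
        obtain ⟨a, ha, rfl⟩ := mem_image.1 h
        exact ⟨mem_range.1 hj, mem_range.1 ha⟩
      · rintro ⟨h1, h2⟩
        exact ⟨s.1, mem_range.2 h1, mem_image.2 ⟨s.2, mem_range.2 h2, rfl⟩⟩
    obtain ⟨f, hf1, hf0, hf2⟩ := sel (hit := hit) (P := P) (β := fun s => k s.1) Tf (by
      intro s hs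
      have hs2 := ((hTf s).1 hs).2
      have h3 := hP2 s hs2
      refine ⟨?_, h3, by omega⟩
      have h4 : Tf.filter (fun s' => ¬ Disjoint (P s') (P s)) ⊆ (range (k s.1)).image (fun a => (s.1, a)) := by
        intro s' hs'
        rw [mem_filter] at hs'
        have h5 : s'.1 = s.1 := by
          by_contra hcon
          exact hs'.2 (hP1 s' s hcon)
        have h6 := ((hTf s').1 hs'.1).2
        rw [mem_image]
        refine ⟨s'.2, ?_, ?_⟩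
        · rw [mem_range, ← h5]
          exact h6
        · rw [← h5]
      refine (card_le_card h4).trans (card_image_le.trans ?_)
      rw [card_range]) m₀ M hm₀ x (fun m hm => hx m (mem_Icc.1 hm).1)
    refine ⟨f, fun s hs1 hs2 => hf1 s ((hTf s).2 ⟨hs1, hs2⟩), ?_, ?_⟩
    · intro s s' h1 h2 h3 h4 h5
      exact hf0 s ((hTf s).2 ⟨h1, h3⟩) s' ((hTf s').2 ⟨h2, h4⟩) h5
    intro m hm
    have hsub : (x m).act ⊆ Tf := by
      intro s hs
      obtain ⟨a1, a2⟩ := hact m (mem_Icc.1 hm).1 s hs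
      exact (hTf s).2 ⟨lt_of_lt_of_le a1 (mem_Icc.1 hm).2, a2⟩
    have := hf2 m hm
    rwa [Sw_sub hsub, inter_eq_right.2 hsub] at this
  choose f hf1 hf0 hf2 using h1
  obtain ⟨U, hU⟩ : ∃ U : Ultrafilter ℕ, U = hyperfilter ℕ := ⟨_, rfl⟩
  have hUt : (U : Filter ℕ) ≤ atTop := by
    rw [hU]
    exact Nat.hyperfilter_le_atTop
  have h2 : ∀ s : ℕ × ℕ, ∃ q : ℕ, s.2 < k s.1 → q ∈ P s ∧ ∀ᶠ M in (U : Filter ℕ), f M s = q := by
    intro s
    by_cases hs : s.2 < k s.1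
    · have h3 : ∀ᶠ M in (U : Filter ℕ), ∃ q ∈ ((P s : Finset ℕ) : Set ℕ), f M s = q := by
        have h4 : ∀ᶠ M in (U : Filter ℕ), s.1 < M := hUt (eventually_gt_atTop s.1)
        refine h4.mono fun M hM => ?_
        exact ⟨f M s, mem_coe.2 (hf1 M s hM hs), rfl⟩
      rw [Ultrafilter.eventually_exists_mem_iff (Finset.finite_toSet _)] at h3
      obtain ⟨q, hq, hq2⟩ := h3
      exact ⟨q, fun _ => ⟨mem_coe.1 hq, hq2⟩⟩
    · exact ⟨0, fun h => absurd h hs⟩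
  choose g hg using h2
  refine ⟨g, fun s hs => (hg s hs).1, ?_, ?_⟩
  · intro s s' hs hs' he
    have h4 : ∀ᶠ M in (U : Filter ℕ), s.1 < M := hUt (eventually_gt_atTop s.1)
    have h5 : ∀ᶠ M in (U : Filter ℕ), s'.1 < M := hUt (eventually_gt_atTop s'.1)
    obtain ⟨M, ⟨⟨⟨a1, a2⟩, a3⟩, a4⟩⟩ := (((h4.and h5).and (hg s hs).2).and (hg s' hs').2).exists
    exact hf0 M s s' a1 a2 hs hs' (by rw [a3, a4, he])
  intro m hm
  have h5 : ∀ᶠ M in (U : Filter ℕ), (∀ s ∈ (x m).act, f M s = g s) ∧ m ≤ M := by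
    apply Eventually.and
    · rw [Filter.eventually_all_finset]
      intro s hs
      exact (hg s (hact m hm s hs).2).2
    · exact hUt (eventually_ge_atTop m)
  obtain ⟨M, hM1, hM2⟩ := h5.exists
  have h6 := hf2 M m (mem_Icc.2 ⟨hm, hM2⟩)
  have h7 : Sw hit (x m).G (x m).act (x m).act (f M) = Sw hit (x m).G (x m).act (x m).act g := by
    unfold Sw
    apply sum_congr rfl
    intro N _
    rw [hits_congr (fun s _ hs => hM1 s hs)]
  rwa [h7] at h6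

end Pool.Agent.H563.TG
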