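import Pool.Agent.H563.PL.Low
import Pool.Agent.H563.PL.Gen

/-!
# The sharp lower bound for the sieve product
-/

set_option autoImplicit false

namespace Pool.Agent.H563.TG

open Finset
open Pool.Agent.Y843.HS (Pr VV)
open Pool.Agent.K4H8.DP
open Pool.Agent.H563.PL (Good fac_low)

lemma sq_prod (y : ℕ) : 1 / 2 ≤ ∏ p ∈ (Ioc 0 y).filter Nat.Prime, (1 - 1 / (p : ℝ) ^ 2) := by
  classical
  have h1 : ∀ y : ℕ, 1 ≤ y → ∏ l ∈ Ioc 1 y, (1 - 1 / (l : ℝ) ^ 2) = ((y : ℝ) + 1) / (2 * y) := by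
    intro y hy
    induction y, hy using Nat.le_induction with
    | base => norm_num
    | succ n hn ih =>
      rw [← Finset.insert_Ioc_right_eq_Ioc_add_one (by omega), prod_insert (by simp), ih]
      have hn3 : (1 : ℝ) ≤ n := by exact_mod_cast hn
      have hn0 : (n : ℝ) ≠ 0 := by linarith
      have hn1 : (n : ℝ) + 1 ≠ 0 := by linarith
      push_cast
      field_simp
      ring
  rcases Nat.eq_zero_or_pos y with h0 | h0
  · rw [h0]
    norm_num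
  have h2 : (1 : ℝ) / 2 ≤ ∏ l ∈ Ioc 1 y, (1 - 1 / (l : ℝ) ^ 2) := by
    rw [h1 y h0]
    have : (0 : ℝ) < y := by exact_mod_cast h0
    rw [div_le_div_iff₀ (by norm_num) (by positivity)]
    linarith
  refine h2.trans ?_
  have hf0 : ∀ l ∈ Ioc 1 y, (0 : ℝ) ≤ 1 - 1 / (l : ℝ) ^ 2 ∧ 1 - 1 / (l : ℝ) ^ 2 ≤ 1 := by
    intro l hl
    rw [mem_Ioc] at hl
    have hl2 : (2 : ℝ) ≤ l := by exact_mod_cast hl.1
    have : 1 / (l : ℝ) ^ 2 ≤ 1 := by
      rw [div_le_one (by positivity)]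
      nlinarith
    have : 0 ≤ 1 / (l : ℝ) ^ 2 := by positivity
    constructor <;> linarith
  have he : (Ioc 0 y).filter Nat.Prime = (Ioc 1 y).filter Nat.Prime := by
    ext p
    rw [mem_filter, mem_filter, mem_Ioc, mem_Ioc]
    constructor
    · rintro ⟨h, hp⟩
      exact ⟨⟨hp.one_lt, h.2⟩, hp⟩
    · rintro ⟨h, hp⟩
      exact ⟨⟨by omega, h.2⟩, hp⟩
  rw [he, ← prod_filter_mul_prod_filter_not (Ioc 1 y) Nat.Prime]
  have h3 : ∏ l ∈ (Ioc 1 y).filter (fun l => ¬ Nat.Prime l), (1 - 1 / (l : ℝ) ^ 2) ≤ 1 :=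
    prod_le_one (fun l hl => (hf0 l (mem_filter.1 hl).1).1) (fun l hl => (hf0 l (mem_filter.1 hl).1).2)
  have h4 : 0 ≤ ∏ l ∈ (Ioc 1 y).filter Nat.Prime, (1 - 1 / (l : ℝ) ^ 2) :=
    prod_nonneg (fun l hl => (hf0 l (mem_filter.1 hl).1).1)
  calc _ ≤ (∏ l ∈ (Ioc 1 y).filter Nat.Prime, (1 - 1 / (l : ℝ) ^ 2)) * 1 := mul_le_mul_of_nonneg_left h3 h4
    _ = _ := mul_one _

lemma fac_sharp {D : ℕ} {Z : ℕ → Finset ℕ} (hZ : Good D Z) {p : ℕ} (hp : p.Prime) :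
    (if p ≤ 2 * D ^ 2 then 1 / ((D : ℝ) + 1) else 1) * (1 - 1 / (p : ℝ) ^ 2) ^ (2 * D ^ 2) * (1 - 1 / (p : ℝ)) ^ D ≤
      1 - ((Z p).card : ℝ) / p := by
  have hp0 : (0 : ℝ) < p := by exact_mod_cast hp.pos
  have hp2 : (2 : ℝ) ≤ p := by exact_mod_cast hp.two_le
  obtain ⟨x, hx⟩ : ∃ x, x = 1 / (p : ℝ) := ⟨_, rfl⟩
  have hxp : 0 < x := by rw [hx]; positivity
  have hx1 : x ≤ 1 := by rw [hx, div_le_one hp0]; linarith
  have hx2 : 1 / (p : ℝ) ^ 2 = x ^ 2 := by rw [hx]; ring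
  rw [hx2, ← hx]
  have g1 : 0 ≤ 1 - x := by linarith
  have g2 : 1 - x ≤ 1 := by linarith
  have g3 : 0 ≤ 1 - x ^ 2 := by nlinarith
  have g4 : 1 - x ^ 2 ≤ 1 := by nlinarith
  split_ifs with h
  · refine le_trans ?_ (fac_low hZ hp)
    have h1 : (1 - x ^ 2) ^ (2 * D ^ 2) ≤ 1 := pow_le_one₀ g3 g4
    have h2 : (1 - x) ^ D ≤ 1 := pow_le_one₀ g1 g2
    have h3 : 0 ≤ (1 - x) ^ D := pow_nonneg g1 D
    have h4 : 0 ≤ (1 - x ^ 2) ^ (2 * D ^ 2) := pow_nonneg g3 _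
    calc 1 / ((D : ℝ) + 1) * (1 - x ^ 2) ^ (2 * D ^ 2) * (1 - x) ^ D ≤ 1 / ((D : ℝ) + 1) * 1 * 1 := by gcongr
      _ = _ := by ring
  · push Not at h
    have h1 : ((Z p).card : ℝ) ≤ D := by exact_mod_cast (hZ p hp).1
    have hD : (0 : ℝ) ≤ D := Nat.cast_nonneg D
    have hDx : 2 * (D : ℝ) ^ 2 * x < 1 := by
      rw [hx, mul_one_div, div_lt_one hp0]
      exact_mod_cast h
    have hDx2 : (D : ℝ) * x ≤ 1 := by
      rcases Nat.eq_zero_or_pos D with h0 | h0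
      · rw [h0]; simp
      · have : (1 : ℝ) ≤ D := by exact_mod_cast h0
        nlinarith
    have h2 : ((Z p).card : ℝ) / p ≤ D * x := by
      rw [hx, mul_one_div]
      exact div_le_div_of_nonneg_right h1 hp0.le
    have h3 : (1 - x ^ 2) ^ (2 * D ^ 2) ≤ 1 - D ^ 2 * x ^ 2 := by
      have b1 : 1 + ((2 * D ^ 2 : ℕ) : ℝ) * x ^ 2 ≤ (1 + x ^ 2) ^ (2 * D ^ 2) :=
        one_add_mul_le_pow (by nlinarith) (2 * D ^ 2)
      push_cast at b1
      have b2 : (1 - x ^ 2) ^ (2 * D ^ 2) * (1 + 2 * D ^ 2 * x ^ 2) ≤ 1 := by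
        calc (1 - x ^ 2) ^ (2 * D ^ 2) * (1 + 2 * D ^ 2 * x ^ 2) ≤ (1 - x ^ 2) ^ (2 * D ^ 2) * (1 + x ^ 2) ^ (2 * D ^ 2) :=
              mul_le_mul_of_nonneg_left b1 (pow_nonneg g3 _)
          _ = ((1 - x ^ 2) * (1 + x ^ 2)) ^ (2 * D ^ 2) := (mul_pow _ _ _).symm
          _ ≤ 1 := by
              apply pow_le_one₀
              · nlinarith
              · nlinarith
      have b3 : 2 * (D : ℝ) ^ 2 * x ^ 2 ≤ 1 := by nlinarith
      have b4 : 1 ≤ (1 - (D : ℝ) ^ 2 * x ^ 2) * (1 + 2 * D ^ 2 * x ^ 2) := by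
        have : 0 ≤ (D : ℝ) ^ 2 * x ^ 2 := by positivity
        nlinarith
      have b5 : 0 < 1 + 2 * (D : ℝ) ^ 2 * x ^ 2 := by positivity
      by_contra hcon
      push Not at hcon
      nlinarith
    have h4 : (1 - x) ^ D * (1 + D * x) ≤ 1 := by
      have b1 : 1 + (D : ℝ) * x ≤ (1 + x) ^ D := one_add_mul_le_pow (by linarith) D
      calc (1 - x) ^ D * (1 + D * x) ≤ (1 - x) ^ D * (1 + x) ^ D := mul_le_mul_of_nonneg_left b1 (pow_nonneg g1 D)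
        _ = ((1 - x) * (1 + x)) ^ D := (mul_pow _ _ _).symm
        _ ≤ 1 := by
            apply pow_le_one₀
            · nlinarith
            · nlinarith
    have h5 : 0 ≤ (1 - x) ^ D := pow_nonneg g1 D
    calc 1 * (1 - x ^ 2) ^ (2 * D ^ 2) * (1 - x) ^ D ≤ (1 - D ^ 2 * x ^ 2) * (1 - x) ^ D := by
          rw [one_mul]
          exact mul_le_mul_of_nonneg_right h3 h5
      _ = (1 - D * x) * ((1 - x) ^ D * (1 + D * x)) := by ring
      _ ≤ (1 - D * x) * 1 := mul_le_mul_of_nonneg_left h4 (by linarith)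
      _ ≤ 1 - ((Z p).card : ℝ) / p := by linarith

/-- the lower bound for the sieve product, with the right exponent -/
lemma logsJ (D : ℕ) : ∃ w : ℝ, 0 < w ∧ ∀ Z : ℕ → Finset ℕ, Good D Z → ∀ N : ℕ, 2 ≤ N →
    w / Real.log N ^ D ≤ VV Z 0 N := by
  classical
  obtain ⟨a₀, b₀, ha₀, hb₀, hM⟩ := Pool.Agent.Results.MP_7b7e48_nt.DeletedPrimes.mert_ex
  refine ⟨(1 / ((D : ℝ) + 1)) ^ (2 * D ^ 2) * (1 / 2) ^ (2 * D ^ 2) * (1 / b₀) ^ D, by positivity, fun Z hZ N hN => ?_⟩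
  have h1 := (hM N hN).2
  have hl : 0 < Real.log N := Real.log_pos (by exact_mod_cast (by omega : 1 < N))
  have h2 : (1 / ((D : ℝ) + 1)) ^ (2 * D ^ 2) * (1 / 2) ^ (2 * D ^ 2) * (W1 N)⁻¹ ^ D ≤ VV Z 0 N := by
    unfold VV
    rw [Pr_eq]
    have hq : ∀ p ∈ (Ioc 0 N).filter Nat.Prime, 0 ≤ 1 - 1 / (p : ℝ) := by
      intro p hp
      have hp2 : (1 : ℝ) ≤ p := by exact_mod_cast (mem_filter.1 hp).2.one_le
      have : 1 / (p : ℝ) ≤ 1 := by rw [div_le_one (by linarith)]; exact hp2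
      linarith
    have hq2 : ∀ p ∈ (Ioc 0 N).filter Nat.Prime, 0 ≤ 1 - 1 / (p : ℝ) ^ 2 := by
      intro p hp
      have hp2 : (1 : ℝ) ≤ p := by exact_mod_cast (mem_filter.1 hp).2.one_le
      have : 1 / (p : ℝ) ^ 2 ≤ 1 := by rw [div_le_one (by positivity)]; nlinarith
      linarith
    have g1 : ∏ p ∈ (Ioc 0 N).filter Nat.Prime, ((if p ≤ 2 * D ^ 2 then 1 / ((D : ℝ) + 1) else 1) *
        (1 - 1 / (p : ℝ) ^ 2) ^ (2 * D ^ 2) * (1 - 1 / (p : ℝ)) ^ D) ≤ ∏ p ∈ (Ioc 0 N).filter Nat.Prime, (1 - ((Z p).card : ℝ) / p) := by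
      apply prod_le_prod
      · intro p hp
        apply mul_nonneg (mul_nonneg _ (pow_nonneg (hq2 p hp) _)) (pow_nonneg (hq p hp) _)
        split_ifs <;> positivity
      · intro p hp
        exact fac_sharp hZ (mem_filter.1 hp).2
    refine le_trans ?_ g1
    rw [prod_mul_distrib, prod_mul_distrib, prod_pow, prod_pow, W1_prod]
    have hW : 0 ≤ (W1 N)⁻¹ ^ D := pow_nonneg (inv_pos.2 (W1_pos N)).le D
    apply mul_le_mul_of_nonneg_right _ hW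
    apply mul_le_mul _ (pow_le_pow_left₀ (by norm_num) (sq_prod N) _) (by positivity)
    · apply prod_nonneg
      intro p _
      split_ifs <;> positivity
    · rw [← prod_filter, prod_const]
      have hDle : 1 / ((D : ℝ) + 1) ≤ 1 := by
        rw [div_le_one (by positivity)]
        have : (0 : ℝ) ≤ D := Nat.cast_nonneg D
        linarith
      apply pow_le_pow_of_le_one (by positivity) hDle
      calc (((Ioc 0 N).filter Nat.Prime).filter (fun p => p ≤ 2 * D ^ 2)).card ≤ (Ioc 0 (2 * D ^ 2)).card := by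
            apply card_le_card
            intro p hp
            rw [mem_filter, mem_filter, mem_Ioc] at hp
            rw [mem_Ioc]
            exact ⟨hp.1.1.1, hp.2⟩
        _ = 2 * D ^ 2 := by rw [Nat.card_Ioc, Nat.sub_zero]
  refine le_trans ?_ h2
  rw [mul_div_assoc]
  apply mul_le_mul_of_nonneg_left _ (by positivity)
  rw [← div_pow]
  apply pow_le_pow_left₀ (by positivity)
  have h3 : 1 / b₀ / Real.log N = (b₀ * Real.log N)⁻¹ := by field_simp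
  rw [h3]
  exact inv_anti₀ (W1_pos N) h1

end Pool.Agent.H563.TG
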