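import Pool.Agent.H563.TG.Uni
import Pool.Agent.H563.PL.Siv
import Pool.Graph.R_pool_sql_team_seeded_1acbe0a2.Results.MP_5b0a7e_nt.ThreePrimeFactors

/-!
# Thin universal sets of multipliers
-/

set_option autoImplicit false

namespace Pool.Agent.H563.TG

open Finset Filter
open Pool.Agent.Y843.HS (VV Pr)
open Pool.Agent.Y843.AC (OK Av)
open Pool.Agent.K4H8.DP (W1 W1_pos W1_prod Pr_eq)

/-- numbers in an interval without small prime factors -/
lemma roughI (κ : ℝ) (hκ : 0 < κ) : ∃ K : ℝ, 0 < K ∧ ∃ Y₀ : ℕ, 2 ≤ Y₀ ∧ ∀ Y A : ℕ, Y₀ ≤ Y → ∀ S ⊆ Ioc A (A + Y),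
    (∀ n ∈ S, ∀ l : ℕ, l.Prime → (l : ℝ) ≤ (Y : ℝ) ^ κ → ¬ l ∣ n) → (S.card : ℝ) ≤ K * (Y / Real.log Y) := by
  classical
  obtain ⟨C, hC, X₀, hS⟩ := Pool.Agent.H563.PL.sbD 1 κ hκ
  obtain ⟨a, b, ha, hb, hM⟩ := Pool.Agent.Results.MP_7b7e48_nt.DeletedPrimes.mert_ex
  obtain ⟨Y₁, hY₁, hr⟩ := Pool.Agent.H563.AG.root_k κ hκ
  obtain ⟨D, hD⟩ : ∃ D : ℝ, D = 2 / (a * κ) := ⟨_, rfl⟩
  have hD0 : 0 < D := by rw [hD]; positivity
  refine ⟨C * D, by positivity, max X₀ Y₁, hY₁.trans (le_max_right _ _), fun Y A hY S hSA hSr => ?_⟩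
  obtain ⟨r1, r2, r3⟩ := hr Y ((le_max_right _ _).trans hY)
  have hsieve := hS Y A ((le_max_left _ _).trans hY) (fun _ => {0}) (by
    intro p hp _
    refine ⟨by simp, by simpa using hp.one_lt, ?_⟩
    intro c hc
    rw [mem_singleton] at hc
    rw [hc]
    exact hp.pos) S hSA (by
    intro n hn l hl hlX hmem
    rw [mem_singleton] at hmem
    exact hSr n hn l hl hlX (Nat.dvd_of_mod_eq_zero hmem))
  obtain ⟨y, hy⟩ : ∃ y, y = ⌊(Y : ℝ) ^ κ⌋₊ := ⟨_, rfl⟩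
  rw [← hy] at r1 r2 hsieve
  have hY2 : 2 ≤ Y := hY₁.trans ((le_max_right _ _).trans hY)
  have hYr : (0 : ℝ) < Y := by exact_mod_cast (by omega : 0 < Y)
  obtain ⟨L, hL⟩ : ∃ L, L = Real.log (Y : ℝ) := ⟨_, rfl⟩
  rw [← hL] at r2 r3 ⊢
  have hL0 : 0 < L := by linarith
  have hWy : (W1 y)⁻¹ ≤ D / L := by
    have h1 := (hM y r1).1
    have h2 : a * (κ / 2 * L) ≤ W1 y := (mul_le_mul_of_nonneg_left r2 ha.le).trans h1
    have h3 : D / L = (a * (κ / 2 * L))⁻¹ := by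
      rw [hD]
      field_simp
    rw [h3]
    exact inv_anti₀ (by positivity) h2
  have hV : VV (fun _ => {0}) 0 y = (W1 y)⁻¹ := by
    unfold VV
    rw [← W1_prod, Pr_eq]
    apply prod_congr rfl
    intro p _
    simp
  rw [hV] at hsieve
  calc (S.card : ℝ) ≤ C * Y * (W1 y)⁻¹ := hsieve
    _ ≤ C * Y * (D / L) := mul_le_mul_of_nonneg_left hWy (by positivity)
    _ = C * D * (Y / L) := by ring

/-- the numbers with at most `r` prime factors, all larger than `n ^ (1 / (3 r + 1))` -/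
def AP (r : ℕ) : Set ℕ :=
  {n | n.primeFactorsList.length ≤ r ∧ ∀ p : ℕ, p.Prime → p ∣ n → (n : ℝ) ^ (1 / (3 * (r : ℝ) + 1)) < p}

/-- the pairs `q, b` with `4 ^ m ≤ 4 q < 4 ^ (m + 1)` -/
def GQ (m : ℕ) : Finset ℕ :=
  (((Ico (4 ^ (m - 1)) (4 ^ m)) ×ˢ (Icc 1 (4 ^ m))).filter (fun x => x.2 ≤ x.1 ∧ Nat.Coprime x.2 x.1)).image
    (fun x => Nat.pair x.1 x.2)

lemma mem_GQ {m q b : ℕ} : Nat.pair q b ∈ GQ m ↔ (4 ^ (m - 1) ≤ q ∧ q < 4 ^ m) ∧ 1 ≤ b ∧ b ≤ q ∧ Nat.Coprime b q := by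
  unfold GQ
  rw [mem_image]
  constructor
  · rintro ⟨x, hx, he⟩
    rw [mem_filter, mem_product, mem_Ico, mem_Icc] at hx
    rw [Nat.pair_eq_pair] at he
    obtain ⟨rfl, rfl⟩ := he
    exact ⟨hx.1.1, hx.1.2.1, hx.2.1, hx.2.2⟩
  · rintro ⟨h1, h2, h3, h4⟩
    refine ⟨(q, b), ?_, rfl⟩
    rw [mem_filter, mem_product, mem_Ico, mem_Icc]
    exact ⟨⟨h1, h2, h3.trans h1.2.le⟩, h3, h4⟩

lemma GQ_card (m : ℕ) : ((GQ m).card : ℝ) ≤ 16 ^ m := by
  have h1 : (GQ m).card ≤ 16 ^ m := by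
    unfold GQ
    refine card_image_le.trans ((card_filter_le _ _).trans ?_)
    rw [card_product, Nat.card_Ico, Nat.card_Icc]
    calc (4 ^ m - 4 ^ (m - 1)) * (4 ^ m + 1 - 1) ≤ 4 ^ m * 4 ^ m := Nat.mul_le_mul (Nat.sub_le _ _) (by rw [Nat.add_sub_cancel])
      _ = 16 ^ m := by rw [← mul_pow]; norm_num
  exact_mod_cast h1

/-- `k` is good for the pair `N = (q, b)` -/
def hitM (r : ℕ) (N k : ℕ) : Prop := 1 ≤ k ∧ N.unpair.2 + k * N.unpair.1 ∈ AP r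

lemma hupM (r : ℕ) : ∃ K : ℝ, 0 < K ∧ ∃ m₁ : ℕ, ∀ m, m₁ ≤ m → ∀ k, ∀ V ⊆ GQ m, (∀ N ∈ V, hitM r N k) →
    (V.card : ℝ) ≤ K * (16 ^ m / m) := by
  classical
  obtain ⟨K, hK, Y₀, hY₀, h⟩ := roughI (1 / (3 * (r : ℝ) + 1)) (by positivity)
  refine ⟨2 * K, by positivity, Y₀ + 2, ?_⟩
  intro m hm k V hV hVk
  have hm4 : Y₀ ≤ 4 ^ (m - 1) := by
    have : m - 1 < 4 ^ (m - 1) := Nat.lt_pow_self (by norm_num)
    omega
  have hmr : (2 : ℝ) ≤ m := by exact_mod_cast (by omega : 2 ≤ m)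
  have hrep : ∀ N ∈ V, (4 ^ (m - 1) ≤ N.unpair.1 ∧ N.unpair.1 < 4 ^ m) ∧ 1 ≤ N.unpair.2 ∧ N.unpair.2 ≤ N.unpair.1 := by
    intro N hN
    have h1 := hV hN
    rw [← Nat.pair_unpair N, mem_GQ] at h1
    exact ⟨h1.1, h1.2.1, h1.2.2.1⟩
  have hfib : V.card = ∑ q ∈ Ico (4 ^ (m - 1)) (4 ^ m), (V.filter (fun N => N.unpair.1 = q)).card := by
    apply card_eq_sum_card_fiberwise
    intro N hN
    rw [mem_coe, mem_Ico]
    exact (hrep N hN).1
  have hlog4 : 1 ≤ Real.log 4 := by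
    rw [show (4 : ℝ) = 2 ^ 2 by norm_num, Real.log_pow]
    have := Real.log_two_gt_d9
    push_cast
    linarith
  have hone : ∀ q ∈ Ico (4 ^ (m - 1)) (4 ^ m), ((V.filter (fun N => N.unpair.1 = q)).card : ℝ) ≤ 2 * K * (4 ^ m / m) := by
    intro q hq
    rw [mem_Ico] at hq
    have h1 := h q (k * q) (hm4.trans hq.1) ((V.filter (fun N => N.unpair.1 = q)).image (fun N => N.unpair.2 + k * q)) (by
      intro n hn
      obtain ⟨N, hN, rfl⟩ := mem_image.1 hn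
      rw [mem_filter] at hN
      have h2 := hrep N hN.1
      rw [hN.2] at h2
      rw [mem_Ioc]
      omega) (by
      intro n hn l hl hlX hdvd
      obtain ⟨N, hN, rfl⟩ := mem_image.1 hn
      rw [mem_filter] at hN
      obtain ⟨hk1, h3⟩ := hVk N hN.1
      rw [hN.2] at h3
      have h4 := h3.2 l hl hdvd
      have h5 : (q : ℝ) ≤ ((N.unpair.2 + k * q : ℕ) : ℝ) := by
        have : q ≤ N.unpair.2 + k * q := by nlinarith
        exact_mod_cast this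
      have h6 := Real.rpow_le_rpow (Nat.cast_nonneg q) h5 (show 0 ≤ 1 / (3 * (r : ℝ) + 1) by positivity)
      linarith)
    rw [card_image_of_injOn] at h1
    · refine h1.trans ?_
      have hq4 : ((4 : ℝ) ^ (m - 1)) ≤ q := by exact_mod_cast hq.1
      have hq5 : (q : ℝ) ≤ (4 : ℝ) ^ m := by exact_mod_cast hq.2.le
      have h2 := Real.log_le_log (by positivity) hq4
      rw [Real.log_pow] at h2
      have h3 : (m : ℝ) / 2 ≤ Real.log q := by
        have h4 : ((m - 1 : ℕ) : ℝ) = (m : ℝ) - 1 := by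
          rw [Nat.cast_sub (by omega)]
          norm_num
        rw [h4] at h2
        nlinarith
      calc K * (q / Real.log q) ≤ K * (4 ^ m / ((m : ℝ) / 2)) := by gcongr
        _ = 2 * K * (4 ^ m / m) := by
            field_simp
    · intro N hN N' hN' he
      rw [mem_coe, mem_filter] at hN hN'
      have he' : N.unpair.2 = N'.unpair.2 := by
        have : N.unpair.2 + k * q = N'.unpair.2 + k * q := he
        omega
      have h2 : N.unpair.1 = N'.unpair.1 := by rw [hN.2, hN'.2]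
      rw [← Nat.pair_unpair N, ← Nat.pair_unpair N', h2, he']
  calc (V.card : ℝ) = ∑ q ∈ Ico (4 ^ (m - 1)) (4 ^ m), ((V.filter (fun N => N.unpair.1 = q)).card : ℝ) := by
        rw [hfib]
        push_cast
        rfl
    _ ≤ ∑ _q ∈ Ico (4 ^ (m - 1)) (4 ^ m), 2 * K * ((4 : ℝ) ^ m / m) := sum_le_sum hone
    _ = ((Ico (4 ^ (m - 1)) (4 ^ m)).card : ℝ) * (2 * K * ((4 : ℝ) ^ m / m)) := by rw [sum_const, nsmul_eq_mul]
    _ ≤ 4 ^ m * (2 * K * ((4 : ℝ) ^ m / m)) := by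
        apply mul_le_mul_of_nonneg_right _ (by positivity)
        rw [Nat.card_Ico]
        exact_mod_cast Nat.sub_le _ _
    _ = 2 * K * (16 ^ m / m) := by
        rw [show (16 : ℝ) = 4 * 4 by norm_num, mul_pow]
        ring

open Pool.Agent.Results.MP_5b0a7e_nt.ThreePrimeFactors (P R) in
lemma hlowM (r : ℕ) (hr : 3 ≤ r) (θ : ℝ) (hθ : 4 / (3 * r - 3) < θ) : ∃ δ : ℝ, 0 < δ ∧ ∃ m₁ : ℕ,
    ∀ m, m₁ ≤ m → ∀ n : ℕ, θ * m ≤ n → n ≤ m → ∀ N ∈ GQ m, ∀ Q : Finset ℕ, (∀ k ∈ IB n, hitM r N k → k ∈ Q) →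
      δ * ((4 : ℝ) ^ n / m) ≤ Q.card := by
  classical
  have hr3 : (3 : ℝ) ≤ r := by exact_mod_cast hr
  have hr0 : (0 : ℝ) < 3 * r - 3 := by linarith
  have hθ0 : 0 < θ := lt_trans (by positivity) hθ
  obtain ⟨θ', hθ'⟩ : ∃ θ' : ℝ, θ' = θ / (1 + θ) := ⟨_, rfl⟩
  have hθ1 : 4 / (3 * (r : ℝ) + 1) < θ' := by
    rw [hθ', div_lt_div_iff₀ (by positivity) (by positivity)]
    rw [div_lt_iff₀ hr0] at hθ
    nlinarith
  have hθ2 : θ' ≤ 1 := by
    rw [hθ', div_le_one (by positivity)]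
    linarith
  have hlog4 : Real.log 4 ≤ 2 := by
    rw [show (4 : ℝ) = 2 ^ 2 by norm_num, Real.log_pow]
    have := Real.log_two_lt_d9
    push_cast
    linarith
  obtain ⟨κ, hκ, hev⟩ := (Pool.Agent.Results.MP_5b0a7e_nt.ThreePrimeFactors.result.1 r θ' (by omega) hθ1 hθ2).1
  obtain ⟨x₀, hx₀⟩ := eventually_atTop.1 hev
  refine ⟨κ / 4, by positivity, ⌈(x₀ : ℝ) / θ⌉₊ + 2, ?_⟩
  intro m hm n hn1 hn2 N hN Q hQ
  obtain ⟨q, hq⟩ : ∃ q, q = N.unpair.1 := ⟨_, rfl⟩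
  obtain ⟨b, hb⟩ : ∃ b, b = N.unpair.2 := ⟨_, rfl⟩
  have hNe : N = Nat.pair q b := by rw [hq, hb, Nat.pair_unpair]
  rw [hNe, mem_GQ] at hN
  obtain ⟨⟨hq1, hq2⟩, hb1, hb2, hcop⟩ := hN
  have hmr : (2 : ℝ) ≤ m := by exact_mod_cast (by omega : 2 ≤ m)
  have hx0n : x₀ ≤ n := by
    have h1 : (x₀ : ℝ) / θ ≤ m := (Nat.le_ceil _).trans (by exact_mod_cast (by omega : ⌈(x₀ : ℝ) / θ⌉₊ ≤ m))
    rw [div_le_iff₀ hθ0] at h1
    have h2 : (x₀ : ℝ) ≤ n := by linarith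
    exact_mod_cast h2
  have hq0 : 1 ≤ q := hb1.trans hb2
  obtain ⟨x, hx⟩ : ∃ x, x = q * 4 ^ n := ⟨_, rfl⟩
  have hn4 : n < 4 ^ n := Nat.lt_pow_self (by norm_num)
  have hxx₀ : x₀ ≤ x := by
    rw [hx]
    nlinarith
  have hqr : (1 : ℝ) ≤ q := by exact_mod_cast hq0
  have hq4 : (q : ℝ) ≤ (4 : ℝ) ^ (m : ℝ) := by
    rw [Real.rpow_natCast]
    exact_mod_cast hq2.le
  have h4n : (q : ℝ) ^ θ ≤ 4 ^ n := by
    calc (q : ℝ) ^ θ ≤ ((4 : ℝ) ^ (m : ℝ)) ^ θ := Real.rpow_le_rpow (by positivity) hq4 hθ0.le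
      _ = (4 : ℝ) ^ (m * θ) := by rw [← Real.rpow_mul (by norm_num)]
      _ ≤ (4 : ℝ) ^ (n : ℝ) := Real.rpow_le_rpow_of_exponent_le (by norm_num) (by linarith)
      _ = 4 ^ n := Real.rpow_natCast _ _
  have hxr : (x : ℝ) = q * 4 ^ n := by rw [hx]; push_cast; ring
  have hx1 : (q : ℝ) ^ (1 + θ) ≤ x := by
    rw [hxr, Real.rpow_add (by linarith), Real.rpow_one]
    exact mul_le_mul_of_nonneg_left h4n (by positivity)
  have hx0 : (0 : ℝ) < x := by rw [hxr]; positivity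
  have hmain : (q : ℝ) * (x : ℝ) ^ θ' ≤ x := by
    have h1 : (q : ℝ) ≤ (x : ℝ) ^ (1 - θ') := by
      have h2 : (q : ℝ) = ((q : ℝ) ^ (1 + θ)) ^ (1 - θ') := by
        rw [← Real.rpow_mul (by positivity)]
        have : (1 + θ) * (1 - θ') = 1 := by
          rw [hθ']
          field_simp
          ring
        rw [this, Real.rpow_one]
      calc (q : ℝ) = ((q : ℝ) ^ (1 + θ)) ^ (1 - θ') := h2
        _ ≤ (x : ℝ) ^ (1 - θ') := Real.rpow_le_rpow (by positivity) hx1 (by linarith)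
    calc (q : ℝ) * (x : ℝ) ^ θ' ≤ (x : ℝ) ^ (1 - θ') * (x : ℝ) ^ θ' := mul_le_mul_of_nonneg_right h1 (by positivity)
      _ = x := by
          rw [← Real.rpow_add hx0]
          norm_num
  have hcount := hx₀ x hxx₀ q b x hq0 hcop hmain le_rfl
  have hdec : ∀ n' : ℕ, x < n' → n' ≤ x + x → n' ≡ b [MOD q] → ∃ k, k = (n' - b) / q ∧ 4 ^ n ≤ k ∧ n' = b + k * q ∧ k < 2 * 4 ^ n := by
    intro n' g1 g2 g3
    have h4 : 1 ≤ 4 ^ n := Nat.one_le_pow _ _ (by norm_num)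
    have hbn : b ≤ n' := by
      have : q * 1 ≤ q * 4 ^ n := Nat.mul_le_mul_left _ h4
      omega
    have hdvd : q ∣ n' - b := (Nat.modEq_iff_dvd' hbn).1 g3.symm
    obtain ⟨k, hk⟩ := hdvd
    have hkq : (n' - b) / q = k := by
      rw [hk, Nat.mul_div_cancel_left _ (by omega)]
    have hn'e : n' = b + k * q := by
      rw [mul_comm k q, ← hk]
      omega
    refine ⟨k, hkq.symm, ?_, hn'e, ?_⟩
    · by_contra hcon
      push Not at hcon
      have h5 : (k + 1) * q ≤ 4 ^ n * q := Nat.mul_le_mul_right _ hcon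
      rw [hx, hn'e] at g1
      rw [add_mul, one_mul] at h5
      have h6 : q * 4 ^ n = 4 ^ n * q := Nat.mul_comm _ _
      omega
    · by_contra hcon
      push Not at hcon
      have h5 : (2 * 4 ^ n) * q ≤ k * q := Nat.mul_le_mul_right _ hcon
      rw [hx, hn'e] at g2
      have h6 : (2 * 4 ^ n) * q = q * 4 ^ n + q * 4 ^ n := by ring
      omega
  -- the counted numbers give elements of `Q`
  have hQc : (Pool.Agent.TH977.PW.N (P q b r) x (x + x) : ℝ) ≤ Q.card := by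
    have : Pool.Agent.TH977.PW.N (P q b r) x (x + x) ≤ Q.card := by
      unfold Pool.Agent.TH977.PW.N
      apply card_le_card_of_injOn (fun n' => (n' - b) / q)
      · intro n' hn'
        rw [mem_coe, mem_filter, mem_Ioc] at hn'
        obtain ⟨⟨g1, g2⟩, ⟨g3, g4⟩, g5⟩ := hn'
        obtain ⟨k, hk, hk2, hk3⟩ := hdec n' g1 g2 g3
        show (n' - b) / q ∈ Q
        rw [← hk]
        apply hQ k (mem_IB.2 ⟨hk2, hk3.2⟩)
        refine ⟨le_trans (Nat.one_le_two_pow.trans (Nat.pow_le_pow_left (by norm_num) n)) hk2, ?_⟩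
        rw [← hb, ← hq, ← hk3.1]
        refine ⟨g5, ?_⟩
        intro p hp hpd
        have := g4 p hp hpd
        push_cast at this
        exact this
      · intro n' hn' n'' hn'' he
        rw [mem_coe, mem_filter, mem_Ioc] at hn' hn''
        obtain ⟨⟨g1, g2⟩, ⟨g3, g4⟩, g5⟩ := hn'
        obtain ⟨⟨g1', g2'⟩, ⟨g3', g4'⟩, g5'⟩ := hn''
        obtain ⟨k, hk, hk2, hk3⟩ := hdec n' g1 g2 g3
        obtain ⟨k', hk', hk2', hk3'⟩ := hdec n'' g1' g2' g3'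
        have he' : k = k' := by
          rw [hk, hk']
          exact he
        rw [hk3.1, hk3'.1, he']
    exact_mod_cast this
  have hlx : Real.log x ≤ 4 * m := by
    have h1 : (x : ℝ) ≤ 4 ^ (2 * m) := by
      rw [hxr, two_mul, pow_add]
      apply mul_le_mul _ _ (by positivity) (by positivity)
      · exact_mod_cast hq2.le
      · exact pow_le_pow_right₀ (by norm_num) hn2
    have h2 := Real.log_le_log hx0 h1
    rw [Real.log_pow] at h2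
    push_cast at h2
    nlinarith
  have hlx0 : 0 < Real.log x := by
    apply Real.log_pos
    rw [hxr]
    have : (4 : ℝ) ^ 1 ≤ 4 ^ n := by
      apply pow_le_pow_right₀ (by norm_num)
      have h2 : (0 : ℝ) < n := lt_of_lt_of_le (by positivity) hn1
      exact_mod_cast h2
    nlinarith
  have hφ : (0 : ℝ) < Nat.totient q := by exact_mod_cast Nat.totient_pos.2 (by omega)
  have hφ2 : (Nat.totient q : ℝ) ≤ q := by exact_mod_cast Nat.totient_le q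
  refine le_trans ?_ (hcount.trans hQc)
  rw [hxr]
  calc κ / 4 * ((4 : ℝ) ^ n / m) = κ * (q * 4 ^ n) / (q * (4 * m)) := by
        field_simp
    _ ≤ κ * (q * 4 ^ n) / (Nat.totient q * Real.log (q * 4 ^ n)) := by
        rw [← hxr]
        apply div_le_div_of_nonneg_left (by positivity) (by positivity)
        exact mul_le_mul hφ2 hlx hlx0.le (by positivity)

end Pool.Agent.H563.TG
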