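import Pool.Agent.H563.TG.Par
import Pool.Agent.H561.C4.B10

/-!
# The even numbers
-/

set_option autoImplicit false

namespace Pool.Agent.H563.TG

open Finset Filter
open Pool.Agent.H560R3.GB (sing)
open Pool.Agent.H561.C4 (HoldsA)

/-- `N` is the sum of `q` and of a different prime -/
def hit (N q : ℕ) : Prop := (N - q).Prime ∧ q ≠ N - q

/-- the primes in `(2 ^ j, 2 ^ (j + 1)]` -/
def PP (s : ℕ × ℕ) : Finset ℕ := (Ioc (2 ^ s.1) (2 ^ (s.1 + 1))).filter Nat.Prime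

lemma PP_nonempty (s : ℕ × ℕ) : (PP s).Nonempty := by
  obtain ⟨p, hp1, hp2, hp3⟩ := Nat.exists_prime_lt_and_le_two_mul (2 ^ s.1) (by positivity)
  refine ⟨p, ?_⟩
  unfold PP
  rw [mem_filter, mem_Ioc]
  exact ⟨⟨hp2, by rw [pow_succ]; omega⟩, hp1⟩

lemma PP_card (s : ℕ × ℕ) : s.1 * (PP s).card ≤ 4 * 2 ^ s.1 := by
  have h1 : (2 ^ s.1) ^ (PP s).card ≤ ∏ p ∈ PP s, p := by
    rw [← prod_const]
    apply prod_le_prod'
    intro p hp
    unfold PP at hp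
    rw [mem_filter, mem_Ioc] at hp
    exact hp.1.1.le
  have h2 : ∏ p ∈ PP s, p ≤ primorial (2 ^ (s.1 + 1)) := by
    unfold primorial
    apply prod_le_prod_of_subset_of_one_le'
    · intro p hp
      unfold PP at hp
      rw [mem_filter, mem_Ioc] at hp
      rw [mem_filter, mem_range]
      exact ⟨by omega, hp.2⟩
    · intro p hp _
      exact (mem_filter.1 hp).2.one_le
  have h3 := primorial_le_four_pow (2 ^ (s.1 + 1))
  have h4 : (2 : ℕ) ^ (s.1 * (PP s).card) ≤ 2 ^ (4 * 2 ^ s.1) := by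
    calc (2 : ℕ) ^ (s.1 * (PP s).card) = (2 ^ s.1) ^ (PP s).card := by rw [pow_mul]
      _ ≤ 4 ^ (2 ^ (s.1 + 1)) := h1.trans (h2.trans h3)
      _ = 2 ^ (4 * 2 ^ s.1) := by
          rw [show (4 : ℕ) = 2 ^ 2 by norm_num, ← pow_mul]
          congr 1
          rw [pow_succ]
          ring
  exact (Nat.pow_le_pow_iff_right (by norm_num)).1 h4

open Classical in
/-- the regular even numbers -/
noncomputable def GG (m : ℕ) : Finset ℕ :=
  (Ioc (2 ^ m) (2 ^ (m + 1))).filter (fun N => 2 ∣ N ∧ HoldsA (1 / 2) (1 / 8) 1 N)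

lemma mem_GG {m N : ℕ} : N ∈ GG m ↔ (2 ^ m < N ∧ N ≤ 2 ^ (m + 1)) ∧ 2 ∣ N ∧ HoldsA (1 / 2) (1 / 8) 1 N := by
  simp only [GG, mem_filter, mem_Ioc]

lemma GG_card (m : ℕ) : ((GG m).card : ℝ) ≤ 2 ^ m := by
  have h1 : (GG m).card ≤ (Ioc (2 ^ m) (2 ^ (m + 1))).card := card_le_card (by
    intro N hN
    rw [mem_Ioc]
    exact (mem_GG.1 hN).1)
  rw [Nat.card_Ioc, pow_succ] at h1
  have h2 : (GG m).card ≤ 2 ^ m := by omega
  exact_mod_cast h2

/-- the number of primes of one block which hit a regular number -/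
lemma dist_low {m : ℕ} (hm : 4 ≤ m) {s : ℕ × ℕ} (hs1 : m ≤ 2 * s.1) (hs2 : s.1 < m) {N : ℕ} (hN : N ∈ GG m) {Q : Finset ℕ}
    (hQ2 : ∀ q ∈ PP s, hit N q → q ∈ Q) : (2 : ℝ) ^ s.1 / (((s.1 : ℝ) + 1) * (m + 1)) ≤ Q.card := by
  classical
  obtain ⟨⟨hN1, hN2⟩, -, hH⟩ := mem_GG.1 hN
  have hj : 2 ≤ s.1 := by omega
  obtain ⟨j, hjd⟩ : ∃ j, j = s.1 := ⟨_, rfl⟩
  rw [← hjd] at hs1 hs2 hj ⊢
  have hNr1 : ((2 : ℝ) ^ m) < N := by exact_mod_cast hN1
  have hNr2 : (N : ℝ) ≤ 2 ^ (m + 1) := by exact_mod_cast hN2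
  have hN0 : (0 : ℝ) < N := lt_trans (by positivity) hNr1
  have hl2 := Real.log_two_gt_d9
  have hl2' := Real.log_two_lt_d9
  have hlN : Real.log N ≤ (m + 1) * Real.log 2 := by
    have := Real.log_le_log hN0 hNr2
    rw [Real.log_pow] at this
    push_cast at this
    exact this
  have hlN2 : 2 ≤ Real.log N := by
    have := Real.log_le_log (by positivity) hNr1.le
    rw [Real.log_pow] at this
    have hm4 : (4 : ℝ) ≤ m := by exact_mod_cast hm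
    nlinarith
  have hmj : (m : ℝ) ≤ 2 * j := by exact_mod_cast hs1
  have hv : ((N : ℝ) ^ (1 / 4 + 1 / 8 : ℝ)) ≤ (2 : ℝ) ^ (j + 1) := by
    have h1 : (N : ℝ) ^ (1 / 4 + 1 / 8 : ℝ) ≤ ((2 : ℝ) ^ (m + 1)) ^ (1 / 4 + 1 / 8 : ℝ) :=
      Real.rpow_le_rpow hN0.le hNr2 (by norm_num)
    refine h1.trans ?_
    rw [← Real.rpow_natCast, ← Real.rpow_mul (by norm_num), ← Real.rpow_natCast]
    apply Real.rpow_le_rpow_of_exponent_le (by norm_num)
    push_cast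
    linarith
  have hh := hH ((2 : ℝ) ^ j) ((2 : ℝ) ^ (j + 1)) (by positivity) hv (by
    have : (2 : ℝ) ^ (j + 1) ≤ 2 ^ m := pow_le_pow_right₀ (by norm_num) (by omega)
    linarith) (by
    rw [pow_one, div_le_iff₀ (by linarith), pow_succ]
    have : (0 : ℝ) < 2 ^ j := by positivity
    nlinarith)
  obtain ⟨Mn, hMn⟩ : ∃ Mn, Mn = sing N * ((2 : ℝ) ^ (j + 1) - 2 ^ j) / (Real.log ((2 : ℝ) ^ (j + 1)) * Real.log N) := ⟨_, rfl⟩
  rw [← hMn, abs_le] at hh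
  have hsing := Pool.Agent.W93.GB.one_le_sing N
  have hj0 : (2 : ℝ) ≤ j := by exact_mod_cast hj
  have hm0 : (4 : ℝ) ≤ m := by exact_mod_cast hm
  have hMn2 : 2 * 2 ^ j / (((j : ℝ) + 1) * (m + 1)) ≤ Mn := by
    rw [hMn, Real.log_pow]
    have e : (2 : ℝ) ^ (j + 1) - 2 ^ j = 2 ^ j := by rw [pow_succ]; ring
    rw [e, div_le_div_iff₀ (by positivity) (by push_cast; positivity)]
    have h2j : (0 : ℝ) < 2 ^ j := by positivity
    have h3 : (((j + 1 : ℕ) : ℝ) * Real.log 2 * Real.log N) ≤ ((j : ℝ) + 1) * (m + 1) * (1 / 2) := by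
      push_cast
      calc ((j : ℝ) + 1) * Real.log 2 * Real.log N ≤ ((j : ℝ) + 1) * Real.log 2 * ((m + 1) * Real.log 2) :=
            mul_le_mul_of_nonneg_left hlN (by positivity)
        _ = ((j : ℝ) + 1) * (m + 1) * (Real.log 2 * Real.log 2) := by ring
        _ ≤ ((j : ℝ) + 1) * (m + 1) * (1 / 2) := by
            apply mul_le_mul_of_nonneg_left _ (by positivity)
            nlinarith
    calc 2 * 2 ^ j * (((j + 1 : ℕ) : ℝ) * Real.log 2 * Real.log N) ≤ 2 * 2 ^ j * (((j : ℝ) + 1) * (m + 1) * (1 / 2)) :=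
          mul_le_mul_of_nonneg_left h3 (by positivity)
      _ = 1 * (2 ^ j * (((j : ℝ) + 1) * (m + 1))) := by ring
      _ ≤ sing N * (2 ^ j * (((j : ℝ) + 1) * (m + 1))) := mul_le_mul_of_nonneg_right hsing (by positivity)
      _ = _ := by ring
  have hdist : Pool.Agent.R460.GH.dist N ((2 : ℝ) ^ j) ((2 : ℝ) ^ (j + 1)) ≤ Q.card := by
    unfold Pool.Agent.R460.GH.dist
    apply card_le_card
    intro p hp
    rw [mem_filter, mem_range] at hp
    obtain ⟨_, h2, h3, h4, h5, h6⟩ := hp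
    apply hQ2
    · unfold PP
      rw [mem_filter, mem_Ioc, ← hjd]
      exact ⟨⟨by exact_mod_cast h5, by exact_mod_cast h6⟩, h2⟩
    · exact ⟨h3, h4⟩
  have hdr : (Pool.Agent.R460.GH.dist N ((2 : ℝ) ^ j) ((2 : ℝ) ^ (j + 1)) : ℝ) ≤ Q.card := by exact_mod_cast hdist
  have h9 : 2 * 2 ^ j / (((j : ℝ) + 1) * (m + 1)) = 2 * (2 ^ j / (((j : ℝ) + 1) * (m + 1))) := by ring
  rw [h9] at hMn2
  linarith [hh.1]

lemma pow_big : ∀ i : ℕ, 12 ≤ i → 2 * ((2 * i + 2) * (4 * i + 3)) ≤ 2 ^ i := by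
  intro i hi
  induction i, hi using Nat.le_induction with
  | base => norm_num
  | succ i hi ih =>
    rw [pow_succ]
    have : 2 * ((2 * (i + 1) + 2) * (4 * (i + 1) + 3)) ≤ 2 * (2 * ((2 * i + 2) * (4 * i + 3))) := by nlinarith
    omega

lemma pow_half {j m : ℕ} (hj : 24 ≤ j) (hm : m ≤ 2 * j) : 2 * (2 ^ (j / 2) * ((j + 1) * (m + 1))) ≤ 2 ^ j := by
  have h1 := pow_big (j / 2) (by omega)
  have h2 : (j + 1) * (m + 1) ≤ (2 * (j / 2) + 2) * (4 * (j / 2) + 3) := by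
    apply Nat.mul_le_mul
    · omega
    · omega
  calc 2 * (2 ^ (j / 2) * ((j + 1) * (m + 1))) = 2 ^ (j / 2) * (2 * ((j + 1) * (m + 1))) := by ring
    _ ≤ 2 ^ (j / 2) * 2 ^ (j / 2) := Nat.mul_le_mul_left _ (by omega)
    _ = 2 ^ (j / 2 + j / 2) := by rw [pow_add]
    _ ≤ 2 ^ j := Nat.pow_le_pow_right (by norm_num) (by omega)

/-- many primes hit a regular number -/
lemma hit_low {k : ℕ → ℕ} (hk : ∀ j, k j ≤ 2 ^ (j / 2)) : ∀ m, 48 ≤ m → ∀ s : ℕ × ℕ, (m + 1) / 2 ≤ s.1 → s.1 < m →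
    s.2 < k s.1 → ∀ N ∈ GG m, ∀ R ⊆ PP s, (PP s \ R).card < k s.1 → ∀ Q ⊆ R,
    (∀ q ∈ R, hit N q → q ∈ Q) → 2 * ((1 / 64 : ℝ) / m) * R.card ≤ Q.card := by
  classical
  intro m hm s hs1 hs2 _ N hN R hR hRc Q hQ hQ2
  have hs1' : m ≤ 2 * s.1 := by omega
  have h1 := dist_low (by omega) hs1' hs2 hN (Q := Q ∪ (PP s \ R)) (by
    intro q hq hh
    rw [mem_union, Finset.mem_sdiff]
    by_cases hqR : q ∈ R
    · exact Or.inl (hQ2 q hqR hh)
    · exact Or.inr ⟨hq, hqR⟩)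
  have h2 : ((Q ∪ (PP s \ R)).card : ℝ) ≤ Q.card + (2 : ℝ) ^ (s.1 / 2) := by
    have h3 : (PP s \ R).card ≤ 2 ^ (s.1 / 2) := hRc.le.trans (hk _)
    have h4 := card_union_le Q (PP s \ R)
    have : (Q ∪ (PP s \ R)).card ≤ Q.card + 2 ^ (s.1 / 2) := by omega
    exact_mod_cast this
  have hP := PP_card s
  have hPr : (s.1 : ℝ) * (PP s).card ≤ 4 * 2 ^ s.1 := by exact_mod_cast hP
  have hRP : (R.card : ℝ) ≤ (PP s).card := by exact_mod_cast card_le_card hR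
  have h5 := pow_half (j := s.1) (m := m) (by omega) hs1'
  have h5r : 2 * ((2 : ℝ) ^ (s.1 / 2) * ((s.1 + 1) * (m + 1))) ≤ 2 ^ s.1 := by exact_mod_cast h5
  obtain ⟨j, hjd⟩ : ∃ j, j = s.1 := ⟨_, rfl⟩
  rw [← hjd] at h1 h2 hPr h5r
  have hj0 : (24 : ℝ) ≤ j := by
    rw [hjd]
    exact_mod_cast (by omega : 24 ≤ s.1)
  have hm0 : (48 : ℝ) ≤ m := by exact_mod_cast hm
  have h6 : (2 : ℝ) ^ (j / 2) ≤ 1 / 2 * (2 ^ j / (((j : ℝ) + 1) * (m + 1))) := by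
    rw [mul_div_assoc', le_div_iff₀ (by positivity)]
    linarith
  have h7 : 2 * ((1 / 64 : ℝ) / m) * (PP s).card ≤ 1 / 2 * (2 ^ j / (((j : ℝ) + 1) * (m + 1))) := by
    have e1 : 2 * ((1 / 64 : ℝ) / m) * (PP s).card = ((PP s).card : ℝ) / (32 * m) := by
      field_simp
      ring
    rw [e1, mul_div_assoc', div_le_div_iff₀ (by positivity) (by positivity)]
    have h8 : ((j : ℝ) + 1) * (m + 1) ≤ 4 * (j * m) := by nlinarith
    calc ((PP s).card : ℝ) * (((j : ℝ) + 1) * (m + 1)) ≤ ((PP s).card : ℝ) * (4 * (j * m)) :=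
          mul_le_mul_of_nonneg_left h8 (by positivity)
      _ = 4 * (j * (PP s).card) * m := by ring
      _ ≤ 4 * (4 * 2 ^ j) * m := by gcongr
      _ = 1 / 2 * 2 ^ j * (32 * m) := by ring
  have h9 : 2 * ((1 / 64 : ℝ) / m) * R.card ≤ 2 * ((1 / 64 : ℝ) / m) * (PP s).card :=
    mul_le_mul_of_nonneg_left hRP (by positivity)
  linarith

/-- one element does not hit many numbers -/
lemma hit_up : ∃ m₁ : ℕ, ∀ m, m₁ ≤ m → ∀ q, ∀ V ⊆ GG m, (∀ N ∈ V, hit N q) → (V.card : ℝ) ≤ 8 / m * 2 ^ m := by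
  classical
  have ev := Chebyshev.eventually_primeCounting_le (show (0 : ℝ) < 1 / 2 by norm_num)
  obtain ⟨x₀, hx₀⟩ := eventually_atTop.1 ev
  refine ⟨⌈x₀⌉₊ + 1, ?_⟩
  intro m hm q V hV hVq
  have hm1 : (1 : ℝ) ≤ m := by exact_mod_cast (by omega : 1 ≤ m)
  have hxm : x₀ ≤ (2 : ℝ) ^ (m + 1) := by
    have h1 : x₀ ≤ m := (Nat.le_ceil _).trans (by exact_mod_cast (by omega : ⌈x₀⌉₊ ≤ m))
    have h2 : (m : ℝ) ≤ 2 ^ (m + 1) := by exact_mod_cast (Nat.lt_two_pow_self.le.trans (Nat.pow_le_pow_right (by norm_num) (by omega)))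
    linarith
  have h1 := hx₀ _ hxm
  have h2 : V.card ≤ Nat.primeCounting (2 ^ (m + 1)) := by
    unfold Nat.primeCounting Nat.primeCounting'
    rw [Nat.count_eq_card_filter_range]
    apply card_le_card_of_injOn (fun N => N - q)
    · intro N hN
      have h3 := hVq N (mem_coe.1 hN)
      have h4 := (mem_GG.1 (hV (mem_coe.1 hN))).1.2
      rw [mem_coe, mem_filter, mem_range]
      dsimp only
      exact ⟨by omega, h3.1⟩
    · intro N hN N' hN' hNN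
      have h3 := (hVq N (mem_coe.1 hN)).1.two_le
      have h4 := (hVq N' (mem_coe.1 hN')).1.two_le
      simp only at hNN
      omega
  have e : ⌊(2 : ℝ) ^ (m + 1)⌋₊ = 2 ^ (m + 1) := by
    have : ((2 : ℝ) ^ (m + 1)) = ((2 ^ (m + 1) : ℕ) : ℝ) := by push_cast; rfl
    rw [this, Nat.floor_natCast]
  rw [e] at h1
  have h3 : (V.card : ℝ) ≤ (Nat.primeCounting (2 ^ (m + 1)) : ℝ) := by exact_mod_cast h2
  refine h3.trans (h1.trans ?_)
  rw [Real.log_pow]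
  have hl4 : Real.log 4 = 2 * Real.log 2 := by
    rw [show (4 : ℝ) = 2 ^ 2 by norm_num, Real.log_pow]
    push_cast
    ring
  have hl2 := Real.log_two_gt_d9
  have hl2' := Real.log_two_lt_d9
  rw [hl4]
  push_cast
  have h2m : (0 : ℝ) < 2 ^ m := by positivity
  have key : (2 * Real.log 2 + 1 / 2) * (2 : ℝ) ^ (m + 1) / (((m : ℝ) + 1) * Real.log 2) ≤ 8 / m * 2 ^ m := by
    rw [div_mul_eq_mul_div, div_le_div_iff₀ (by positivity) (by linarith), pow_succ]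
    have h4 : (2 * Real.log 2 + 1 / 2) * 2 ≤ 8 * Real.log 2 := by linarith
    calc (2 * Real.log 2 + 1 / 2) * (2 ^ m * 2) * (m : ℝ) = ((2 * Real.log 2 + 1 / 2) * 2) * (2 ^ m * m) := by ring
      _ ≤ (8 * Real.log 2) * (2 ^ m * (m + 1)) := by
          apply mul_le_mul h4 _ (by positivity) (by positivity)
          apply mul_le_mul_of_nonneg_left _ h2m.le
          linarith
      _ = _ := by ring
  exact key

end Pool.Agent.H563.TG
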