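import Pool.Agent.H563.TG.Mult

/-!
# Thin universal sets of offsets, on both sides
-/

set_option autoImplicit false

namespace Pool.Agent.H563.TG

open Finset Filter

/-- the pairs `N, σ` with `4 ^ m ≤ 4 N < 4 ^ (m + 1)`, `σ = 0, 1` -/
def GO (m : ℕ) : Finset ℕ :=
  ((Ico (4 ^ (m - 1)) (4 ^ m)) ×ˢ (range 2)).image (fun x => Nat.pair x.1 x.2)

lemma mem_GO {m N σ : ℕ} : Nat.pair N σ ∈ GO m ↔ (4 ^ (m - 1) ≤ N ∧ N < 4 ^ m) ∧ σ < 2 := by
  unfold GO
  rw [mem_image]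
  constructor
  · rintro ⟨x, hx, he⟩
    rw [mem_product, mem_Ico, mem_range] at hx
    rw [Nat.pair_eq_pair] at he
    obtain ⟨rfl, rfl⟩ := he
    exact ⟨hx.1, hx.2⟩
  · rintro ⟨h1, h2⟩
    refine ⟨(N, σ), ?_, rfl⟩
    rw [mem_product, mem_Ico, mem_range]
    exact ⟨h1, h2⟩

lemma GO_card (m : ℕ) (hm : 1 ≤ m) : ((GO m).card : ℝ) ≤ 8 ^ m := by
  have h1 : (GO m).card ≤ 8 ^ m := by
    unfold GO
    refine card_image_le.trans ?_
    rw [card_product, Nat.card_Ico, card_range]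
    calc (4 ^ m - 4 ^ (m - 1)) * 2 ≤ 4 ^ m * 2 ^ m := by
          apply Nat.mul_le_mul (Nat.sub_le _ _)
          calc 2 = 2 ^ 1 := rfl
            _ ≤ 2 ^ m := Nat.pow_le_pow_right (by norm_num) hm
      _ = 8 ^ m := by rw [← mul_pow]; norm_num
  exact_mod_cast h1

/-- `s` is a good offset for `(N, σ)` -/
def hitO (r : ℕ) (M s : ℕ) : Prop :=
  1 ≤ s ∧ 2 * s ≤ M.unpair.1 ∧ (M.unpair.2 = 0 → M.unpair.1 + s ∈ AP r) ∧ (M.unpair.2 ≠ 0 → M.unpair.1 - s ∈ AP r)

lemma hupO (r : ℕ) : ∃ K : ℝ, 0 < K ∧ ∃ m₁ : ℕ, ∀ m, m₁ ≤ m → ∀ s, ∀ V ⊆ GO m, (∀ M ∈ V, hitO r M s) →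
    (V.card : ℝ) ≤ K * (8 ^ m / m) := by
  classical
  obtain ⟨κ, hκ⟩ : ∃ κ : ℝ, κ = 1 / (3 * (r : ℝ) + 1) := ⟨_, rfl⟩
  have hκ0 : 0 < κ := by rw [hκ]; positivity
  obtain ⟨K, hK, Y₀, hY₀, h⟩ := roughI (κ / 2) (by positivity)
  refine ⟨2 * K, by positivity, Y₀ + 4, ?_⟩
  intro m hm s V hV hVs
  have hm4 : Y₀ ≤ 4 ^ m := by
    have : m < 4 ^ m := Nat.lt_pow_self (by norm_num)
    omega
  have hmr : (4 : ℝ) ≤ m := by exact_mod_cast (by omega : 4 ≤ m)
  have hrep : ∀ M ∈ V, (4 ^ (m - 1) ≤ M.unpair.1 ∧ M.unpair.1 < 4 ^ m) ∧ M.unpair.2 < 2 := by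
    intro M hM
    have h1 := hV hM
    rw [← Nat.pair_unpair M, mem_GO] at h1
    exact h1
  have hlog4 : 1 ≤ Real.log 4 := by
    rw [show (4 : ℝ) = 2 ^ 2 by norm_num, Real.log_pow]
    have := Real.log_two_gt_d9
    push_cast
    linarith
  -- large numbers in `AP r` are rough
  have hrough : ∀ n : ℕ, n ∈ AP r → 4 ^ (m - 2) ≤ n → ∀ l : ℕ, l.Prime → (l : ℝ) ≤ (((4 ^ m : ℕ) : ℕ) : ℝ) ^ (κ / 2) → ¬ l ∣ n := by
    intro n hn hnm l hl hlX hdvd
    have h1 := hn.2 l hl hdvd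
    rw [← hκ] at h1
    have h2 : (((4 ^ m : ℕ) : ℕ) : ℝ) ^ (κ / 2) ≤ (n : ℝ) ^ κ := by
      have h3 : (((4 ^ (m - 2) : ℕ) : ℕ) : ℝ) ^ κ ≤ (n : ℝ) ^ κ :=
        Real.rpow_le_rpow (Nat.cast_nonneg _) (by exact_mod_cast hnm) hκ0.le
      refine le_trans ?_ h3
      push_cast
      rw [← Real.rpow_natCast, ← Real.rpow_natCast, ← Real.rpow_mul (by norm_num), ← Real.rpow_mul (by norm_num)]
      apply Real.rpow_le_rpow_of_exponent_le (by norm_num)
      rw [Nat.cast_sub (by omega)]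
      push_cast
      nlinarith
    linarith
  have hbd : K * (((4 ^ m : ℕ) : ℝ) / Real.log ((4 ^ m : ℕ) : ℝ)) ≤ K * (4 ^ m / m) := by
    push_cast
    rw [Real.log_pow]
    have h1 : (m : ℝ) ≤ m * Real.log 4 := by nlinarith
    gcongr
  have h40 : 1 ≤ 4 ^ (m - 2) := Nat.one_le_pow _ _ (by norm_num)
  have e42 : 4 ^ (m - 1) = 4 * 4 ^ (m - 2) := by
    rw [← pow_succ']
    congr 1
    omega
  have hplus : ((V.filter (fun M => M.unpair.2 = 0)).card : ℝ) ≤ K * (4 ^ m / m) := by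
    have h1 := h (4 ^ m) (4 ^ (m - 1) + s - 1) hm4 ((V.filter (fun M => M.unpair.2 = 0)).image (fun M => M.unpair.1 + s)) (by
      intro n hn
      obtain ⟨M, hM, rfl⟩ := mem_image.1 hn
      rw [mem_filter] at hM
      have h2 := hrep M hM.1
      rw [mem_Ioc]
      omega) (by
      intro n hn
      obtain ⟨M, hM, rfl⟩ := mem_image.1 hn
      rw [mem_filter] at hM
      have h2 := hrep M hM.1
      have h3 := hVs M hM.1
      exact hrough _ (h3.2.2.1 hM.2) (by omega))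
    rw [card_image_of_injOn] at h1
    · exact h1.trans hbd
    · intro M hM M' hM' he
      rw [mem_coe, mem_filter] at hM hM'
      have he' : M.unpair.1 = M'.unpair.1 := by
        have : M.unpair.1 + s = M'.unpair.1 + s := he
        omega
      have h2 : M.unpair.2 = M'.unpair.2 := by rw [hM.2, hM'.2]
      rw [← Nat.pair_unpair M, ← Nat.pair_unpair M', h2, he']
  have hminus : ((V.filter (fun M => ¬ M.unpair.2 = 0)).card : ℝ) ≤ K * (4 ^ m / m) := by
    have h1 := h (4 ^ m) (4 ^ (m - 1) - s - 1) hm4 ((V.filter (fun M => ¬ M.unpair.2 = 0)).image (fun M => M.unpair.1 - s)) (by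
      intro n hn
      obtain ⟨M, hM, rfl⟩ := mem_image.1 hn
      rw [mem_filter] at hM
      have h2 := hrep M hM.1
      have h3 := hVs M hM.1
      have h4 := h3.2.1
      rw [mem_Ioc]
      omega) (by
      intro n hn
      obtain ⟨M, hM, rfl⟩ := mem_image.1 hn
      rw [mem_filter] at hM
      have h2 := hrep M hM.1
      have h3 := hVs M hM.1
      have h4 := h3.2.1
      exact hrough _ (h3.2.2.2 hM.2) (by omega))
    rw [card_image_of_injOn] at h1
    · exact h1.trans hbd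
    · intro M hM M' hM' he
      rw [mem_coe, mem_filter] at hM hM'
      have h3 := (hVs M hM.1).2.1
      have h3' := (hVs M' hM'.1).2.1
      have h4 := (hVs M hM.1).1
      have he' : M.unpair.1 = M'.unpair.1 := by
        have : M.unpair.1 - s = M'.unpair.1 - s := he
        omega
      have h2 : M.unpair.2 = M'.unpair.2 := by
        have g1 := hrep M hM.1
        have g2 := hrep M' hM'.1
        have g3 := hM.2
        have g4 := hM'.2
        omega
      rw [← Nat.pair_unpair M, ← Nat.pair_unpair M', h2, he']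
  have hsum := card_filter_add_card_filter_not (s := V) (fun M => M.unpair.2 = 0)
  have hsum' : (V.card : ℝ) = ((V.filter (fun M => M.unpair.2 = 0)).card : ℝ) + ((V.filter (fun M => ¬ M.unpair.2 = 0)).card : ℝ) := by
    exact_mod_cast hsum.symm
  have h48 : (4 : ℝ) ^ m ≤ 8 ^ m := pow_le_pow_left₀ (by norm_num) (by norm_num) m
  calc (V.card : ℝ) ≤ 2 * K * (4 ^ m / m) := by rw [hsum']; linarith
    _ ≤ 2 * K * (8 ^ m / m) := by gcongr

open Pool.Agent.Results.MP_5b0a7e_nt.ThreePrimeFactors (P R) in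
lemma hlowO (r : ℕ) (hr : 2 ≤ r) (θ : ℝ) (hθ : 4 / (3 * r + 1) < θ) (η : ℝ) (hη : η < 1) : ∃ δ : ℝ, 0 < δ ∧ ∃ m₁ : ℕ,
    ∀ m, m₁ ≤ m → ∀ n : ℕ, θ * m ≤ n → (n : ℝ) ≤ η * m → ∀ M ∈ GO m, ∀ Q : Finset ℕ, (∀ s ∈ IB n, hitO r M s → s ∈ Q) →
      δ * ((4 : ℝ) ^ n / m) ≤ Q.card := by
  classical
  have hr2 : (2 : ℝ) ≤ r := by exact_mod_cast hr
  have hθ0 : 0 < θ := lt_trans (by positivity) hθ
  obtain ⟨θ', hθ'⟩ : ∃ θ' : ℝ, θ' = min 1 ((4 / (3 * (r : ℝ) + 1) + θ) / 2) := ⟨_, rfl⟩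
  have h47 : 4 / (3 * (r : ℝ) + 1) < 1 := by
    rw [div_lt_one (by positivity)]
    linarith
  have hθ1 : 4 / (3 * (r : ℝ) + 1) < θ' := by
    rw [hθ']
    exact lt_min h47 (by linarith)
  have hθ2 : θ' ≤ 1 := by
    rw [hθ']
    exact min_le_left _ _
  have hθ3 : θ' < θ := by
    rw [hθ']
    exact lt_of_le_of_lt (min_le_right _ _) (by linarith)
  have hθ'0 : 0 < θ' := lt_trans (by positivity) hθ1
  have hlog4 : Real.log 4 ≤ 2 := by
    rw [show (4 : ℝ) = 2 ^ 2 by norm_num, Real.log_pow]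
    have := Real.log_two_lt_d9
    push_cast
    linarith
  obtain ⟨κ, hκ, hev⟩ := (Pool.Agent.Results.MP_5b0a7e_nt.ThreePrimeFactors.result.1 r θ' (by omega) hθ1 hθ2).1
  obtain ⟨x₀, hx₀⟩ := eventually_atTop.1 hev
  refine ⟨κ / 4, by positivity, x₀ + ⌈1 / (θ - θ')⌉₊ + ⌈2 / (1 - η)⌉₊ + 4, ?_⟩
  intro m hm n hn1 hn2 M hM Q hQ
  obtain ⟨N, hN⟩ : ∃ N, N = M.unpair.1 := ⟨_, rfl⟩
  obtain ⟨σ, hσ⟩ : ∃ σ, σ = M.unpair.2 := ⟨_, rfl⟩
  have hMe : M = Nat.pair N σ := by rw [hN, hσ, Nat.pair_unpair]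
  rw [hMe, mem_GO] at hM
  obtain ⟨⟨hN1, hN2⟩, hσ2⟩ := hM
  have hmr : (4 : ℝ) ≤ m := by exact_mod_cast (by omega : 4 ≤ m)
  -- sizes
  have hη2 : (n : ℝ) + 2 ≤ m := by
    have h1 : 2 / (1 - η) ≤ m := (Nat.le_ceil _).trans (by exact_mod_cast (by omega : ⌈2 / (1 - η)⌉₊ ≤ m))
    rw [div_le_iff₀ (by linarith)] at h1
    linarith
  have hnm : n + 2 ≤ m := by exact_mod_cast hη2
  have h4n : 4 * 4 ^ n ≤ 4 ^ (m - 1) := by
    calc 4 * 4 ^ n = 4 ^ (n + 1) := by rw [pow_succ']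
      _ ≤ 4 ^ (m - 1) := Nat.pow_le_pow_right (by norm_num) (by omega)
  have h40 : 1 ≤ 4 ^ n := Nat.one_le_pow _ _ (by norm_num)
  have hx4 : ∀ x : ℕ, x ≤ 2 * 4 ^ m → (x : ℝ) ^ θ' ≤ 4 ^ n := by
    intro x hx
    have h1 : (x : ℝ) ≤ (4 : ℝ) ^ ((m : ℝ) + 1) := by
      rw [Real.rpow_add (by norm_num), Real.rpow_natCast, Real.rpow_one]
      have h2 : (x : ℝ) ≤ 2 * 4 ^ m := by exact_mod_cast hx
      have : (0 : ℝ) < 4 ^ m := by positivity
      linarith
    calc (x : ℝ) ^ θ' ≤ ((4 : ℝ) ^ ((m : ℝ) + 1)) ^ θ' := Real.rpow_le_rpow (Nat.cast_nonneg _) h1 hθ'0.le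
      _ = (4 : ℝ) ^ (((m : ℝ) + 1) * θ') := by rw [← Real.rpow_mul (by norm_num)]
      _ ≤ (4 : ℝ) ^ (n : ℝ) := by
          apply Real.rpow_le_rpow_of_exponent_le (by norm_num)
          have h3 : 1 / (θ - θ') ≤ m := (Nat.le_ceil _).trans (by exact_mod_cast (by omega : ⌈1 / (θ - θ')⌉₊ ≤ m))
          rw [div_le_iff₀ (by linarith)] at h3
          nlinarith
      _ = 4 ^ n := Real.rpow_natCast _ _
  -- the bound for the count
  have hfin : ∀ x : ℕ, 2 * 4 ^ n ≤ x → x₀ ≤ x → x ≤ 2 * 4 ^ m → (Pool.Agent.TH977.PW.N (P 1 1 r) x (x + 4 ^ n) : ℝ) ≤ Q.card →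
      κ / 4 * ((4 : ℝ) ^ n / m) ≤ Q.card := by
    intro x h1 h2 h3 h4
    have h5 := hx₀ x h2 1 1 (4 ^ n) le_rfl (Nat.coprime_one_left _) (by
      push_cast
      rw [one_mul]
      exact hx4 x h3) (by omega)
    refine le_trans ?_ (h5.trans h4)
    rw [Nat.totient_one]
    push_cast
    rw [one_mul]
    have hxr : (2 : ℝ) ≤ x := by exact_mod_cast (by omega : 2 ≤ x)
    have hlx0 : 0 < Real.log x := Real.log_pos (by linarith)
    have hlx : Real.log x ≤ 4 * m := by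
      have h6 : (x : ℝ) ≤ 4 ^ (m + 1) := by
        have : x ≤ 4 ^ (m + 1) := by
          rw [pow_succ]
          omega
        exact_mod_cast this
      have h7 := Real.log_le_log (by linarith) h6
      rw [Real.log_pow] at h7
      push_cast at h7
      nlinarith
    calc κ / 4 * ((4 : ℝ) ^ n / m) = κ * 4 ^ n / (4 * m) := by
          field_simp
      _ ≤ κ * 4 ^ n / Real.log x := div_le_div_of_nonneg_left (by positivity) hlx0 hlx
  have hx₀m : x₀ ≤ 4 ^ (m - 2) := by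
    have : m - 2 < 4 ^ (m - 2) := Nat.lt_pow_self (by norm_num)
    omega
  have e42 : 4 ^ (m - 1) = 4 * 4 ^ (m - 2) := by
    rw [← pow_succ']
    congr 1
    omega
  have hP : ∀ n' : ℕ, n' ∈ P 1 1 r → n' ∈ AP r := by
    rintro n' ⟨⟨-, g4⟩, g5⟩
    refine ⟨g5, ?_⟩
    intro p hp hpd
    have := g4 p hp hpd
    push_cast at this
    exact this
  rcases Nat.eq_zero_or_pos σ with h0 | h0
  · -- the offsets to the right
    apply hfin (N + 4 ^ n - 1) (by omega) (by omega) (by omega)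
    have : Pool.Agent.TH977.PW.N (P 1 1 r) (N + 4 ^ n - 1) (N + 4 ^ n - 1 + 4 ^ n) ≤ Q.card := by
      unfold Pool.Agent.TH977.PW.N
      apply card_le_card_of_injOn (fun n' => n' - N)
      · intro n' hn'
        rw [mem_coe, mem_filter, mem_Ioc] at hn'
        obtain ⟨⟨g1, g2⟩, g3⟩ := hn'
        show n' - N ∈ Q
        apply hQ _ (mem_IB.2 ⟨by omega, by omega⟩)
        refine ⟨by omega, by rw [← hN]; omega, ?_, ?_⟩
        · intro _
          rw [← hN]
          have : N + (n' - N) = n' := by omega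
          rw [this]
          exact hP _ g3
        · intro hc
          rw [← hσ] at hc
          omega
      · intro n' hn' n'' hn'' he
        rw [mem_coe, mem_filter, mem_Ioc] at hn' hn''
        have : n' - N = n'' - N := he
        omega
    exact_mod_cast this
  · -- the offsets to the left
    apply hfin (N - 2 * 4 ^ n) (by omega) (by omega) (by omega)
    have : Pool.Agent.TH977.PW.N (P 1 1 r) (N - 2 * 4 ^ n) (N - 2 * 4 ^ n + 4 ^ n) ≤ Q.card := by
      unfold Pool.Agent.TH977.PW.N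
      apply card_le_card_of_injOn (fun n' => N - n')
      · intro n' hn'
        rw [mem_coe, mem_filter, mem_Ioc] at hn'
        obtain ⟨⟨g1, g2⟩, g3⟩ := hn'
        show N - n' ∈ Q
        apply hQ _ (mem_IB.2 ⟨by omega, by omega⟩)
        refine ⟨by omega, by rw [← hN]; omega, ?_, ?_⟩
        · intro hc
          rw [← hσ] at hc
          omega
        · intro _
          rw [← hN]
          have : N - (N - n') = n' := by omega
          rw [this]
          exact hP _ g3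
      · intro n' hn' n'' hn'' he
        rw [mem_coe, mem_filter, mem_Ioc] at hn' hn''
        have : N - n' = N - n'' := he
        omega
    exact_mod_cast this

end Pool.Agent.H563.TG
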