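import Pool.Agent.H563.TG.Inf

/-!
# The parameters
-/

set_option autoImplicit false

namespace Pool.Agent.H563.TG

open Finset Filter

/-- the steps with block between `l` and `h` -/
def steps (k : ℕ → ℕ) (l h : ℕ) : Finset (ℕ × ℕ) :=
  (Ico l h).biUnion (fun j => (range (k j)).image (fun a => (j, a)))

lemma mem_steps {k : ℕ → ℕ} {l h : ℕ} {s : ℕ × ℕ} : s ∈ steps k l h ↔ (l ≤ s.1 ∧ s.1 < h) ∧ s.2 < k s.1 := by
  unfold steps
  rw [mem_biUnion]
  constructor
  · rintro ⟨j, hj, h⟩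
    obtain ⟨a, ha, rfl⟩ := mem_image.1 h
    rw [mem_Ico] at hj
    rw [mem_range] at ha
    exact ⟨hj, ha⟩
  · rintro ⟨h1, h3⟩
    exact ⟨s.1, mem_Ico.2 h1, mem_image.2 ⟨s.2, mem_range.2 h3, rfl⟩⟩

lemma steps_card {k : ℕ → ℕ} (hk : Monotone k) (l h : ℕ) : (h - l) * k l ≤ (steps k l h).card := by
  unfold steps
  rw [card_biUnion]
  · calc (h - l) * k l = ∑ _j ∈ Ico l h, k l := by
          rw [sum_const, Nat.card_Ico, smul_eq_mul]
      _ ≤ _ := by
          apply sum_le_sum
          intro j hj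
          rw [mem_Ico] at hj
          rw [card_image_of_injective _ (fun a b h => by simpa using h), card_range]
          exact hk hj.1
  · intro i _ j _ hij
    show Disjoint _ _
    rw [disjoint_left]
    intro s hs hs'
    obtain ⟨a, _, rfl⟩ := mem_image.1 hs
    obtain ⟨b, _, h⟩ := mem_image.1 hs'
    simp only [Prod.mk.injEq] at h
    exact hij h.1.symm

lemma inv_le_exp {ρ : ℝ} (h0 : 0 ≤ ρ) (h1 : ρ ≤ 1 / 2) : (1 - ρ)⁻¹ ≤ Real.exp (2 * ρ) := by
  rw [inv_le_comm₀ (by linarith) (Real.exp_pos _), ← Real.exp_neg]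
  have h2 : 1 + 2 * ρ ≤ Real.exp (2 * ρ) := by linarith [Real.add_one_le_exp (2 * ρ)]
  rw [Real.exp_neg, inv_le_comm₀ (Real.exp_pos _) (by linarith)]
  refine le_trans ?_ h2
  rw [inv_le_iff_one_le_mul₀ (by linarith)]
  nlinarith

/-- the choice with the parameters -/
lemma param (c₀ κ : ℝ) (hc : 0 < c₀) (hκ : 0 < κ) : ∃ m₀ : ℕ, ∀ (hit : ℕ → ℕ → Prop)
    (k : ℕ → ℕ), ∀ lo hi : ℕ → ℕ, ∀ P : ℕ × ℕ → Finset ℕ,
    (∀ s s' : ℕ × ℕ, s.1 ≠ s'.1 → Disjoint (P s) (P s')) → (∀ s : ℕ × ℕ, s.2 < k s.1 → k s.1 ≤ (P s).card) →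
    ∀ w : ℕ → ℝ, ∀ G : ℕ → Finset ℕ, ∀ ρ : ℕ → ℝ, ∀ m₁ : ℕ,
    (∀ m, m₁ ≤ m → hi m ≤ m ∧ 0 < ρ m ∧ ρ m * m ≤ c₀) →
    (∀ m, m₁ ≤ m → 0 < w m ∧ ((G m).card : ℝ) ≤ w m) →
    (∀ m, m₁ ≤ m → ∀ s : ℕ × ℕ, lo m ≤ s.1 → s.1 < hi m → s.2 < k s.1 → ∀ N ∈ G m, ∀ R ⊆ P s, (P s \ R).card < k s.1 →
      ∀ Q ⊆ R, (∀ q ∈ R, hit N q → q ∈ Q) → 2 * ρ m * R.card ≤ Q.card) →
    (∀ m, m₁ ≤ m → ∀ q, ∀ V ⊆ G m, (∀ N ∈ V, hit N q) → (V.card : ℝ) ≤ κ * ρ m * w m) →
    ∃ g : ℕ × ℕ → ℕ, (∀ s, s.2 < k s.1 → g s ∈ P s) ∧ (∀ s s', s.2 < k s.1 → s'.2 < k s'.1 → g s = g s' → s = s') ∧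
      ∀ m, max m₀ m₁ ≤ m → ∀ n : ℝ, 0 ≤ n → n ≤ (steps k (lo m) (hi m)).card → ∀ U ⊆ G m,
      (∀ N ∈ U, ∀ B ⊆ steps k (lo m) (hi m), (∀ s ∈ B, hit N (g s)) → (B.card : ℝ) ≤ ρ m * n / 200) →
      (U.card : ℝ) ≤ 12 * w m * Real.exp (-(ρ m * n) / 100) := by
  classical
  obtain ⟨θ, hθ⟩ : ∃ θ : ℝ, θ = 1 / 16 := ⟨_, rfl⟩
  have hθ0 : 0 < θ := by rw [hθ]; positivity
  obtain ⟨η, hη⟩ : ∃ η : ℝ, η = 1 / ((1 + κ) * (1 + c₀)) := ⟨_, rfl⟩
  have hη0 : 0 < η := by rw [hη]; positivity
  have ev1 := (isLittleO_log_rpow_atTop (show (0 : ℝ) < 1 / 8 by norm_num)).bound hη0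
  have ev2 := eventually_ge_atTop (2 * c₀ + 2)
  obtain ⟨x₀, hx₀⟩ := eventually_atTop.1 (ev1.and ev2)
  refine ⟨max ⌈x₀⌉₊ 2, ?_⟩
  intro hit k lo hi P hPd hPk w G ρ m₁ hlh hG hhit hΔ
  obtain ⟨m₂, hm₂⟩ : ∃ m₂, m₂ = max (max ⌈x₀⌉₊ 2) m₁ := ⟨_, rfl⟩
  rw [← hm₂]
  -- the data
  obtain ⟨St, hSt⟩ : ∃ St : ℕ → Finset (ℕ × ℕ), St = fun m => steps k (lo m) (hi m) := ⟨_, rfl⟩
  have hact : ∀ m : ℕ, ∃ T ⊆ St m, T.card = min (St m).card ⌊θ * Real.log m / ρ m⌋₊ := by
    intro m
    exact exists_subset_card_eq (min_le_left _ _)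
  choose T hT1 hT2 using hact
  obtain ⟨b, hb⟩ : ∃ b : ℕ → Bool, b = fun m : ℕ => decide (ρ m * ((St m).card : ℝ) ≤ 4 * Real.log (m : ℝ)) := ⟨_, rfl⟩
  obtain ⟨x, hx⟩ : ∃ x : ℕ → Sc (ℕ × ℕ), x = fun m : ℕ => Sc.mk (G m) (if b m then T m else St m) (w m) (ρ m)
    (κ * ρ m) ((m : ℝ) ^ (1 / 8 : ℝ)) (b m) := ⟨_, rfl⟩
  have hactsub : ∀ m, (x m).act ⊆ St m := by
    intro m
    rw [hx]
    simp only
    split_ifs
    · exact hT1 m
    · exact Subset.refl _
  have hfacts : ∀ m : ℕ, m₂ ≤ m → (2 : ℝ) ≤ m ∧ 0 < ρ m ∧ ρ m ≤ 1 / 2 ∧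
      Real.log m ≤ η * (m : ℝ) ^ (1 / 8 : ℝ) ∧ m₁ ≤ m ∧ ρ m * m ≤ c₀ := by
    intro m hm
    rw [hm₂] at hm
    have h1 : ⌈x₀⌉₊ ≤ m := (le_max_left _ _).trans ((le_max_left _ _).trans hm)
    have h2 : 2 ≤ m := (le_max_right _ _).trans ((le_max_left _ _).trans hm)
    have hm1 : m₁ ≤ m := (le_max_right _ _).trans hm
    obtain ⟨h3, h4⟩ := hx₀ m ((Nat.le_ceil _).trans (by exact_mod_cast h1))
    have h2r : (2 : ℝ) ≤ m := by exact_mod_cast h2
    obtain ⟨_, h5, h6⟩ := hlh m hm1
    refine ⟨h2r, h5, ?_, ?_, hm1, h6⟩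
    · nlinarith
    · rw [Real.norm_eq_abs, Real.norm_eq_abs, abs_of_nonneg (Real.log_nonneg (by linarith)),
        abs_of_nonneg (by positivity)] at h3
      exact h3
  have hok : ∀ m, m₂ ≤ m → (x m).OK hit P (fun s => k s.1) m := by
    intro m hm
    obtain ⟨f1, fa, f2, f3, hmm, f4⟩ := hfacts m hm
    have hm0 : (0 : ℝ) < m := by linarith
    refine ⟨⟨?_, ?_, ?_, ?_, ?_⟩, ?_, ?_, ?_⟩
    · rw [hx]; exact (hG m hmm).1
    · rw [hx]; simp only; positivity
    · rw [hx]; simp only; linarith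
    · rw [hx]; simp only; positivity
    · rw [hx]; exact (hG m hmm).2
    · intro s hs
      have h1 := hactsub m hs
      rw [hSt] at h1
      have h1' := mem_steps.1 h1
      have h2 := hhit m hmm s h1'.1.1 h1'.1.2 h1'.2
      rw [hx]
      exact h2
    · have := hΔ m hmm
      rw [hx]
      exact this
    · intro hbm
      have hbm' : b m = true := by
        rw [hx] at hbm
        exact hbm
      obtain ⟨y, hy⟩ : ∃ y : ℝ, y = (m : ℝ) ^ (1 / 8 : ℝ) := ⟨_, rfl⟩
      have hy8 : y ^ 8 = m := by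
        rw [hy, ← Real.rpow_natCast, ← Real.rpow_mul hm0.le]
        norm_num
      have hy1 : 1 ≤ y := by
        rw [hy]
        exact Real.one_le_rpow (by linarith) (by norm_num)
      have hy0 : 0 < y := by linarith
      rw [← hy] at f3
      have hlog : 0 < Real.log (m : ℝ) := Real.log_pos (by linarith)
      have hcard : ((T m).card : ℝ) ≤ θ * Real.log m / ρ m := by
        have h1 : (T m).card ≤ ⌊θ * Real.log m / ρ m⌋₊ := by
          rw [hT2]
          exact min_le_right _ _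
        exact (Nat.cast_le.2 h1).trans (Nat.floor_le (by positivity))
      have e : (x m).act = T m := by
        rw [hx]
        simp only [hbm', if_true]
      have eL : (x m).L = y := by
        rw [hx, hy]
      have eρ : (x m).ρ = ρ m := by rw [hx]
      have eΔ : (x m).Δ = κ * ρ m := by rw [hx]
      rw [e, eL, eρ, eΔ]
      obtain ⟨r, hr⟩ : ∃ r : ℝ, r = ρ m := ⟨_, rfl⟩
      rw [← hr] at fa f2 f4 hcard ⊢
      have hD : y * (r + κ * r) = (1 + κ) * y * r := by ring
      have hηc : η * ((1 + κ) * (1 + c₀)) = 1 := by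
        rw [hη]
        field_simp
      have hry : r * y ^ 8 ≤ c₀ := by rw [hy8]; exact f4
      -- η (1 + κ) c₀ ≤ 1
      have hη1 : η * (1 + κ) * c₀ ≤ 1 := by
        have : 0 < η * (1 + κ) := by positivity
        nlinarith
      have hη2 : η * (1 + κ) ≤ 1 := by
        have : 0 < η * (1 + κ) * c₀ := by positivity
        nlinarith
      refine ⟨?_, ?_, ?_⟩
      · calc (1 - r)⁻¹ ^ (T m).card ≤ Real.exp (2 * r) ^ (T m).card := by
              apply pow_le_pow_left₀ _ (inv_le_exp fa.le f2)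
              rw [inv_nonneg]
              linarith
          _ = Real.exp ((T m).card * (2 * r)) := by rw [← Real.exp_nat_mul]
          _ ≤ Real.exp (Real.log m * (1 / 8)) := by
              apply Real.exp_le_exp.2
              calc ((T m).card : ℝ) * (2 * r) ≤ (θ * Real.log m / r) * (2 * r) :=
                    mul_le_mul_of_nonneg_right hcard (by positivity)
                _ = Real.log m * (1 / 8) := by
                    rw [hθ]
                    field_simp
                    ring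
          _ = y := by
              rw [hy, Real.rpow_def_of_pos hm0]
      · rw [hD]
        have hy7 : y ^ 2 ≤ y ^ 8 := pow_le_pow_right₀ hy1 (by norm_num)
        calc Real.log m * ((1 + κ) * y * r) ≤ (η * y) * ((1 + κ) * y * r) := mul_le_mul_of_nonneg_right f3 (by positivity)
          _ = (η * (1 + κ)) * (r * y ^ 2) := by ring
          _ ≤ (η * (1 + κ)) * (r * y ^ 8) := by gcongr
          _ ≤ (η * (1 + κ)) * c₀ := by gcongr
          _ ≤ 1 := hη1
      · rw [hD]
        have h1 : Real.log m * ((1 + κ) * y * r) ^ 2 * (T m).card ≤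
            Real.log m * ((1 + κ) * y * r) ^ 2 * (θ * Real.log m / r) :=
          mul_le_mul_of_nonneg_left hcard (by positivity)
        refine h1.trans ?_
        have h2 : Real.log m * ((1 + κ) * y * r) ^ 2 * (θ * Real.log m / r) =
            (Real.log m * (1 + κ)) ^ 2 * θ * y ^ 2 * r := by
          field_simp
        rw [h2]
        have h3 : Real.log m * (1 + κ) ≤ η * (1 + κ) * y := by
          calc Real.log m * (1 + κ) ≤ (η * y) * (1 + κ) := mul_le_mul_of_nonneg_right f3 (by positivity)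
            _ = _ := by ring
        have h4 : (Real.log m * (1 + κ)) ^ 2 ≤ (η * (1 + κ) * y) ^ 2 :=
          pow_le_pow_left₀ (by positivity) h3 2
        have hy26 : y ^ 4 ≤ y ^ 8 := pow_le_pow_right₀ hy1 (by norm_num)
        calc (Real.log m * (1 + κ)) ^ 2 * θ * y ^ 2 * r ≤ (η * (1 + κ) * y) ^ 2 * θ * y ^ 2 * r := by gcongr
          _ = ((η * (1 + κ)) * θ) * ((η * (1 + κ)) * (r * y ^ 4)) := by ring
          _ ≤ 1 * ((η * (1 + κ)) * (r * y ^ 8)) := by
              apply mul_le_mul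
              · rw [hθ]
                linarith
              · gcongr
              · positivity
              · norm_num
          _ ≤ 1 * ((η * (1 + κ)) * c₀) := by gcongr
          _ ≤ 1 := by linarith
  obtain ⟨g, hg1, hg0, hg2⟩ := sel_inf (hit := hit) k P hPd hPk m₂ (by rw [hm₂]; exact (le_max_right _ _).trans (le_max_left _ _))
    x hok (by
      intro m hm s hs
      have h1 := hactsub m hs
      rw [hSt] at h1
      have h1' := mem_steps.1 h1
      have h2 := (hlh m (hfacts m hm).2.2.2.2.1).1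
      exact ⟨lt_of_lt_of_le h1'.1.2 h2, h1'.2⟩)
  refine ⟨g, hg1, hg0, ?_⟩
  intro m hm n' hn'0 hn' U hU hUn
  obtain ⟨f1, fa, f2, f3, hmm, f4⟩ := hfacts m hm
  have hm0 : (0 : ℝ) < m := by linarith
  have hlog : 0 < Real.log (m : ℝ) := Real.log_pos (by linarith)
  have hw0 := (hG m hmm).1
  have h1 := hg2 m hm
  obtain ⟨Y, hY⟩ : ∃ Y : ℝ, Y = ρ m * n' := ⟨_, rfl⟩
  have hY0 : 0 ≤ Y := by rw [hY]; positivity
  rw [← hY] at hUn ⊢
  have hsub : (U.card : ℝ) * Real.exp (-(Y / 200)) ≤ Sw hit (x m).G (x m).act (x m).act g := by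
    unfold Sw
    have e0 : (x m).G = G m := by rw [hx]
    rw [e0]
    calc (U.card : ℝ) * Real.exp (-(Y / 200)) = ∑ _N ∈ U, Real.exp (-(Y / 200)) := by
          rw [sum_const, nsmul_eq_mul]
      _ ≤ ∑ N ∈ U, (1 / 2 : ℝ) ^ hits hit (x m).act (x m).act g N := by
          apply sum_le_sum
          intro N hN
          have h2 := hUn N hN (((x m).act ∩ (x m).act).filter (fun s => hit N (g s))) (by
            intro s hs
            rw [mem_filter, mem_inter] at hs
            have h3 := hactsub m hs.1.1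
            rw [hSt] at h3
            exact h3) (fun s hs => (mem_filter.1 hs).2)
          have h3 : (hits hit (x m).act (x m).act g N : ℝ) ≤ Y / 200 := by
            unfold hits
            exact h2
          have h4 : (1 / 2 : ℝ) ^ hits hit (x m).act (x m).act g N =
              Real.exp (-(hits hit (x m).act (x m).act g N * Real.log 2)) := by
            rw [Real.exp_neg, Real.exp_nat_mul, Real.exp_log (by norm_num), one_div, inv_pow]
          rw [h4]
          apply Real.exp_le_exp.2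
          have h5 : Real.log 2 ≤ 1 := by linarith [Real.log_two_lt_d9]
          have h6 : (hits hit (x m).act (x m).act g N : ℝ) * Real.log 2 ≤ hits hit (x m).act (x m).act g N * 1 :=
            mul_le_mul_of_nonneg_left h5 (Nat.cast_nonneg _)
          linarith
      _ ≤ _ := sum_le_sum_of_subset_of_nonneg hU (fun N _ _ => by positivity)
  have h2 : (U.card : ℝ) * Real.exp (-(Y / 200)) ≤ (if b m then 4 else (m : ℝ) ^ 2) * w m *
      (1 - ρ m) ^ (x m).act.card := by
    refine hsub.trans (h1.trans (le_of_eq ?_))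
    rw [hx]
  obtain ⟨n, hn⟩ : ∃ n, n = (St m).card := ⟨_, rfl⟩
  obtain ⟨r, hr⟩ : ∃ r : ℝ, r = ρ m := ⟨_, rfl⟩
  rw [← hr] at h2 f2 fa hY
  have hexp : ∀ i : ℕ, (1 - r) ^ i ≤ Real.exp (-(r * i)) := by
    intro i
    calc (1 - r) ^ i ≤ Real.exp (-r) ^ i := by
          apply pow_le_pow_left₀ (by linarith)
          exact Real.one_sub_le_exp_neg _
      _ = _ := by
          rw [← Real.exp_nat_mul]
          congr 1
          ring
  have h3 : (U.card : ℝ) * Real.exp (-(Y / 200)) ≤ 12 * w m * Real.exp (-(r * n / 64)) := by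
    by_cases hbm : b m = true
    · have hle : r * n ≤ 4 * Real.log m := by
        rw [hb] at hbm
        rw [hn, hr]
        exact of_decide_eq_true hbm
      have e : (x m).act = T m := by
        rw [hx]
        simp only [hbm, if_true]
      rw [e] at h2
      simp only [hbm, if_true] at h2
      have h4 : Real.exp (-(r * (T m).card)) ≤ 3 * Real.exp (-(r * n / 64)) := by
        rw [hT2, ← hn, ← hr]
        rcases min_cases n ⌊θ * Real.log m / r⌋₊ with h5 | h5
        · rw [h5.1]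
          have : Real.exp (-(r * n)) ≤ Real.exp (-(r * n / 64)) := by
            apply Real.exp_le_exp.2
            have : 0 ≤ r * n := by positivity
            linarith
          have := Real.exp_pos (-(r * n / 64))
          linarith
        · rw [h5.1]
          have h6 : θ * Real.log m / r - 1 ≤ (⌊θ * Real.log m / r⌋₊ : ℝ) := by
            linarith [Nat.lt_floor_add_one (θ * Real.log m / r)]
          have h7 : 1 / 16 * Real.log m - 1 / 2 ≤ r * (⌊θ * Real.log m / r⌋₊ : ℝ) := by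
            calc 1 / 16 * Real.log m - 1 / 2 ≤ 1 / 16 * Real.log m - r := by linarith
              _ = r * (θ * Real.log m / r - 1) := by
                  rw [hθ]
                  field_simp
              _ ≤ _ := mul_le_mul_of_nonneg_left h6 fa.le
          have h8 : Real.exp (-(r * (⌊θ * Real.log m / r⌋₊ : ℝ))) ≤ Real.exp (1 / 2 + -(r * n / 64)) := by
            apply Real.exp_le_exp.2
            linarith
          refine h8.trans ?_
          rw [Real.exp_add]
          apply mul_le_mul_of_nonneg_right _ (Real.exp_pos _).le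
          have : Real.exp (1 / 2) ≤ Real.exp 1 := Real.exp_le_exp.2 (by norm_num)
          linarith [Real.exp_one_lt_d9]
      calc (U.card : ℝ) * Real.exp (-(Y / 200)) ≤ 4 * w m * (1 - r) ^ (T m).card := h2
        _ ≤ 4 * w m * Real.exp (-(r * (T m).card)) := mul_le_mul_of_nonneg_left (hexp _) (by positivity)
        _ ≤ 4 * w m * (3 * Real.exp (-(r * n / 64))) := mul_le_mul_of_nonneg_left h4 (by positivity)
        _ = _ := by ring
    · have hgt : 4 * Real.log m < r * n := by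
        rw [hb] at hbm
        rw [hn, hr]
        by_contra hcon
        push Not at hcon
        exact hbm (decide_eq_true hcon)
      have e : (x m).act = St m := by
        rw [hx]
        simp only [hbm, Bool.false_eq_true, if_false]
      rw [e, ← hn] at h2
      simp only [hbm, Bool.false_eq_true, if_false] at h2
      have h4 : (m : ℝ) ^ 2 * Real.exp (-(r * n)) ≤ 12 * Real.exp (-(r * n / 64)) := by
        have e2 : (m : ℝ) ^ 2 = Real.exp (2 * Real.log m) := by
          rw [show 2 * Real.log (m : ℝ) = ((2 : ℕ) : ℝ) * Real.log m by norm_num, ← Real.log_pow,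
            Real.exp_log (by positivity)]
        rw [e2, ← Real.exp_add]
        have : Real.exp (2 * Real.log m + -(r * n)) ≤ Real.exp (-(r * n / 64)) := by
          apply Real.exp_le_exp.2
          linarith
        have := Real.exp_pos (-(r * n / 64))
        linarith
      calc (U.card : ℝ) * Real.exp (-(Y / 200)) ≤ (m : ℝ) ^ 2 * w m * (1 - r) ^ n := h2
        _ ≤ (m : ℝ) ^ 2 * w m * Real.exp (-(r * n)) := mul_le_mul_of_nonneg_left (hexp _) (by positivity)
        _ = w m * ((m : ℝ) ^ 2 * Real.exp (-(r * n))) := by ring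
        _ ≤ w m * (12 * Real.exp (-(r * n / 64))) := mul_le_mul_of_nonneg_left h4 hw0.le
        _ = _ := by ring
  have h7 : Y ≤ r * n := by
    rw [hY]
    apply mul_le_mul_of_nonneg_left _ fa.le
    rw [hn, hSt]
    exact hn'
  have h8 : (U.card : ℝ) * Real.exp (-(Y / 200)) ≤ 12 * w m * Real.exp (-(Y / 64)) := by
    refine h3.trans (mul_le_mul_of_nonneg_left ?_ (by positivity))
    apply Real.exp_le_exp.2
    linarith
  calc (U.card : ℝ) = ((U.card : ℝ) * Real.exp (-(Y / 200))) * Real.exp (Y / 200) := by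
        rw [mul_assoc, ← Real.exp_add]
        simp
    _ ≤ (12 * w m * Real.exp (-(Y / 64))) * Real.exp (Y / 200) := mul_le_mul_of_nonneg_right h8 (Real.exp_pos _).le
    _ = 12 * w m * Real.exp (-(Y / 64) + Y / 200) := by rw [mul_assoc, ← Real.exp_add]
    _ ≤ 12 * w m * Real.exp (-Y / 100) := by
        apply mul_le_mul_of_nonneg_left _ (by positivity)
        apply Real.exp_le_exp.2
        linarith

end Pool.Agent.H563.TG
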