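import Pool.Agent.H563.TG.Alm2

/-!
# Primorial intervals
-/

set_option autoImplicit false

namespace Pool.Agent.H563.TG

open Finset Filter

/-- the primorial -/
noncomputable def prim (n : ℕ) : ℕ := ∏ i ∈ range n, Nat.nth Nat.Prime i

lemma prim_succ (n : ℕ) : prim (n + 1) = prim n * Nat.nth Nat.Prime n := by
  unfold prim
  rw [prod_range_succ]

lemma prim_pos (n : ℕ) : 0 < prim n := by
  unfold prim
  apply prod_pos
  intro i _
  exact (Nat.prime_nth_prime i).pos

lemma prim_fact (n : ℕ) : (n + 1).factorial ≤ prim n := by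
  induction n with
  | zero => simp [prim]
  | succ n ih =>
    rw [prim_succ, Nat.factorial_succ, mul_comm]
    exact Nat.mul_le_mul ih (by have := Nat.add_two_le_nth_prime n; omega)

lemma nth_up (n : ℕ) : Nat.nth Nat.Prime n ≤ 2 ^ (n + 1) := by
  induction n with
  | zero => rw [Nat.nth_prime_zero_eq_two]; norm_num
  | succ n ih =>
    obtain ⟨p, hp1, hp2, hp3⟩ := Nat.exists_prime_lt_and_le_two_mul (Nat.nth Nat.Prime n) (Nat.prime_nth_prime n).pos.ne'
    have h1 : Nat.nth Nat.Prime (Nat.count Nat.Prime p) = p := Nat.nth_count hp1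
    have h2 : n < Nat.count Nat.Prime p := by
      rw [← h1] at hp2
      exact (Nat.nth_strictMono Nat.infinite_setOfPred_prime).lt_iff_lt.1 hp2
    have h3 : Nat.nth Nat.Prime (n + 1) ≤ p := by
      rw [← h1]
      exact (Nat.nth_strictMono Nat.infinite_setOfPred_prime).monotone h2
    rw [pow_succ]
    omega

lemma fact_big : ∀ n : ℕ, 22 ≤ n → 16 * (2 ^ (n + 1)) ^ 3 ≤ (n + 1).factorial := by
  intro n hn
  induction n, hn using Nat.le_induction with
  | base => decide
  | succ n hn ih =>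
    rw [Nat.factorial_succ]
    calc 16 * (2 ^ (n + 1 + 1)) ^ 3 = 8 * (16 * (2 ^ (n + 1)) ^ 3) := by ring
      _ ≤ (n + 1 + 1) * (n + 1).factorial := Nat.mul_le_mul (by omega) ih

lemma prim_low {n : ℕ} (hn : 22 ≤ n) : 16 * prim (n + 1) ^ 3 ≤ prim n ^ 4 := by
  have h1 := nth_up n
  have h2 := fact_big n hn
  have h3 := prim_fact n
  have h4 : Nat.nth Nat.Prime n ^ 3 ≤ (2 ^ (n + 1)) ^ 3 := Nat.pow_le_pow_left h1 3
  calc 16 * prim (n + 1) ^ 3 = prim n ^ 3 * (16 * Nat.nth Nat.Prime n ^ 3) := by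
        rw [prim_succ]
        ring
    _ ≤ prim n ^ 3 * prim n := Nat.mul_le_mul_left _ (by omega)
    _ = prim n ^ 4 := by ring

lemma prim_eleven {n : ℕ} (hn : 9 ≤ n) : 11 * prim n ≤ prim (n + 1) := by
  rw [prim_succ, mul_comm]
  exact Nat.mul_le_mul_left _ (by have := Nat.add_two_le_nth_prime n; omega)

lemma prim_mono : Monotone prim := by
  apply monotone_nat_of_le_succ
  intro n
  rw [prim_succ]
  exact Nat.le_mul_of_pos_right _ (Nat.prime_nth_prime n).pos

lemma prim_seq : ScaleSeq prim (fun m => m - 1) 30 where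
  two := by
    intro n
    unfold prim
    calc 2 ^ n = ∏ _i ∈ range n, 2 := by rw [prod_const, card_range]
      _ ≤ _ := prod_le_prod' (fun i _ => (Nat.prime_nth_prime i).two_le)
  mono := prim_mono
  four := by
    intro n hn
    have := prim_eleven (n := n) (by omega)
    omega
  low := by
    intro m n hm h1 h2
    obtain rfl : m = n + 1 := by omega
    exact prim_low (by omega)
  lt := by
    intro m hm
    omega
  tend := by
    intro n₀
    exact ⟨n₀ + 1, fun m hm => by omega⟩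

lemma prim_even {n : ℕ} (hn : 1 ≤ n) : 2 ∣ prim n := by
  obtain ⟨m, rfl⟩ : ∃ m, n = m + 1 := ⟨n - 1, by omega⟩
  unfold prim
  rw [prod_range_succ']
  rw [Nat.nth_prime_zero_eq_two]
  exact Dvd.intro_left _ rfl

lemma log_prim {n : ℕ} (hn : 22 ≤ n) : Real.log (prim (n + 1)) ≤ 4 / 3 * Real.log (prim n) := by
  have h1 := prim_low hn
  have h2 : (prim (n + 1) : ℝ) ^ 3 ≤ (prim n : ℝ) ^ 4 := by
    have : prim (n + 1) ^ 3 ≤ prim n ^ 4 := by omega
    exact_mod_cast this
  have hp : (0 : ℝ) < prim (n + 1) := by exact_mod_cast prim_pos _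
  have h4 := Real.log_le_log (by positivity) h2
  rw [Real.log_pow, Real.log_pow] at h4
  push_cast at h4
  linarith

/-- the almost prime representations of `m` with `p` in `Q`, in the primorial intervals -/
def repSet (Q : Set ℕ) (n m : ℕ) : Set ℕ :=
  {q | q ∈ Q ∧ prim (n - 1) + 1 ≤ q ∧ q ≤ prim n + 1 ∧ prim (n - 1) + 1 ≤ m - q ∧ m - q ≤ prim (n + 1) + 1 ∧ q < m ∧
    (m - q).primeFactorsList.length ≤ 3 ∧ ∀ l : ℕ, l.Prime → l ∣ (m - q) → (m : ℝ) ^ (0.37 / 4 : ℝ) / 2 ≤ l}

open Classical in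
/-- thin sets in the primorial intervals -/
lemma prim3 : ∃ c : ℝ, 0 < c ∧ ∃ n₀ : ℕ, ∀ k : ℕ → ℕ, (∀ n, k n ^ 2 ≤ prim n) →
    ∃ Q : Set ℕ, (∀ q ∈ Q, q.Prime) ∧ (∀ n, 1 ≤ n → {q | q ∈ Q ∧ prim (n - 1) + 1 ≤ q ∧ q ≤ prim n + 1}.ncard ≤ k n) ∧
      ∀ n, n₀ ≤ n → (((Icc (prim n + 1) (prim (n + 1) + 1)).filter (fun m => 2 ∣ m ∧
          ((repSet Q n m).ncard : ℝ) ≤ c * (k n / Real.log (prim n)))).card : ℝ) ≤
        12 * prim (n + 1) * Real.exp (-(c * (k n / Real.log (prim n)))) := by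
  obtain ⟨c, hc, h⟩ := thin3
  obtain ⟨n₀, m₀, h⟩ := h prim (fun m => m - 1) 30 prim_seq
  refine ⟨c / 2, by positivity, n₀ + m₀ + 30, ?_⟩
  intro k hk
  obtain ⟨g, hg1, hg0, hg2⟩ := h k hk
  obtain ⟨n₁, hn₁⟩ : ∃ n₁, n₁ = n₀ + m₀ + 30 := ⟨_, rfl⟩
  obtain ⟨Q, hQ⟩ : ∃ Q : Set ℕ, Q = {q | ∃ s : ℕ × ℕ, n₁ ≤ s.1 ∧ s.2 < k s.1 ∧ q = g s} := ⟨_, rfl⟩
  have hB : ∀ s : ℕ × ℕ, n₁ ≤ s.1 → s.2 < k s.1 → (g s).Prime ∧ prim s.1 < 8 * g s ∧ 2 * g s < prim s.1 := by
    intro s h1 h2
    exact mem_BP.1 (hg1 s (by omega) h2)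
  refine ⟨Q, ?_, ?_, ?_⟩
  · intro q hq
    rw [hQ] at hq
    obtain ⟨s, h1, h2, rfl⟩ := hq
    exact (hB s h1 h2).1
  · intro n hn
    have hsub : {q | q ∈ Q ∧ prim (n - 1) + 1 ≤ q ∧ q ≤ prim n + 1} ⊆ (((range (k n)).image (fun a => g (n, a)) : Finset ℕ) : Set ℕ) := by
      rintro q ⟨hq, h3, h4⟩
      rw [hQ] at hq
      obtain ⟨s, h1, h2, rfl⟩ := hq
      obtain ⟨h5, h6, h7⟩ := hB s h1 h2
      have h8 : s.1 = n := by
        rcases Nat.lt_trichotomy s.1 n with h | h | h
        · have : prim s.1 ≤ prim (n - 1) := prim_mono (by omega)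
          omega
        · exact h
        · have e1 : prim n ≤ prim (s.1 - 1) := prim_mono (by omega)
          have e2 := prim_eleven (n := s.1 - 1) (by omega)
          rw [show s.1 - 1 + 1 = s.1 by omega] at e2
          have e3 : 2 ^ (s.1 - 1) ≤ prim (s.1 - 1) := prim_seq.two _
          have e4 : 2 ^ 5 ≤ 2 ^ (s.1 - 1) := Nat.pow_le_pow_right (by norm_num) (by omega)
          omega
      rw [mem_coe, mem_image]
      refine ⟨s.2, ?_, ?_⟩
      · rw [mem_range, ← h8]
        exact h2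
      · rw [← h8]
    refine (Set.ncard_le_ncard hsub (finite_toSet _)).trans ?_
    rw [Set.ncard_coe_finset]
    exact card_image_le.trans (by rw [card_range])
  · intro n hn
    rw [← hn₁] at hn
    obtain ⟨h1, h2⟩ := hg2 (n + 1) (by omega)
    have hcard : ((steps k n (n + 1)).card : ℝ) = k n := by
      have : (steps k n (n + 1)).card = k n := by
        unfold steps
        rw [Nat.Ico_succ_singleton, singleton_biUnion, card_image_of_injective _ (fun a b h => by simpa using h), card_range]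
      exact_mod_cast this
    have hlp := log_prim (n := n) (by omega)
    have hp2 : (2 : ℝ) ≤ prim n := by
      have e3 : 2 ^ n ≤ prim n := prim_seq.two _
      have e4 : 2 ^ 1 ≤ 2 ^ n := Nat.pow_le_pow_right (by norm_num) (by omega)
      exact_mod_cast (by omega : 2 ≤ prim n)
    have hl0 : 0 < Real.log (prim n : ℝ) := Real.log_pos (by linarith)
    have hp3 : (prim n : ℝ) ≤ prim (n + 1) := by exact_mod_cast prim_mono (by omega : n ≤ n + 1)
    have hl1 : 0 < Real.log (prim (n + 1) : ℝ) := Real.log_pos (by linarith)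
    have hcmp : c / 2 * (k n / Real.log (prim n)) ≤ c * (k n / Real.log (prim (n + 1))) := by
      have e1 : (k n : ℝ) / Real.log (prim n) ≤ 2 * (k n / Real.log (prim (n + 1))) := by
        rw [mul_div_assoc', div_le_div_iff₀ hl0 hl1]
        have : (0 : ℝ) ≤ k n := Nat.cast_nonneg _
        nlinarith
      calc c / 2 * (k n / Real.log (prim n)) ≤ c / 2 * (2 * (k n / Real.log (prim (n + 1)))) :=
            mul_le_mul_of_nonneg_left e1 (by positivity)
        _ = _ := by ring
    have h3 := h2 (k n) (Nat.cast_nonneg _) (by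
      simp only [Nat.add_sub_cancel]
      rw [hcard])
      ((Icc (prim n + 1) (prim (n + 1) + 1)).filter (fun m => 2 ∣ m ∧
          ((repSet Q n m).ncard : ℝ) ≤ c / 2 * (k n / Real.log (prim n)))) (by
      intro m hm
      rw [mem_filter, mem_Icc] at hm
      have he := prim_even (n := n + 1) (by omega)
      rw [mem_GE, Nat.add_sub_cancel]
      refine ⟨⟨by omega, ?_⟩, hm.2.1⟩
      obtain ⟨u, hu⟩ := he
      obtain ⟨v, hv⟩ := hm.2.1
      omega) (by
      intro m hm B hB' hBh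
      rw [mem_filter, mem_Icc] at hm
      simp only [Nat.add_sub_cancel] at hB'
      have e2 : (B.image g : Finset ℕ).card = B.card := by
        apply card_image_of_injOn
        intro s hs s' hs' he
        have f1 := mem_steps.1 (hB' hs)
        have f2 := mem_steps.1 (hB' hs')
        exact hg0 s s' (by omega) (by omega) f1.2 f2.2 he
      have e3 : ((B.image g : Finset ℕ) : Set ℕ) ⊆ repSet Q n m := by
        intro q hq
        rw [mem_coe, mem_image] at hq
        obtain ⟨s, hs, rfl⟩ := hq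
        obtain ⟨f1, f2⟩ := mem_steps.1 (hB' hs)
        have f3 : s.1 = n := by omega
        obtain ⟨f4, f5, f6⟩ := hB s (by omega) f2
        rw [f3] at f5 f6
        obtain ⟨f7, f8, f9⟩ := hBh s hs
        have f10 := prim_eleven (n := n - 1) (by omega)
        rw [show n - 1 + 1 = n by omega] at f10
        have f11 := prim_pos (n - 1)
        refine ⟨?_, by omega, by omega, by omega, by omega, f7, f8, f9⟩
        rw [hQ]
        exact ⟨s, by omega, f2, rfl⟩
      have e4 : B.card ≤ (repSet Q n m).ncard := by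
        rw [← e2, ← Set.ncard_coe_finset]
        exact Set.ncard_le_ncard e3 ((Set.finite_lt_nat m).subset (fun q hq => hq.2.2.2.2.2.1))
      have e5 : (B.card : ℝ) ≤ (repSet Q n m).ncard := by exact_mod_cast e4
      exact e5.trans (hm.2.2.trans hcmp))
    refine h3.trans ?_
    apply mul_le_mul_of_nonneg_left _ (by positivity)
    apply Real.exp_le_exp.2
    linarith

end Pool.Agent.H563.TG
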