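import Pool.Agent.H563.TG.Prim

/-!
# Every even number of the primorial intervals
-/

set_option autoImplicit false

namespace Pool.Agent.H563.TG

open Finset Filter

/-- all even numbers of the primorial intervals -/
lemma prim3_all (B : ℝ) (hB : 0 < B) : ∃ K : ℝ, ∃ Q : Set ℕ, (∀ q ∈ Q, q.Prime) ∧
    (∀ n, 1 ≤ n → ({q | q ∈ Q ∧ prim (n - 1) + 1 ≤ q ∧ q ≤ prim n + 1}.ncard : ℝ) ≤ K * Real.log (prim n) ^ 2) ∧
    ∃ n₀ : ℕ, ∀ n, n₀ ≤ n → ∀ m, prim n + 1 ≤ m → m ≤ prim (n + 1) + 1 → 2 ∣ m →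
      B * Real.log m ≤ ((repSet Q n m).ncard : ℝ) := by
  classical
  obtain ⟨c, hc, n₀, h⟩ := prim3
  obtain ⟨D, hD⟩ : ∃ D : ℝ, D = 6 + 4 * B := ⟨_, rfl⟩
  obtain ⟨K₀, hK₀⟩ : ∃ K₀ : ℝ, K₀ = D / c := ⟨_, rfl⟩
  have hD0 : 0 < D := by rw [hD]; positivity
  have hK₀0 : 0 < K₀ := by rw [hK₀]; positivity
  have ev := (isLittleO_log_rpow_atTop (show (0 : ℝ) < 1 / 4 by norm_num)).bound (show 0 < 1 / Real.sqrt (K₀ + 1) by positivity)
  have ev2 := Real.tendsto_log_atTop.eventually_ge_atTop 12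
  obtain ⟨x₀, hx₀⟩ := eventually_atTop.1 (ev.and ev2)
  obtain ⟨n₁, hn₁⟩ : ∃ n₁, n₁ = ⌈x₀⌉₊ + n₀ + 30 := ⟨_, rfl⟩
  have hlarge : ∀ n, n₁ ≤ n → (K₀ + 1) * Real.log (prim n) ^ 2 ≤ Real.sqrt (prim n) ∧ 12 ≤ Real.log (prim n) ∧ (0 : ℝ) < prim n := by
    intro n hn
    have h1 : n < 2 ^ n := Nat.lt_two_pow_self
    have h2 := prim_seq.two n
    have h3 : x₀ ≤ prim n := (Nat.le_ceil x₀).trans (by exact_mod_cast (by omega : ⌈x₀⌉₊ ≤ prim n))
    obtain ⟨h4, h5⟩ := hx₀ _ h3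
    have hp : (0 : ℝ) < prim n := by exact_mod_cast prim_pos n
    refine ⟨?_, h5, hp⟩
    rw [Real.norm_eq_abs, Real.norm_eq_abs, abs_of_nonneg (by linarith), abs_of_nonneg (by positivity)] at h4
    have h6 : Real.log (prim n) ^ 2 ≤ (1 / Real.sqrt (K₀ + 1) * (prim n : ℝ) ^ (1 / 4 : ℝ)) ^ 2 :=
      pow_le_pow_left₀ (by linarith) h4 2
    calc (K₀ + 1) * Real.log (prim n) ^ 2 ≤ (K₀ + 1) * (1 / Real.sqrt (K₀ + 1) * (prim n : ℝ) ^ (1 / 4 : ℝ)) ^ 2 :=
          mul_le_mul_of_nonneg_left h6 (by positivity)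
      _ = Real.sqrt (prim n) := by
          rw [mul_pow, div_pow, one_pow, Real.sq_sqrt (by positivity), ← Real.rpow_natCast, ← Real.rpow_mul (by positivity),
            Real.sqrt_eq_rpow, ← mul_assoc, mul_one_div_cancel (by positivity), one_mul]
          norm_num
  obtain ⟨k, hk⟩ : ∃ k : ℕ → ℕ, k = fun n => if n₁ ≤ n then ⌈K₀ * Real.log (prim n) ^ 2⌉₊ else 0 := ⟨_, rfl⟩
  have hk1 : ∀ n, n₁ ≤ n → K₀ * Real.log (prim n) ^ 2 ≤ k n ∧ (k n : ℝ) ≤ (K₀ + 1) * Real.log (prim n) ^ 2 := by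
    intro n hn
    obtain ⟨_, h2, _⟩ := hlarge n hn
    rw [hk]
    simp only
    rw [if_pos hn]
    refine ⟨Nat.le_ceil _, ?_⟩
    have h3 := Nat.ceil_lt_add_one (show 0 ≤ K₀ * Real.log (prim n) ^ 2 by positivity)
    nlinarith
  have hk2 : ∀ n, n < n₁ → k n = 0 := by
    intro n hn
    rw [hk]
    simp only
    rw [if_neg (by omega)]
  obtain ⟨Q, hQ1, hQ2, hQ3⟩ := h k (by
    intro n
    by_cases hn : n₁ ≤ n
    · obtain ⟨h1, h2, h3⟩ := hlarge n hn
      have h4 := (hk1 n hn).2.trans h1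
      have h5 : (k n : ℝ) ^ 2 ≤ prim n := by
        calc (k n : ℝ) ^ 2 ≤ Real.sqrt (prim n) ^ 2 := pow_le_pow_left₀ (Nat.cast_nonneg _) h4 2
          _ = prim n := Real.sq_sqrt h3.le
      exact_mod_cast h5
    · rw [hk2 n (by omega)]
      simp)
  refine ⟨K₀ + 1, Q, hQ1, ?_, n₁, ?_⟩
  · intro n hn
    have h1 := hQ2 n hn
    have h2 : ({q | q ∈ Q ∧ prim (n - 1) + 1 ≤ q ∧ q ≤ prim n + 1}.ncard : ℝ) ≤ k n := by exact_mod_cast h1
    refine h2.trans ?_
    by_cases hn' : n₁ ≤ n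
    · exact (hk1 n hn').2
    · rw [hk2 n (by omega)]
      push_cast
      positivity
  · intro n hn m hm1 hm2 hm3
    obtain ⟨h1, h2, h3⟩ := hlarge n hn
    have h4 := hQ3 n (by omega)
    have h5 := (hk1 n hn).1
    have hlp := log_prim (n := n) (by omega)
    have h6 : D * Real.log (prim n) ≤ c * (k n / Real.log (prim n)) := by
      rw [mul_div_assoc', le_div_iff₀ (by linarith)]
      calc D * Real.log (prim n) * Real.log (prim n) = c * (K₀ * Real.log (prim n) ^ 2) := by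
            rw [hK₀]
            field_simp
        _ ≤ c * k n := mul_le_mul_of_nonneg_left h5 hc.le
    have h7 : 12 * (prim (n + 1) : ℝ) * Real.exp (-(c * (k n / Real.log (prim n)))) < 1 := by
      have hp : (0 : ℝ) < prim (n + 1) := by exact_mod_cast prim_pos _
      have e1 : (prim (n + 1) : ℝ) = Real.exp (Real.log (prim (n + 1))) := (Real.exp_log hp).symm
      have e2 : (12 : ℝ) ≤ Real.exp 12 := by linarith [Real.add_one_le_exp (12 : ℝ)]
      calc 12 * (prim (n + 1) : ℝ) * Real.exp (-(c * (k n / Real.log (prim n)))) ≤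
            Real.exp 12 * Real.exp (Real.log (prim (n + 1))) * Real.exp (-(c * (k n / Real.log (prim n)))) := by
            rw [← e1]
            gcongr
        _ = Real.exp (12 + Real.log (prim (n + 1)) + -(c * (k n / Real.log (prim n)))) := by
            rw [Real.exp_add, Real.exp_add]
        _ < Real.exp 0 := by
            apply Real.exp_lt_exp.2
            nlinarith
        _ = 1 := Real.exp_zero
    have h8 : ((Icc (prim n + 1) (prim (n + 1) + 1)).filter (fun m => 2 ∣ m ∧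
          ((repSet Q n m).ncard : ℝ) ≤ c * (k n / Real.log (prim n)))).card = 0 := by
      have := lt_of_le_of_lt h4 h7
      have h9 : ((Icc (prim n + 1) (prim (n + 1) + 1)).filter (fun m => 2 ∣ m ∧
          ((repSet Q n m).ncard : ℝ) ≤ c * (k n / Real.log (prim n)))).card < 1 := by exact_mod_cast this
      omega
    rw [card_eq_zero] at h8
    have h9 : ¬ ((repSet Q n m).ncard : ℝ) ≤ c * (k n / Real.log (prim n)) := by
      intro hcon
      have : m ∈ (Icc (prim n + 1) (prim (n + 1) + 1)).filter (fun m => 2 ∣ m ∧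
          ((repSet Q n m).ncard : ℝ) ≤ c * (k n / Real.log (prim n))) := by
        rw [mem_filter, mem_Icc]
        exact ⟨⟨hm1, hm2⟩, hm3, hcon⟩
      rw [h8] at this
      simp at this
    push Not at h9
    have hmp : m ≤ prim (n + 1) := by
      have he := prim_even (n := n + 1) (by omega)
      obtain ⟨u, hu⟩ := he
      obtain ⟨v, hv⟩ := hm3
      omega
    have hm0 : (0 : ℝ) < m := by exact_mod_cast (by omega : 0 < m)
    have h10 : Real.log m ≤ Real.log (prim (n + 1)) := Real.log_le_log hm0 (by exact_mod_cast hmp)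
    have h11 : B * Real.log m ≤ D * Real.log (prim n) := by
      have h12 : Real.log m ≤ 4 / 3 * Real.log (prim n) := h10.trans hlp
      have h13 : B * Real.log m ≤ B * (4 / 3 * Real.log (prim n)) := mul_le_mul_of_nonneg_left h12 hB.le
      rw [hD]
      nlinarith
    linarith

end Pool.Agent.H563.TG
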