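import Pool.Agent.H563.TG.PrimP
import Pool.Graph.R_pool_sql_team_seeded_63374d34.Results.MP_61161c_nt.AllMultiples

/-!
# Primorial intervals: the number of the primes is necessary
-/

set_option autoImplicit false

namespace Pool.Agent.H563.TG

open Finset Filter

/-- few primes are not enough -/
lemma primN (A : ℝ) (hA : 1 ≤ A) : ∃ ε : ℝ, 0 < ε ∧ ∃ n₀ : ℕ, ∀ n, n₀ ≤ n → ∀ Q : Set ℕ, (∀ q ∈ Q, q.Prime) →
    ({q | q ∈ Q ∧ prim (n - 1) + 1 ≤ q ∧ q ≤ prim n + 1}.ncard : ℝ) ≤ A * Real.log (prim n) →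
    ε * prim (n + 1) ≤ ({m | prim n + 1 ≤ m ∧ m ≤ prim (n + 1) + 1 ∧ 2 ∣ m ∧ repSetP Q n m = ∅}.ncard : ℝ) := by
  classical
  obtain ⟨C, hC, h⟩ := Pool.Agent.Results.MP_61161c_nt.AllMultiples.result
  obtain ⟨X₀, hX₀⟩ := h 1 (2 * A) 1 le_rfl (by linarith) one_pos le_rfl
  obtain ⟨ε, hε⟩ : ∃ ε : ℝ, ε = Real.exp (-Real.exp (C * ((1 : ℕ) : ℝ) ^ 2 * (2 * A) / 1)) / 2 := ⟨_, rfl⟩
  have hε0 : 0 < ε := by rw [hε]; positivity
  refine ⟨ε, hε0, 2 * ⌈X₀⌉₊ + 30, ?_⟩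
  intro n hn Q hQ hQc
  have hp := prim_eleven (n := n) (by omega)
  have h2n := prim_seq.two n
  have hn2 : n < 2 ^ n := Nat.lt_two_pow_self
  have hpn : 30 ≤ prim n := by omega
  obtain ⟨X, hX⟩ : ∃ X : ℝ, X = (prim (n + 1) : ℝ) / 2 := ⟨_, rfl⟩
  have hpr : (11 : ℝ) * prim n ≤ prim (n + 1) := by exact_mod_cast hp
  have hpnr : (30 : ℝ) ≤ prim n := by exact_mod_cast hpn
  have hX1 : X₀ ≤ X := by
    have h3 : X₀ ≤ ⌈X₀⌉₊ := Nat.le_ceil _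
    have h4 : ((2 * ⌈X₀⌉₊ : ℕ) : ℝ) ≤ prim n := by exact_mod_cast (by omega : 2 * ⌈X₀⌉₊ ≤ prim n)
    push_cast at h4
    rw [hX]
    linarith
  obtain ⟨S, hS⟩ : ∃ S : Set ℕ, S = {q | q ∈ Q ∧ prim (n - 1) + 1 ≤ q ∧ q ≤ prim n + 1} := ⟨_, rfl⟩
  have hSf : S.Finite := by
    apply (Set.finite_lt_nat (prim n + 2)).subset
    intro q hq
    rw [hS] at hq
    have := hq.2.2
    show q < prim n + 2
    omega
  have h3 := hX₀ X hX1 hSf.toFinset (by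
    intro p hp
    rw [Set.Finite.mem_toFinset, hS] at hp
    refine ⟨hQ p hp.1, ?_⟩
    have : (p : ℝ) ≤ prim n + 1 := by exact_mod_cast hp.2.2
    rw [hX]
    linarith) (by
    rw [← Set.ncard_eq_toFinset_card S hSf, hS]
    refine hQc.trans ?_
    have h4 : Real.log (prim n) ≤ 2 * Real.log X := by
      have h5 : Real.log (prim n) ≤ Real.log X := Real.log_le_log (by linarith) (by rw [hX]; linarith)
      have h6 : 0 ≤ Real.log (X : ℝ) := Real.log_nonneg (by rw [hX]; linarith)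
      linarith
    nlinarith)
  rw [Real.rpow_one] at h3
  have h4 : ε * prim (n + 1) = X * Real.exp (-Real.exp (C * ((1 : ℕ) : ℝ) ^ 2 * (2 * A) / 1)) := by
    rw [hε, hX]
    ring
  rw [h4]
  refine h3.trans ?_
  have hsub : {N : ℕ | Even N ∧ X < N ∧ (N : ℝ) ≤ X + X ∧ ∀ j : ℕ, 1 ≤ j → j ≤ 1 → ∀ p ∈ hSf.toFinset, ¬ (j * N - p).Prime} ⊆
      {m | prim n + 1 ≤ m ∧ m ≤ prim (n + 1) + 1 ∧ 2 ∣ m ∧ repSetP Q n m = ∅} := by
    rintro N ⟨h5, h6, h7, h8⟩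
    have h9 : (prim n : ℝ) < N := by rw [hX] at h6; linarith
    have h10 : (N : ℝ) ≤ prim (n + 1) := by rw [hX] at h7; linarith
    have h9' : prim n < N := by exact_mod_cast h9
    have h10' : N ≤ prim (n + 1) := by exact_mod_cast h10
    refine ⟨h9', by omega, even_iff_two_dvd.1 h5, ?_⟩
    rw [Set.eq_empty_iff_forall_notMem]
    rintro q ⟨g1, g2, g3, g4, g5, g6, g7, g8⟩
    have h11 := h8 1 le_rfl le_rfl q (by
      rw [Set.Finite.mem_toFinset, hS]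
      exact ⟨g1, g2, g3⟩)
    rw [one_mul] at h11
    exact h11 g7
  have hfin : {m | prim n + 1 ≤ m ∧ m ≤ prim (n + 1) + 1 ∧ 2 ∣ m ∧ repSetP Q n m = ∅}.Finite := by
    apply (Set.finite_lt_nat (prim (n + 1) + 2)).subset
    intro m hm
    have := hm.2.1
    show m < prim (n + 1) + 2
    omega
  exact_mod_cast Set.ncard_le_ncard hsub hfin

end Pool.Agent.H563.TG
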