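import Pool.Agent.H563.TG.Prim2
import Pool.Agent.H561.C4.B10

/-!
# Primorial intervals, sums of two primes
-/

set_option autoImplicit false

namespace Pool.Agent.H563.TG

open Finset Filter
open Pool.Agent.H561.C4 (HoldsA)

/-- `N - q` is a prime different from `q` -/
def hitP (N q : ℕ) : Prop := q < N ∧ (N - q).Prime ∧ q ≠ N - q

lemma hitP_low : ∃ x₀ : ℕ, ∀ a b N : ℕ, x₀ ≤ a → 16 * b ^ 3 ≤ a ^ 4 → a ≤ N → N ≤ b → 2 ∣ N → HoldsA (1 / 2) (1 / 8) 1 N →
    ∀ Q : Finset ℕ, (∀ q ∈ BP a, hitP N q → q ∈ Q) → (1 / 8 : ℝ) * (a / Real.log b ^ 2) ≤ Q.card := by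
  refine ⟨64, ?_⟩
  intro a b N ha hab haN hNb _ hH Q hQ
  have har : (64 : ℝ) ≤ a := by exact_mod_cast ha
  have hNr : (64 : ℝ) ≤ N := by exact_mod_cast ha.trans haN
  have hbr : (N : ℝ) ≤ b := by exact_mod_cast hNb
  have haNr : (a : ℝ) ≤ N := by exact_mod_cast haN
  have hlogN : 2 ≤ Real.log (N : ℝ) := by
    rw [Real.le_log_iff_exp_le (by linarith)]
    have : Real.exp 2 = Real.exp 1 * Real.exp 1 := by rw [← Real.exp_add]; norm_num
    rw [this]
    have h1 := Real.exp_one_lt_d9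
    have h2 := Real.exp_pos 1
    nlinarith
  obtain ⟨v, hv⟩ : ∃ v : ℝ, v = ((a : ℝ) - 1) / 2 := ⟨_, rfl⟩
  have hh := hH ((a : ℝ) / 8) v (by positivity) (by
    have h3 : (N : ℝ) ^ 3 ≤ (a : ℝ) ^ 4 := by
      have h1 : (16 : ℝ) * b ^ 3 ≤ a ^ 4 := by exact_mod_cast hab
      have : (N : ℝ) ^ 3 ≤ b ^ 3 := pow_le_pow_left₀ (by linarith) hbr 3
      have : (0 : ℝ) ≤ b ^ 3 := by positivity
      linarith
    have h4 : (N : ℝ) ^ (1 / 4 + 1 / 8 : ℝ) ≤ (a : ℝ) ^ (1 / 2 : ℝ) := by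
      calc (N : ℝ) ^ (1 / 4 + 1 / 8 : ℝ) = ((N : ℝ) ^ 3) ^ (1 / 8 : ℝ) := by
            rw [← Real.rpow_natCast, ← Real.rpow_mul (by linarith)]
            norm_num
        _ ≤ ((a : ℝ) ^ 4) ^ (1 / 8 : ℝ) := Real.rpow_le_rpow (by positivity) h3 (by norm_num)
        _ = (a : ℝ) ^ (1 / 2 : ℝ) := by
            rw [← Real.rpow_natCast, ← Real.rpow_mul (by positivity)]
            norm_num
    refine h4.trans ?_
    rw [← Real.sqrt_eq_rpow, Real.sqrt_le_left (by rw [hv]; linarith), hv]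
    nlinarith) (by rw [hv]; linarith) (by
    rw [pow_one, div_le_iff₀ (by linarith), hv]
    nlinarith)
  obtain ⟨Mn, hMn⟩ : ∃ Mn, Mn = Pool.Agent.H560R3.GB.sing N * (v - a / 8) / (Real.log v * Real.log N) := ⟨_, rfl⟩
  rw [← hMn, abs_le] at hh
  have hsing := Pool.Agent.W93.GB.one_le_sing N
  have hlogb : Real.log (N : ℝ) ≤ Real.log b := Real.log_le_log (by linarith) hbr
  have hv1 : (1 : ℝ) < v := by rw [hv]; linarith
  have hlv0 : 0 < Real.log v := Real.log_pos hv1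
  have hlv : Real.log v ≤ Real.log b := Real.log_le_log (by linarith) (by rw [hv]; linarith)
  have hMn2 : (a : ℝ) / 4 / Real.log b ^ 2 ≤ Mn := by
    rw [hMn]
    have h1 : Real.log v * Real.log N ≤ Real.log b ^ 2 := by
      rw [sq]
      exact mul_le_mul hlv hlogb (by linarith) (by linarith)
    have h2 : (a : ℝ) / 4 ≤ Pool.Agent.H560R3.GB.sing N * (v - a / 8) := by
      have h3 : (a : ℝ) / 4 ≤ v - a / 8 := by rw [hv]; linarith
      nlinarith
    have h0 : 0 < Real.log v * Real.log N := by positivity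
    calc (a : ℝ) / 4 / Real.log b ^ 2 ≤ (a : ℝ) / 4 / (Real.log v * Real.log N) :=
          div_le_div_of_nonneg_left (by positivity) h0 h1
      _ ≤ _ := div_le_div_of_nonneg_right h2 h0.le
  have hdist : Pool.Agent.R460.GH.dist N ((a : ℝ) / 8) v ≤ Q.card := by
    unfold Pool.Agent.R460.GH.dist
    apply card_le_card
    intro p hp
    rw [mem_filter, mem_range] at hp
    obtain ⟨_, h2, h3, h4, h5, h6⟩ := hp
    have h8 : p < N := by
      by_contra hcon
      push Not at hcon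
      rw [Nat.sub_eq_zero_of_le hcon] at h3
      exact Nat.not_prime_zero h3
    apply hQ
    · rw [mem_BP]
      refine ⟨h2, ?_, ?_⟩
      · have : (a : ℝ) < 8 * p := by linarith
        exact_mod_cast this
      · have : (2 : ℝ) * p < a := by rw [hv] at h6; linarith
        exact_mod_cast this
    · exact ⟨h8, h3, h4⟩
  have hdr : (Pool.Agent.R460.GH.dist N ((a : ℝ) / 8) v : ℝ) ≤ Q.card := by exact_mod_cast hdist
  have e : (1 / 8 : ℝ) * (a / Real.log b ^ 2) = 1 / 2 * ((a : ℝ) / 4 / Real.log b ^ 2) := by ring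
  rw [e]
  linarith [hh.1]

lemma pi_up : ∃ b₀ : ℕ, ∀ b : ℕ, b₀ ≤ b → (Nat.primeCounting b : ℝ) ≤ 4 * (b / Real.log b) := by
  have ev := Chebyshev.eventually_primeCounting_le (show (0 : ℝ) < 1 / 2 by norm_num)
  obtain ⟨x₀, hx₀⟩ := eventually_atTop.1 ev
  refine ⟨⌈x₀⌉₊ + 3, ?_⟩
  intro a ha
  have h1 := hx₀ a ((Nat.le_ceil _).trans (by exact_mod_cast (by omega : ⌈x₀⌉₊ ≤ a)))
  rw [Nat.floor_natCast] at h1
  have ha3 : (3 : ℝ) ≤ a := by exact_mod_cast (by omega : 3 ≤ a)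
  have hlog : 0 < Real.log (a : ℝ) := Real.log_pos (by linarith)
  refine h1.trans ?_
  have hl4 : Real.log 4 = 2 * Real.log 2 := by
    rw [show (4 : ℝ) = 2 ^ 2 by norm_num, Real.log_pow]
    push_cast
    ring
  have hl2' := Real.log_two_lt_d9
  rw [hl4, mul_div_assoc]
  apply mul_le_mul_of_nonneg_right _ (by positivity)
  linarith

lemma hitP_up : ∃ b₀ : ℕ, ∀ b a : ℕ, b₀ ≤ b → b ≤ a ^ 2 → ∀ q, ∀ V : Finset ℕ, (∀ N ∈ V, a ≤ N ∧ N ≤ b) →
      (∀ N ∈ V, hitP N q) → (V.card : ℝ) ≤ 4 * (b / Real.log b) := by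
  classical
  obtain ⟨b₀, h⟩ := pi_up
  refine ⟨b₀, ?_⟩
  intro b a hb _ q V hV hVq
  refine le_trans ?_ (h b hb)
  have h2 : V.card ≤ Nat.primeCounting b := by
    unfold Nat.primeCounting Nat.primeCounting'
    rw [Nat.count_eq_card_filter_range]
    apply card_le_card_of_injOn (fun N => N - q)
    · intro N hN
      have h3 := hVq N (mem_coe.1 hN)
      have h4 := (hV N (mem_coe.1 hN)).2
      rw [mem_coe, mem_filter, mem_range]
      dsimp only
      exact ⟨by omega, h3.2.1⟩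
    · intro N hN N' hN' hNN
      have h3 := (hVq N (mem_coe.1 hN)).1
      have h4 := (hVq N' (mem_coe.1 hN')).1
      simp only at hNN
      omega
  exact_mod_cast h2

/-- the prime representations of `m` with `p` in `Q`, in the primorial intervals -/
def repSetP (Q : Set ℕ) (n m : ℕ) : Set ℕ :=
  {q | q ∈ Q ∧ prim (n - 1) + 1 ≤ q ∧ q ≤ prim n + 1 ∧ prim (n - 1) + 1 ≤ m - q ∧ m - q ≤ prim (n + 1) + 1 ∧ q < m ∧
    (m - q).Prime ∧ q ≠ m - q}

open Classical in
/-- thin sets in the primorial intervals -/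
lemma primP : ∃ c : ℝ, 0 < c ∧ ∃ n₀ : ℕ → ℕ, ∀ k : ℕ → ℕ, (∀ n, k n ^ 2 ≤ prim n) →
    ∃ Q : Set ℕ, (∀ q ∈ Q, q.Prime) ∧ (∀ n, 1 ≤ n → {q | q ∈ Q ∧ prim (n - 1) + 1 ≤ q ∧ q ≤ prim n + 1}.ncard ≤ k n) ∧
      ∀ A n, n₀ A ≤ n → (((Icc (prim n + 1) (prim (n + 1) + 1)).filter (fun m => 2 ∣ m ∧
          ((repSetP Q n m).ncard : ℝ) ≤ c * (k n / Real.log (prim n)))).card : ℝ) ≤
        prim (n + 1) * (12 * Real.exp (-(c * (k n / Real.log (prim n)))) + 1 / Real.log (prim (n + 1)) ^ A) := by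
  obtain ⟨x₁, hlow⟩ := hitP_low
  obtain ⟨b₀, hup⟩ := hitP_up
  obtain ⟨c, hc, h⟩ := thinG hitP (fun N => HoldsA (1 / 2) (1 / 8) 1 N) (1 / 8) 4 x₁ b₀ (by norm_num) (by norm_num) hlow hup
  obtain ⟨n₀, m₀, h⟩ := h prim (fun m => m - 1) 30 prim_seq
  have hall := Pool.Agent.H561.C4.allA (1 / 2) (1 / 8) (by norm_num) (by norm_num) 1
  choose X₁ hX₁ using hall
  refine ⟨c / 2, by positivity, fun A => n₀ + m₀ + 30 + X₁ A, ?_⟩
  intro k hk
  obtain ⟨g, hg1, hg0, hg2⟩ := h k hk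
  obtain ⟨n₁, hn₁⟩ : ∃ n₁, n₁ = n₀ + m₀ + 30 := ⟨_, rfl⟩
  obtain ⟨Q, hQ⟩ : ∃ Q : Set ℕ, Q = {q | ∃ s : ℕ × ℕ, n₁ ≤ s.1 ∧ s.2 < k s.1 ∧ q = g s} := ⟨_, rfl⟩
  have hB : ∀ s : ℕ × ℕ, n₁ ≤ s.1 → s.2 < k s.1 → (g s).Prime ∧ prim s.1 < 8 * g s ∧ 2 * g s < prim s.1 := by
    intro s h1 h2
    exact mem_BP.1 (hg1 s (by omega) h2)
  refine ⟨Q, ?_, ?_, ?_⟩
  · intro q hq
    rw [hQ] at hq
    obtain ⟨s, h1, h2, rfl⟩ := hq
    exact (hB s h1 h2).1
  · intro n hn
    have hsub : {q | q ∈ Q ∧ prim (n - 1) + 1 ≤ q ∧ q ≤ prim n + 1} ⊆ (((range (k n)).image (fun a => g (n, a)) : Finset ℕ) : Set ℕ) := by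
      rintro q ⟨hq, h3, h4⟩
      rw [hQ] at hq
      obtain ⟨s, h1, h2, rfl⟩ := hq
      obtain ⟨h5, h6, h7⟩ := hB s h1 h2
      have h8 : s.1 = n := by
        rcases Nat.lt_trichotomy s.1 n with h | h | h
        · have : prim s.1 ≤ prim (n - 1) := prim_mono (by omega)
          omega
        · exact h
        · have e1 : prim n ≤ prim (s.1 - 1) := prim_mono (by omega)
          have e2 := prim_eleven (n := s.1 - 1) (by omega)
          rw [show s.1 - 1 + 1 = s.1 by omega] at e2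
          have e3 : 2 ^ (s.1 - 1) ≤ prim (s.1 - 1) := prim_seq.two _
          have e4 : 2 ^ 5 ≤ 2 ^ (s.1 - 1) := Nat.pow_le_pow_right (by norm_num) (by omega)
          omega
      rw [mem_coe, mem_image]
      refine ⟨s.2, ?_, ?_⟩
      · rw [mem_range, ← h8]
        exact h2
      · rw [← h8]
    refine (Set.ncard_le_ncard hsub (finite_toSet _)).trans ?_
    rw [Set.ncard_coe_finset]
    exact card_image_le.trans (by rw [card_range])
  · intro A n hn
    have hn' : n₁ + X₁ A ≤ n := by rw [hn₁]; exact hn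
    obtain ⟨h1, h2⟩ := hg2 (n + 1) (by omega)
    have hcard : ((steps k n (n + 1)).card : ℝ) = k n := by
      have : (steps k n (n + 1)).card = k n := by
        unfold steps
        rw [Nat.Ico_succ_singleton, singleton_biUnion, card_image_of_injective _ (fun a b h => by simpa using h), card_range]
      exact_mod_cast this
    have hlp := log_prim (n := n) (by omega)
    have hp2 : (2 : ℝ) ≤ prim n := by
      have e3 : 2 ^ n ≤ prim n := prim_seq.two _
      have e4 : 2 ^ 1 ≤ 2 ^ n := Nat.pow_le_pow_right (by norm_num) (by omega)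
      exact_mod_cast (by omega : 2 ≤ prim n)
    have hl0 : 0 < Real.log (prim n : ℝ) := Real.log_pos (by linarith)
    have hp3 : (prim n : ℝ) ≤ prim (n + 1) := by exact_mod_cast prim_mono (by omega : n ≤ n + 1)
    have hl1 : 0 < Real.log (prim (n + 1) : ℝ) := Real.log_pos (by linarith)
    have hcmp : c / 2 * (k n / Real.log (prim n)) ≤ c * (k n / Real.log (prim (n + 1))) := by
      have e1 : (k n : ℝ) / Real.log (prim n) ≤ 2 * (k n / Real.log (prim (n + 1))) := by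
        rw [mul_div_assoc', div_le_div_iff₀ hl0 hl1]
        have : (0 : ℝ) ≤ k n := Nat.cast_nonneg _
        nlinarith
      calc c / 2 * (k n / Real.log (prim n)) ≤ c / 2 * (2 * (k n / Real.log (prim (n + 1)))) :=
            mul_le_mul_of_nonneg_left e1 (by positivity)
        _ = _ := by ring
    obtain ⟨V, hV⟩ : ∃ V, V = (Icc (prim n + 1) (prim (n + 1) + 1)).filter (fun m => 2 ∣ m ∧
          ((repSetP Q n m).ncard : ℝ) ≤ c / 2 * (k n / Real.log (prim n))) := ⟨_, rfl⟩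
    rw [← hV]
    have hVm : ∀ m ∈ V, prim n < m ∧ m ≤ prim (n + 1) ∧ 2 ∣ m := by
      intro m hm
      rw [hV, mem_filter, mem_Icc] at hm
      have he := prim_even (n := n + 1) (by omega)
      refine ⟨by omega, ?_, hm.2.1⟩
      obtain ⟨u, hu⟩ := he
      obtain ⟨v, hv⟩ := hm.2.1
      omega
    have h3 := h2 (k n) (Nat.cast_nonneg _) (by
      simp only [Nat.add_sub_cancel]
      rw [hcard])
      (V.filter (fun m => HoldsA (1 / 2) (1 / 8) 1 m)) (by
      intro m hm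
      rw [mem_filter] at hm
      obtain ⟨e1, e2, e3⟩ := hVm m hm.1
      rw [mem_GE, Nat.add_sub_cancel]
      exact ⟨⟨e1, e2⟩, e3⟩) (fun m hm => (mem_filter.1 hm).2) (by
      intro m hm B hB' hBh
      have hm := (mem_filter.1 hm).1
      rw [hV, mem_filter, mem_Icc] at hm
      simp only [Nat.add_sub_cancel] at hB'
      have e2 : (B.image g : Finset ℕ).card = B.card := by
        apply card_image_of_injOn
        intro s hs s' hs' he
        have f1 := mem_steps.1 (hB' hs)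
        have f2 := mem_steps.1 (hB' hs')
        exact hg0 s s' (by omega) (by omega) f1.2 f2.2 he
      have e3 : ((B.image g : Finset ℕ) : Set ℕ) ⊆ repSetP Q n m := by
        intro q hq
        rw [mem_coe, mem_image] at hq
        obtain ⟨s, hs, rfl⟩ := hq
        obtain ⟨f1, f2⟩ := mem_steps.1 (hB' hs)
        have f3 : s.1 = n := by omega
        obtain ⟨f4, f5, f6⟩ := hB s (by omega) f2
        rw [f3] at f5 f6
        obtain ⟨f7, f8, f9⟩ := hBh s hs
        have f10 := prim_eleven (n := n - 1) (by omega)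
        rw [show n - 1 + 1 = n by omega] at f10
        have f11 := prim_pos (n - 1)
        refine ⟨?_, by omega, by omega, by omega, by omega, f7, f8, f9⟩
        rw [hQ]
        exact ⟨s, by omega, f2, rfl⟩
      have e4 : B.card ≤ (repSetP Q n m).ncard := by
        rw [← e2, ← Set.ncard_coe_finset]
        exact Set.ncard_le_ncard e3 ((Set.finite_lt_nat m).subset (fun q hq => hq.2.2.2.2.2.1))
      have e5 : (B.card : ℝ) ≤ (repSetP Q n m).ncard := by exact_mod_cast e4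
      exact e5.trans (hm.2.2.trans hcmp))
    have h4 : ((V.filter (fun m => ¬ HoldsA (1 / 2) (1 / 8) 1 m)).card : ℝ) ≤ prim (n + 1) / Real.log (prim (n + 1)) ^ A := by
      have hp : X₁ A ≤ prim (n + 1) := by
        have e1 : n + 1 < 2 ^ (n + 1) := Nat.lt_two_pow_self
        have e2 := prim_seq.two (n + 1)
        omega
      refine le_trans ?_ (hX₁ A (prim (n + 1)) hp)
      exact_mod_cast card_le_card (by
        intro m hm
        rw [mem_filter] at hm
        obtain ⟨e1, e2, e3⟩ := hVm m hm.1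
        rw [mem_filter, mem_Icc]
        exact ⟨⟨by omega, e2⟩, e3, hm.2⟩)
    have h5 : (V.card : ℝ) = ((V.filter (fun m => HoldsA (1 / 2) (1 / 8) 1 m)).card : ℝ) +
        (V.filter (fun m => ¬ HoldsA (1 / 2) (1 / 8) 1 m)).card := by
      exact_mod_cast (card_filter_add_card_filter_not (s := V) (fun m => HoldsA (1 / 2) (1 / 8) 1 m)).symm
    have h6 : Real.exp (-(c * (k n / Real.log (prim (n + 1))))) ≤ Real.exp (-(c / 2 * (k n / Real.log (prim n)))) := by
      apply Real.exp_le_exp.2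
      linarith
    rw [h5]
    calc ((V.filter (fun m => HoldsA (1 / 2) (1 / 8) 1 m)).card : ℝ) +
        (V.filter (fun m => ¬ HoldsA (1 / 2) (1 / 8) 1 m)).card ≤
          12 * prim (n + 1) * Real.exp (-(c * (k n / Real.log (prim (n + 1))))) + prim (n + 1) / Real.log (prim (n + 1)) ^ A :=
          add_le_add h3 h4
      _ ≤ 12 * prim (n + 1) * Real.exp (-(c / 2 * (k n / Real.log (prim n)))) + prim (n + 1) / Real.log (prim (n + 1)) ^ A := by
          gcongr
      _ = _ := by ring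

end Pool.Agent.H563.TG
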