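import Mathlib

/-!
# The choice of few elements which hit almost all the members of many sets
-/

set_option autoImplicit false

namespace Pool.Agent.H563.TG

open Finset

/-- one averaging step -/
lemma exp_avg {ι : Type} (S : Finset ι) (f : ι → ℝ) (D : ℝ) (hD1 : D ≤ 1) (hf : ∀ i ∈ S, |f i| ≤ D)
    (hm : ∑ i ∈ S, f i ≤ 0) : ∑ i ∈ S, Real.exp (f i) ≤ S.card * Real.exp (D ^ 2) := by
  have h : ∀ i ∈ S, Real.exp (f i) ≤ 1 + f i + D ^ 2 := by
    intro i hi
    have h1 := hf i hi
    have h2 := Real.abs_exp_sub_one_sub_id_le (h1.trans hD1)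
    have h3 := (abs_le.1 h2).2
    have h4 : f i ^ 2 ≤ D ^ 2 := sq_le_sq' (by linarith [(abs_le.1 h1).1]) (abs_le.1 h1).2
    linarith
  calc ∑ i ∈ S, Real.exp (f i) ≤ ∑ i ∈ S, (1 + f i + D ^ 2) := sum_le_sum h
    _ = S.card * (1 + D ^ 2) + ∑ i ∈ S, f i := by
        rw [sum_add_distrib, sum_add_distrib]
        simp only [sum_const, nsmul_eq_mul, mul_one]
        ring
    _ ≤ S.card * (1 + D ^ 2) := by linarith
    _ ≤ _ := by
        apply mul_le_mul_of_nonneg_left _ (Nat.cast_nonneg _)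
        linarith [Real.add_one_le_exp (D ^ 2)]

lemma sum_sq_le (M : ℕ) : ∑ m ∈ Icc 2 M, 1 / (m : ℝ) ^ 2 ≤ 1 := by
  have h : ∀ M : ℕ, 1 ≤ M → ∑ m ∈ Icc 2 M, 1 / (m : ℝ) ^ 2 ≤ 1 - 1 / (M : ℝ) := by
    intro M hM
    induction M, hM using Nat.le_induction with
    | base => simp
    | succ M hM ih =>
      rw [sum_Icc_succ_top (by omega)]
      have hM0 : (0 : ℝ) < M := by exact_mod_cast hM
      have h1 : 1 / ((M + 1 : ℕ) : ℝ) ^ 2 ≤ 1 / M - 1 / ((M + 1 : ℕ) : ℝ) := by
        push_cast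
        rw [div_sub_div _ _ hM0.ne' (by positivity), div_le_div_iff₀ (by positivity) (by positivity)]
        nlinarith
      linarith
  rcases Nat.eq_zero_or_pos M with rfl | hM
  · simp
  · have := h M hM
    have h2 : (0 : ℝ) ≤ 1 / (M : ℝ) := by positivity
    linarith

section

variable {σ : Type} [DecidableEq σ]

open Classical in
/-- the number of the active steps in `T` which hit `N` -/
noncomputable def hits (hit : ℕ → ℕ → Prop) (act T : Finset σ) (f : σ → ℕ) (N : ℕ) : ℕ :=
  ((T ∩ act).filter (fun s => hit N (f s))).card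

/-- the total weight -/
noncomputable def Sw (hit : ℕ → ℕ → Prop) (G : Finset ℕ) (act T : Finset σ) (f : σ → ℕ) : ℝ :=
  ∑ N ∈ G, (1 / 2 : ℝ) ^ hits hit act T f N

/-- the normalised total weight -/
noncomputable def vv (hit : ℕ → ℕ → Prop) (G : Finset ℕ) (act T : Finset σ) (W ρ : ℝ) (f : σ → ℕ) : ℝ :=
  Sw hit G act T f / W * (1 - ρ)⁻¹ ^ (T ∩ act).card

lemma hits_congr {hit : ℕ → ℕ → Prop} {act T : Finset σ} {f g : σ → ℕ}
    (h : ∀ s ∈ T, s ∈ act → f s = g s) (N : ℕ) : hits hit act T f N = hits hit act T g N := by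
  classical
  unfold hits
  congr 1
  apply filter_congr
  intro s hs
  rw [mem_inter] at hs
  rw [h s hs.1 hs.2]

open Classical in
lemma hits_insert {hit : ℕ → ℕ → Prop} {act T : Finset σ} {f : σ → ℕ} {s : σ} (hs : s ∉ T)
    (ha : s ∈ act) (q N : ℕ) : hits hit act (insert s T) (Function.update f s q) N =
      hits hit act T f N + (if hit N q then 1 else 0) := by
  have h1 : hits hit act T (Function.update f s q) N = hits hit act T f N :=
    hits_congr (fun s' hs' _ => by rw [Function.update_of_ne (by rintro rfl; exact hs hs')]) N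
  rw [← h1]
  unfold hits
  rw [insert_inter_of_mem ha, filter_insert, Function.update_self]
  split_ifs with h
  · rw [card_insert_of_notMem]
    rw [mem_filter, mem_inter]
    exact fun h => hs h.1.1
  · rfl

lemma hits_insert' {hit : ℕ → ℕ → Prop} {act T : Finset σ} {f : σ → ℕ} {s : σ}
    (ha : s ∉ act) (q N : ℕ) : hits hit act (insert s T) (Function.update f s q) N = hits hit act T f N := by
  classical
  have h1 : hits hit act (insert s T) (Function.update f s q) N = hits hit act (insert s T) f N :=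
    hits_congr (fun s' _ ha' => by rw [Function.update_of_ne (by rintro rfl; exact ha ha')]) N
  rw [h1]
  unfold hits
  rw [insert_inter_of_notMem ha]

lemma card_inter_insert {act T : Finset σ} {s : σ} (hs : s ∉ T) (ha : s ∈ act) :
    (insert s T ∩ act).card = (T ∩ act).card + 1 := by
  rw [insert_inter_of_mem ha, card_insert_of_notMem]
  rw [mem_inter]
  exact fun h => hs h.1

lemma card_inter_insert' {act T : Finset σ} {s : σ} (ha : s ∉ act) : (insert s T ∩ act).card = (T ∩ act).card := by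
  rw [insert_inter_of_notMem ha]

open Classical in
lemma Sw_insert {hit : ℕ → ℕ → Prop} {G : Finset ℕ} {act T : Finset σ} {f : σ → ℕ} {s : σ} (hs : s ∉ T)
    (ha : s ∈ act) (q : ℕ) : Sw hit G act (insert s T) (Function.update f s q) =
      ∑ N ∈ G, (1 / 2 : ℝ) ^ hits hit act T f N * (if hit N q then 1 / 2 else 1) := by
  unfold Sw
  apply sum_congr rfl
  intro N _
  rw [hits_insert hs ha, pow_add]
  congr 1
  split_ifs <;> simp

/-- the mean value after one step -/
lemma vv_mean {hit : ℕ → ℕ → Prop} {G : Finset ℕ} {act T : Finset σ} {W ρ : ℝ} (hW : 0 < W) (hρ : ρ < 1)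
    {f : σ → ℕ} {s : σ} (hs : s ∉ T) (ha : s ∈ act) {P : Finset ℕ}
    (hP : ∀ N ∈ G, ∀ Q ⊆ P, (∀ q ∈ P, hit N q → q ∈ Q) → 2 * ρ * P.card ≤ Q.card) :
    ∑ q ∈ P, vv hit G act (insert s T) W ρ (Function.update f s q) ≤ P.card * vv hit G act T W ρ f := by
  classical
  have h1 : ∑ q ∈ P, Sw hit G act (insert s T) (Function.update f s q) ≤ (1 - ρ) * P.card * Sw hit G act T f := by
    simp only [Sw_insert hs ha]
    rw [sum_comm]
    unfold Sw
    rw [mul_sum]
    apply sum_le_sum
    intro N hN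
    rw [← mul_sum, mul_comm]
    apply mul_le_mul_of_nonneg_right _ (by positivity)
    have h2 := hP N hN (P.filter (fun q => hit N q)) (filter_subset _ _) (by
      intro q hq hh
      exact mem_filter.2 ⟨hq, hh⟩)
    have h3 : ∀ q ∈ P, (if hit N q then (1 / 2 : ℝ) else 1) = 1 - (1 / 2) * (if hit N q then 1 else 0) := by
      intro q _
      split_ifs <;> norm_num
    rw [sum_congr rfl h3, sum_sub_distrib, ← mul_sum, sum_boole, sum_const, nsmul_eq_mul, mul_one]
    linarith
  unfold vv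
  have e4 : ∀ q ∈ P, Sw hit G act (insert s T) (Function.update f s q) / W * (1 - ρ)⁻¹ ^ (insert s T ∩ act).card =
      Sw hit G act (insert s T) (Function.update f s q) * (1 / W * (1 - ρ)⁻¹ ^ ((T ∩ act).card + 1)) := by
    intro q _
    rw [card_inter_insert hs ha]
    ring
  rw [sum_congr rfl e4, ← sum_mul]
  have hr : 0 < 1 - ρ := by linarith
  calc (∑ q ∈ P, Sw hit G act (insert s T) (Function.update f s q)) * (1 / W * (1 - ρ)⁻¹ ^ ((T ∩ act).card + 1))
      ≤ ((1 - ρ) * P.card * Sw hit G act T f) * (1 / W * (1 - ρ)⁻¹ ^ ((T ∩ act).card + 1)) :=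
        mul_le_mul_of_nonneg_right h1 (by positivity)
    _ = P.card * (Sw hit G act T f / W * (1 - ρ)⁻¹ ^ (T ∩ act).card) := by
        rw [pow_succ]
        field_simp

lemma Sw_nonneg (hit : ℕ → ℕ → Prop) (G : Finset ℕ) (act T : Finset σ) (f : σ → ℕ) : 0 ≤ Sw hit G act T f := by
  unfold Sw
  positivity

lemma Sw_le (hit : ℕ → ℕ → Prop) (G : Finset ℕ) (act T : Finset σ) (f : σ → ℕ) : Sw hit G act T f ≤ G.card := by
  unfold Sw
  calc ∑ N ∈ G, (1 / 2 : ℝ) ^ hits hit act T f N ≤ ∑ _N ∈ G, (1 : ℝ) := by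
        apply sum_le_sum
        intro N _
        exact pow_le_one₀ (by norm_num) (by norm_num)
    _ = _ := by simp

/-- the change in one step -/
lemma vv_diff {hit : ℕ → ℕ → Prop} {G : Finset ℕ} {act T : Finset σ} {W ρ Δ L : ℝ} (hW : 0 < W) (hρ0 : 0 ≤ ρ) (hρ : ρ < 1)
    (hG : (G.card : ℝ) ≤ W) {f : σ → ℕ} {s : σ} (hs : s ∉ T) (ha : s ∈ act) {q : ℕ}
    (hΔ : ∀ V ⊆ G, (∀ N ∈ V, hit N q) → (V.card : ℝ) ≤ Δ * W) (hL : (1 - ρ)⁻¹ ^ ((T ∩ act).card + 1) ≤ L)
    (hΔ0 : 0 ≤ Δ) :
    |vv hit G act (insert s T) W ρ (Function.update f s q) - vv hit G act T W ρ f| ≤ L * (ρ + Δ) := by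
  classical
  unfold vv
  rw [card_inter_insert hs ha]
  have hr : 0 < 1 - ρ := by linarith
  obtain ⟨n, hn⟩ : ∃ n, n = (T ∩ act).card := ⟨_, rfl⟩
  rw [← hn] at hL ⊢
  obtain ⟨la, hl1⟩ : ∃ x, x = (1 - ρ)⁻¹ ^ (n + 1) := ⟨_, rfl⟩
  have hl2 : (1 - ρ)⁻¹ ^ n = (1 - ρ) * la := by
    rw [hl1, pow_succ]
    field_simp
  rw [← hl1] at hL ⊢
  rw [hl2]
  have hl0 : 0 < la := by rw [hl1]; positivity
  have hUW : Sw hit G act T f / W ≤ 1 := by
    rw [div_le_one hW]
    exact (Sw_le hit G act T f).trans hG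
  have hU0 : 0 ≤ Sw hit G act T f / W := div_nonneg (Sw_nonneg _ _ _ _ _) hW.le
  have hsw : Sw hit G act T f - Sw hit G act (insert s T) (Function.update f s q) =
      ∑ N ∈ G, (1 / 2 : ℝ) ^ hits hit act T f N * (if hit N q then 1 / 2 else 0) := by
    rw [Sw_insert hs ha]
    unfold Sw
    rw [← sum_sub_distrib]
    apply sum_congr rfl
    intro N _
    split_ifs <;> ring
  have h1 : Sw hit G act (insert s T) (Function.update f s q) / W ≤ Sw hit G act T f / W := by
    apply div_le_div_of_nonneg_right _ hW.le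
    have : 0 ≤ Sw hit G act T f - Sw hit G act (insert s T) (Function.update f s q) := by
      rw [hsw]
      positivity
    linarith
  have h2 : Sw hit G act T f / W - Δ ≤ Sw hit G act (insert s T) (Function.update f s q) / W := by
    have h3 := hΔ (G.filter (fun N => hit N q)) (filter_subset _ _) (fun N hN => (mem_filter.1 hN).2)
    have h4 : Sw hit G act T f - Sw hit G act (insert s T) (Function.update f s q) ≤ (G.filter (fun N => hit N q)).card := by
      rw [hsw, card_filter]
      push_cast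
      apply sum_le_sum
      intro N _
      have hp : (1 / 2 : ℝ) ^ hits hit act T f N ≤ 1 := pow_le_one₀ (by norm_num) (by norm_num)
      have hp0 : 0 ≤ (1 / 2 : ℝ) ^ hits hit act T f N := by positivity
      split_ifs
      · linarith
      · simp
    rw [sub_le_iff_le_add, ← sub_le_iff_le_add', ← sub_div, div_le_iff₀ hW]
    exact h4.trans h3
  obtain ⟨a, ha'⟩ : ∃ a, a = Sw hit G act (insert s T) (Function.update f s q) / W := ⟨_, rfl⟩
  obtain ⟨b, hb⟩ : ∃ b, b = Sw hit G act T f / W := ⟨_, rfl⟩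
  rw [← ha'] at h1 h2 ⊢
  rw [← hb] at h1 h2 hUW hU0 ⊢
  have e : a * la - b * ((1 - ρ) * la) = la * (a - b + b * ρ) := by ring
  rw [e, abs_mul, abs_of_pos hl0]
  have h6 : |a - b + b * ρ| ≤ ρ + Δ := by
    rw [abs_le]
    constructor
    · nlinarith [mul_nonneg hU0 hρ0]
    · nlinarith [mul_nonneg (sub_nonneg.2 hUW) hρ0]
  exact mul_le_mul hL h6 (abs_nonneg _) (hl0.le.trans hL)

/-- the data of one scale -/
structure Sc (σ : Type) where
  /-- the members -/
  G : Finset ℕ
  /-- the active steps -/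
  act : Finset σ
  /-- the normalisation -/
  W : ℝ
  /-- half of the proportion of the hitting elements -/
  ρ : ℝ
  /-- the largest proportion of the members hit by one element -/
  Δ : ℝ
  /-- a bound for the normalised number -/
  L : ℝ
  /-- which potential is used -/
  b : Bool

/-- the conditions for one scale -/
def Sc.OK (x : Sc σ) (hit : ℕ → ℕ → Prop) (P : σ → Finset ℕ) (β : σ → ℕ) (m : ℕ) : Prop :=
  (0 < x.W ∧ 0 ≤ x.ρ ∧ x.ρ < 1 ∧ 0 ≤ x.Δ ∧ (x.G.card : ℝ) ≤ x.W) ∧
  (∀ s ∈ x.act, ∀ N ∈ x.G, ∀ R ⊆ P s, (P s \ R).card < β s → ∀ Q ⊆ R, (∀ q ∈ R, hit N q → q ∈ Q) →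
    2 * x.ρ * R.card ≤ Q.card) ∧
  (∀ q, ∀ V ⊆ x.G, (∀ N ∈ V, hit N q) → (V.card : ℝ) ≤ x.Δ * x.W) ∧
  (x.b = true → (1 - x.ρ)⁻¹ ^ x.act.card ≤ x.L ∧ Real.log m * (x.L * (x.ρ + x.Δ)) ≤ 1 ∧
    Real.log m * (x.L * (x.ρ + x.Δ)) ^ 2 * x.act.card ≤ 1)

/-- the potential -/
noncomputable def Phi (hit : ℕ → ℕ → Prop) (x : Sc σ) (m : ℕ) (T : Finset σ) (f : σ → ℕ) : ℝ :=
  if x.b then Real.exp (Real.log m * (vv hit x.G x.act T x.W x.ρ f - 3) -
    (Real.log m * (x.L * (x.ρ + x.Δ))) ^ 2 * (T ∩ x.act).card) else vv hit x.G x.act T x.W x.ρ f / (m : ℝ) ^ 2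

lemma Phi_step {hit : ℕ → ℕ → Prop} {P : σ → Finset ℕ} {β : σ → ℕ} {x : Sc σ} {m : ℕ} (hm : 1 ≤ m) (hx : x.OK hit P β m)
    {T : Finset σ} {s : σ} (hs : s ∉ T) (f : σ → ℕ) {R : Finset ℕ} (hR : R ⊆ P s) (hRb : (P s \ R).card < β s) :
    ∑ q ∈ R, Phi hit x m (insert s T) (Function.update f s q) ≤ R.card * Phi hit x m T f := by
  classical
  obtain ⟨⟨hW, hρ0, hρ1, hΔ0, hG⟩, h1, h2, h3⟩ := hx
  by_cases ha : s ∈ x.act
  · have hmean := vv_mean (f := f) hW hρ1 hs ha (fun N hN => h1 s ha N hN R hR hRb)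
    unfold Phi
    by_cases hb : x.b = true
    · simp only [hb, if_true]
      obtain ⟨hL, hD1, -⟩ := h3 hb
      obtain ⟨D, hD⟩ : ∃ D, D = Real.log m * (x.L * (x.ρ + x.Δ)) := ⟨_, rfl⟩
      rw [← hD] at hD1 ⊢
      have hlog : 0 ≤ Real.log (m : ℝ) := Real.log_nonneg (by exact_mod_cast hm)
      obtain ⟨v, hv⟩ : ∃ v, v = vv hit x.G x.act T x.W x.ρ f := ⟨_, rfl⟩
      rw [← hv] at hmean ⊢
      have hcard : (T ∩ x.act).card + 1 ≤ x.act.card := by
        rw [← card_inter_insert hs ha]
        exact card_le_card inter_subset_right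
      have hr : 1 ≤ (1 - x.ρ)⁻¹ := by
        rw [one_le_inv₀ (by linarith)]
        linarith
      have hL' : (1 - x.ρ)⁻¹ ^ ((T ∩ x.act).card + 1) ≤ x.L := (pow_le_pow_right₀ hr hcard).trans hL
      have hdiff : ∀ q ∈ R, |Real.log m * (vv hit x.G x.act (insert s T) x.W x.ρ (Function.update f s q) - v)| ≤ D := by
        intro q _
        rw [abs_mul, abs_of_nonneg hlog, hD, hv]
        exact mul_le_mul_of_nonneg_left (vv_diff hW hρ0 hρ1 hG hs ha (h2 q) hL' hΔ0) hlog
      have hsum : ∑ q ∈ R, Real.log m * (vv hit x.G x.act (insert s T) x.W x.ρ (Function.update f s q) - v) ≤ 0 := by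
        rw [← mul_sum, sum_sub_distrib, sum_const, nsmul_eq_mul]
        apply mul_nonpos_of_nonneg_of_nonpos hlog
        linarith
      have h5 := exp_avg R _ D hD1 hdiff hsum
      rw [card_inter_insert hs ha]
      have e : ∀ q ∈ R, Real.exp (Real.log m * (vv hit x.G x.act (insert s T) x.W x.ρ (Function.update f s q) - 3) -
          D ^ 2 * (((T ∩ x.act).card + 1 : ℕ) : ℝ)) =
          Real.exp (Real.log m * (vv hit x.G x.act (insert s T) x.W x.ρ (Function.update f s q) - v)) *
          Real.exp (Real.log m * (v - 3) - D ^ 2 * (T ∩ x.act).card - D ^ 2) := by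
        intro q _
        rw [← Real.exp_add]
        congr 1
        push_cast
        ring
      rw [sum_congr rfl e, ← sum_mul]
      calc (∑ q ∈ R, Real.exp (Real.log m * (vv hit x.G x.act (insert s T) x.W x.ρ (Function.update f s q) - v))) *
          Real.exp (Real.log m * (v - 3) - D ^ 2 * (T ∩ x.act).card - D ^ 2)
          ≤ (R.card * Real.exp (D ^ 2)) * Real.exp (Real.log m * (v - 3) - D ^ 2 * (T ∩ x.act).card - D ^ 2) :=
            mul_le_mul_of_nonneg_right h5 (Real.exp_pos _).le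
        _ = R.card * (Real.exp (D ^ 2) * Real.exp (Real.log m * (v - 3) - D ^ 2 * (T ∩ x.act).card - D ^ 2)) := by ring
        _ = _ := by
            rw [← Real.exp_add]
            congr 2
            ring
    · simp only [hb, if_false, Bool.false_eq_true]
      rw [← sum_div, ← mul_div_assoc]
      exact div_le_div_of_nonneg_right hmean (by positivity)
  · have e : ∀ q ∈ R, Phi hit x m (insert s T) (Function.update f s q) = Phi hit x m T f := by
      intro q _
      unfold Phi vv Sw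
      simp only [hits_insert' ha, card_inter_insert' ha]
    rw [sum_congr rfl e, sum_const, nsmul_eq_mul]

/-- the choice -/
lemma sel {hit : ℕ → ℕ → Prop} {P : σ → Finset ℕ} {β : σ → ℕ} (Tf : Finset σ)
    (hP : ∀ s ∈ Tf, (Tf.filter (fun s' => ¬ Disjoint (P s') (P s))).card ≤ β s ∧ β s ≤ (P s).card ∧ 0 < (P s).card)
    (m₀ M : ℕ) (hm₀ : 2 ≤ m₀) (x : ℕ → Sc σ) (hx : ∀ m ∈ Icc m₀ M, (x m).OK hit P β m) :
    ∃ f : σ → ℕ, (∀ s ∈ Tf, f s ∈ P s) ∧ (∀ s ∈ Tf, ∀ s' ∈ Tf, f s = f s' → s = s') ∧ ∀ m ∈ Icc m₀ M,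
      Sw hit (x m).G (x m).act Tf f ≤ (if (x m).b then 4 else (m : ℝ) ^ 2) * (x m).W *
        (1 - (x m).ρ) ^ (Tf ∩ (x m).act).card := by
  classical
  have key : ∀ T : Finset σ, T ⊆ Tf → ∃ f : σ → ℕ, (∀ s ∈ T, f s ∈ P s) ∧ (∀ s ∈ T, ∀ s' ∈ T, f s = f s' → s = s') ∧
      ∑ m ∈ Icc m₀ M, Phi hit (x m) m T f ≤ 1 := by
    intro T
    induction T using Finset.induction_on with
    | empty =>
      intro _
      refine ⟨fun _ => 0, by simp, by simp, ?_⟩
      refine le_trans (sum_le_sum (g := fun m : ℕ => 1 / (m : ℝ) ^ 2) ?_) ?_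
      · intro m hm
        obtain ⟨⟨hW, hρ0, hρ1, hΔ0, hG⟩, -, -, -⟩ := hx m hm
        rw [mem_Icc] at hm
        have hm0 : (0 : ℝ) < m := by exact_mod_cast (by omega : 0 < m)
        have hv1 : vv hit (x m).G (x m).act ∅ (x m).W (x m).ρ (fun _ => 0) ≤ 1 := by
          unfold vv
          rw [empty_inter, card_empty, pow_zero, mul_one, div_le_one hW]
          exact (Sw_le _ _ _ _ _).trans hG
        have hlog : 0 ≤ Real.log (m : ℝ) := Real.log_nonneg (by exact_mod_cast (by omega : 1 ≤ m))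
        unfold Phi
        split_ifs with hb
        · rw [empty_inter, card_empty, Nat.cast_zero, mul_zero, sub_zero]
          have e : 1 / (m : ℝ) ^ 2 = Real.exp (Real.log m * (1 - 3)) := by
            rw [show Real.log m * (1 - 3) = -(((2 : ℕ) : ℝ) * Real.log m) by push_cast; ring, Real.exp_neg, ← Real.log_pow,
              Real.exp_log (by positivity), one_div]
          rw [e]
          apply Real.exp_le_exp.2
          apply mul_le_mul_of_nonneg_left _ hlog
          linarith
        · exact div_le_div_of_nonneg_right hv1 (by positivity)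
      · refine le_trans (sum_le_sum_of_subset_of_nonneg (Icc_subset_Icc hm₀ le_rfl) ?_) (sum_sq_le M)
        intro i _ _
        positivity
    | insert s T hs ih =>
      intro hT
      obtain ⟨f, hf1, hf0, hf2⟩ := ih ((subset_insert _ _).trans hT)
      have hsT : s ∈ Tf := hT (mem_insert_self _ _)
      obtain ⟨hb1, hb2, hb3⟩ := hP s hsT
      obtain ⟨R, hR⟩ : ∃ R, R = P s \ T.image f := ⟨_, rfl⟩
      have hRs : R ⊆ P s := by
        rw [hR]
        exact sdiff_subset
      have hRc : (P s \ R).card < β s := by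
        have h1 : P s \ R ⊆ (T.filter (fun s' => ¬ Disjoint (P s') (P s))).image f := by
          intro q hq
          rw [hR, mem_sdiff, mem_sdiff] at hq
          obtain ⟨hq1, hq2⟩ := hq
          have h3 : q ∈ T.image f := by
            by_contra hcon
            exact hq2 ⟨hq1, hcon⟩
          obtain ⟨s', hs', rfl⟩ := mem_image.1 h3
          refine mem_image.2 ⟨s', mem_filter.2 ⟨hs', ?_⟩, rfl⟩
          intro hd
          exact (disjoint_left.1 hd) (hf1 s' hs') hq1
        have h2 : (insert s (T.filter (fun s' => ¬ Disjoint (P s') (P s)))) ⊆ Tf.filter (fun s' => ¬ Disjoint (P s') (P s)) := by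
          intro s' hs'
          rcases mem_insert.1 hs' with e | e
          · rw [e, mem_filter]
            refine ⟨hsT, ?_⟩
            intro hd
            rw [disjoint_self] at hd
            rw [hd] at hb3
            simp at hb3
          · rw [mem_filter] at e ⊢
            exact ⟨hT (mem_insert_of_mem e.1), e.2⟩
        have h3 := card_le_card h2
        rw [card_insert_of_notMem (fun h => hs (mem_filter.1 h).1)] at h3
        have h4 := (card_le_card h1).trans card_image_le
        omega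
      have hRne : R.Nonempty := by
        rw [← card_pos]
        have := card_sdiff_add_card_eq_card hRs
        omega
      have h1 : ∑ q ∈ R, ∑ m ∈ Icc m₀ M, Phi hit (x m) m (insert s T) (Function.update f s q) ≤ ∑ _q ∈ R, (1 : ℝ) := by
        rw [sum_comm]
        calc ∑ m ∈ Icc m₀ M, ∑ q ∈ R, Phi hit (x m) m (insert s T) (Function.update f s q)
            ≤ ∑ m ∈ Icc m₀ M, R.card * Phi hit (x m) m T f := by
              apply sum_le_sum
              intro m hm
              exact Phi_step (by rw [mem_Icc] at hm; omega) (hx m hm) hs f hRs hRc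
          _ = R.card * ∑ m ∈ Icc m₀ M, Phi hit (x m) m T f := by rw [mul_sum]
          _ ≤ R.card * 1 := mul_le_mul_of_nonneg_left hf2 (Nat.cast_nonneg _)
          _ = _ := by simp
      obtain ⟨q, hq, hq2⟩ := exists_le_of_sum_le hRne h1
      have hqT : ∀ s' ∈ T, f s' ≠ q := by
        intro s' hs' e
        rw [hR, mem_sdiff] at hq
        exact hq.2 (mem_image.2 ⟨s', hs', e⟩)
      refine ⟨Function.update f s q, ?_, ?_, hq2⟩
      · intro s' hs'
        rcases mem_insert.1 hs' with e | e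
        · rw [e, Function.update_self]
          exact hRs hq
        · rw [Function.update_of_ne (by rintro rfl; exact hs e)]
          exact hf1 s' e
      · intro s₁ hs₁ s₂ hs₂ he
        rcases mem_insert.1 hs₁ with e1 | e1 <;> rcases mem_insert.1 hs₂ with e2 | e2
        · rw [e1, e2]
        · rw [e1, Function.update_self, Function.update_of_ne (by rintro rfl; exact hs e2)] at he
          exact absurd he.symm (hqT s₂ e2)
        · rw [e2, Function.update_self, Function.update_of_ne (by rintro rfl; exact hs e1)] at he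
          exact absurd he (hqT s₁ e1)
        · rw [Function.update_of_ne (by rintro rfl; exact hs e1), Function.update_of_ne (by rintro rfl; exact hs e2)] at he
          exact hf0 s₁ e1 s₂ e2 he
  obtain ⟨f, hf1, hf0, hf2⟩ := key Tf (Subset.refl _)
  refine ⟨f, hf1, hf0, ?_⟩
  intro m hm
  obtain ⟨⟨hW, hρ0, hρ1, hΔ0, hG⟩, -, -, hA⟩ := hx m hm
  have hr : 0 < 1 - (x m).ρ := by linarith
  have hPhi : Phi hit (x m) m Tf f ≤ 1 := by
    refine le_trans (single_le_sum (f := fun m => Phi hit (x m) m Tf f) ?_ hm) hf2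
    intro i hi
    obtain ⟨⟨hW', hρ0', hρ1', -, -⟩, -, -, -⟩ := hx i hi
    have hr' : 0 < 1 - (x i).ρ := by linarith
    have hsw := Sw_nonneg hit (x i).G (x i).act Tf f
    unfold Phi vv
    split_ifs
    · exact (Real.exp_pos _).le
    · positivity
  rw [mem_Icc] at hm
  have hm0 : (0 : ℝ) < m := by exact_mod_cast (by omega : 0 < m)
  have hv : vv hit (x m).G (x m).act Tf (x m).W (x m).ρ f ≤ (if (x m).b then 4 else (m : ℝ) ^ 2) := by
    unfold Phi at hPhi
    by_cases hb : (x m).b = true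
    · simp only [hb, if_true] at hPhi ⊢
      obtain ⟨-, hD1, hD2⟩ := hA hb
      have hlog : 0 < Real.log (m : ℝ) := Real.log_pos (by exact_mod_cast (by omega : 1 < m))
      rw [Real.exp_le_one_iff] at hPhi
      obtain ⟨v, hvd⟩ : ∃ v, v = vv hit (x m).G (x m).act Tf (x m).W (x m).ρ f := ⟨_, rfl⟩
      rw [← hvd] at hPhi ⊢
      have hcard : ((Tf ∩ (x m).act).card : ℝ) ≤ (x m).act.card := by exact_mod_cast card_le_card inter_subset_right
      obtain ⟨E, hE⟩ : ∃ E, E = ((x m).L * ((x m).ρ + (x m).Δ)) ^ 2 := ⟨_, rfl⟩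
      have hE0 : 0 ≤ E := by rw [hE]; positivity
      have h5 : (Real.log m * ((x m).L * ((x m).ρ + (x m).Δ))) ^ 2 * (Tf ∩ (x m).act).card ≤ Real.log m := by
        rw [mul_pow, ← hE]
        rw [← hE] at hD2
        calc Real.log m ^ 2 * E * ((Tf ∩ (x m).act).card : ℝ) ≤ Real.log m ^ 2 * E * (x m).act.card :=
              mul_le_mul_of_nonneg_left hcard (by positivity)
          _ = Real.log m * (Real.log m * E * (x m).act.card) := by ring
          _ ≤ Real.log m * 1 := mul_le_mul_of_nonneg_left hD2 hlog.le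
          _ = _ := mul_one _
      have h6 : Real.log m * (v - 3) ≤ Real.log m * 1 := by linarith
      have := le_of_mul_le_mul_left h6 hlog
      linarith
    · simp only [hb, if_false, Bool.false_eq_true] at hPhi ⊢
      rw [div_le_one (by positivity)] at hPhi
      exact hPhi
  unfold vv at hv
  obtain ⟨n, hn⟩ : ∃ n, n = (Tf ∩ (x m).act).card := ⟨_, rfl⟩
  rw [← hn] at hv ⊢
  have e : Sw hit (x m).G (x m).act Tf f =
      (Sw hit (x m).G (x m).act Tf f / (x m).W * (1 - (x m).ρ)⁻¹ ^ n) * (x m).W * (1 - (x m).ρ) ^ n := by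
    rw [inv_pow]
    field_simp
  rw [e]
  apply mul_le_mul_of_nonneg_right _ (by positivity)
  exact mul_le_mul_of_nonneg_right hv hW.le

end

end Pool.Agent.H563.TG
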