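import Pool.Agent.H563.TG.Logs
import Pool.Agent.H563.TG.Mult

/-!
# Systems of linear forms
-/

set_option autoImplicit false

namespace Pool.Agent.H563.TG

open Finset Filter Polynomial
open Pool.Agent.Y843.HS (VV Pr)
open Pool.Agent.H563.PL (Good RZ mem_RZ lowsD roots mem_roots mod_mem_roots NoFixed good_of)

/-- integers in an interval without small prime factors -/
lemma roughZ (κ : ℝ) (hκ : 0 < κ) : ∃ K : ℝ, 0 < K ∧ ∃ Y₀ : ℕ, 2 ≤ Y₀ ∧ ∀ Y : ℕ, Y₀ ≤ Y → ∀ c : ℤ, ∀ S : Finset ℤ,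
    (∀ n ∈ S, c < n ∧ n ≤ c + Y) →
    (∀ n ∈ S, ∀ l : ℕ, l.Prime → (l : ℝ) ≤ (Y : ℝ) ^ κ → ¬ (l : ℤ) ∣ n) → (S.card : ℝ) ≤ K * (Y / Real.log Y) := by
  classical
  obtain ⟨K, hK, Y₀, hY₀, h⟩ := roughI κ hκ
  refine ⟨K, hK, Y₀, hY₀, ?_⟩
  intro Y hY c S hS hSr
  obtain ⟨P, hP⟩ : ∃ P, P = primorial ⌊(Y : ℝ) ^ κ⌋₊ := ⟨_, rfl⟩
  have hP0 : 0 < P := by rw [hP]; exact primorial_pos _
  obtain ⟨t, ht⟩ : ∃ t : ℕ, t = P * c.natAbs := ⟨_, rfl⟩
  have htc : (c.natAbs : ℤ) ≤ t := by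
    rw [ht]
    have : c.natAbs ≤ P * c.natAbs := Nat.le_mul_of_pos_left _ hP0
    exact_mod_cast this
  have hct : 0 ≤ c + t := by
    have : -c ≤ (c.natAbs : ℤ) := by
      rw [Int.natCast_natAbs]
      exact neg_le_abs c
    linarith
  obtain ⟨A, hA⟩ := Int.eq_ofNat_of_zero_le hct
  have h1 := h Y A hY (S.image (fun n : ℤ => (n + (t : ℤ)).toNat)) (by
    intro n' hn'
    obtain ⟨n, hn, rfl⟩ := mem_image.1 hn'
    obtain ⟨g1, g2⟩ := hS n hn
    rw [mem_Ioc]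
    have h3 : ((n + (t : ℤ)).toNat : ℤ) = n + t := Int.toNat_of_nonneg (by linarith)
    constructor
    · have : (A : ℤ) < ((n + (t : ℤ)).toNat : ℤ) := by rw [h3, ← hA]; linarith
      exact_mod_cast this
    · have : ((n + (t : ℤ)).toNat : ℤ) ≤ ((A + Y : ℕ) : ℤ) := by
        rw [h3]
        push_cast
        rw [← hA]
        linarith
      exact_mod_cast this) (by
    intro n' hn' l hl hlX hdvd
    obtain ⟨n, hn, rfl⟩ := mem_image.1 hn'
    obtain ⟨g1, g2⟩ := hS n hn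
    have h3 : ((n + (t : ℤ)).toNat : ℤ) = n + t := Int.toNat_of_nonneg (by linarith)
    have h4 : (l : ℤ) ∣ n + t := by
      rw [← h3]
      exact_mod_cast hdvd
    have h5 : l ∣ P := by
      rw [hP]
      exact (hl.dvd_primorial_iff).2 (Nat.le_floor hlX)
    have h6 : (l : ℤ) ∣ (t : ℤ) := by
      have : l ∣ t := by rw [ht]; exact h5.mul_right _
      exact_mod_cast this
    exact hSr n hn l hl hlX ((Int.dvd_add_left h6).1 h4))
  rwa [card_image_of_injOn] at h1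
  intro n hn m hm he
  have g1 := (hS n hn).1
  have g2 := (hS m hm).1
  have h3 : ((n + (t : ℤ)).toNat : ℤ) = n + t := Int.toNat_of_nonneg (by linarith)
  have h4 : ((m + (t : ℤ)).toNat : ℤ) = m + t := Int.toNat_of_nonneg (by linarith)
  have he' : (n + (t : ℤ)).toNat = (m + (t : ℤ)).toNat := he
  have : (n + t : ℤ) = m + t := by rw [← h3, ← h4, he']
  linarith

/-- the product of the linear forms -/
noncomputable def poly {J : ℕ} (f : Fin J → ℤ × ℤ) : ℤ[X] := ∏ i, (C (f i).1 * X + C (f i).2)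

lemma poly_eval {J : ℕ} (f : Fin J → ℤ × ℤ) (s : ℤ) : (poly f).eval s = ∏ i, ((f i).1 * s + (f i).2) := by
  unfold poly
  rw [eval_prod]
  apply Finset.prod_congr rfl
  intro i _
  simp

lemma poly_deg {J : ℕ} (f : Fin J → ℤ × ℤ) : (poly f).natDegree ≤ J := by
  unfold poly
  refine (natDegree_prod_le _ _).trans ?_
  calc ∑ i : Fin J, (C (f i).1 * X + C (f i).2).natDegree ≤ ∑ _i : Fin J, 1 := by
        apply Finset.sum_le_sum
        intro i _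
        exact natDegree_linear_le
    _ = J := by simp

/-- the box -/
noncomputable def Box (J m : ℕ) : Finset (Fin J → ℤ × ℤ) :=
  Fintype.piFinset (fun _ => Icc (-(4 ^ m : ℤ)) (4 ^ m) ×ˢ Icc (-(4 ^ m : ℤ)) (4 ^ m))

lemma mem_Box {J m : ℕ} {f : Fin J → ℤ × ℤ} : f ∈ Box J m ↔ ∀ i, |(f i).1| ≤ 4 ^ m ∧ |(f i).2| ≤ 4 ^ m := by
  unfold Box
  rw [Fintype.mem_piFinset]
  apply forall_congr'
  intro i
  rw [mem_product, mem_Icc, mem_Icc, abs_le, abs_le]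

open Classical in
/-- the codes of the admissible systems in the box -/
noncomputable def GS (J m : ℕ) : Finset ℕ :=
  ((Box J m).filter (fun f => NoFixed (poly f))).image (fun f => Nat.pair m (Encodable.encode f))

/-- `s` is good for the system with the code `N` -/
def hitS (J : ℕ) (κ : ℝ) (N s : ℕ) : Prop :=
  ∀ f : Fin J → ℤ × ℤ, N.unpair.2 = Encodable.encode f → ∀ i, ∀ l : ℕ, l.Prime → (l : ℝ) ≤ (4 : ℝ) ^ (κ * N.unpair.1) →
    ¬ (l : ℤ) ∣ (f i).1 * s + (f i).2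

lemma side (m : ℕ) : ((Icc (-(4 ^ m : ℤ)) (4 ^ m)).card : ℝ) = 2 * 4 ^ m + 1 := by
  rw [Int.card_Icc]
  have h0 : (0 : ℤ) ≤ 4 ^ m + 1 - -(4 ^ m) := by
    have : (0 : ℤ) < 4 ^ m := by positivity
    linarith
  have h1 : (((4 ^ m + 1 - -(4 ^ m) : ℤ).toNat : ℤ) : ℝ) = ((4 ^ m + 1 - -(4 ^ m) : ℤ) : ℝ) := by
    rw [Int.toNat_of_nonneg h0]
  rw [Int.cast_natCast] at h1
  rw [h1]
  push_cast
  ring

lemma GS_card (J m : ℕ) (hm : 1 ≤ m) : ((GS J m).card : ℝ) ≤ ((144 : ℝ) ^ J) ^ m := by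
  classical
  have h1 : ((GS J m).card : ℝ) ≤ (Box J m).card := by
    unfold GS
    exact_mod_cast card_image_le.trans (card_filter_le _ _)
  refine h1.trans ?_
  unfold Box
  rw [Fintype.card_piFinset]
  push_cast
  rw [prod_const, card_univ, Fintype.card_fin, card_product]
  push_cast
  rw [side, ← pow_mul, mul_comm J m, pow_mul]
  apply pow_le_pow_left₀ (by positivity)
  have h4 : (1 : ℝ) ≤ 4 ^ m := one_le_pow₀ (by norm_num)
  have h9 : (9 : ℝ) ≤ 9 ^ m := by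
    calc (9 : ℝ) = 9 ^ 1 := (pow_one _).symm
      _ ≤ 9 ^ m := pow_le_pow_right₀ (by norm_num) hm
  calc (2 * (4 : ℝ) ^ m + 1) * (2 * 4 ^ m + 1) ≤ 9 * (4 ^ m * 4 ^ m) := by nlinarith
    _ ≤ 9 ^ m * (4 ^ m * 4 ^ m) := mul_le_mul_of_nonneg_right h9 (by positivity)
    _ = 144 ^ m := by
        rw [← mul_pow, ← mul_pow]
        norm_num

lemma hupS (J : ℕ) (κ : ℝ) (hκ : 0 < κ) : ∃ K : ℝ, 0 < K ∧ ∃ m₁ : ℕ, ∀ m, m₁ ≤ m → ∀ s, ∀ V ⊆ GS J m, (∀ N ∈ V, hitS J κ N s) →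
    (V.card : ℝ) ≤ K * (((144 : ℝ) ^ J) ^ m / (m : ℝ) ^ J) := by
  classical
  obtain ⟨K, hK, Y₀, hY₀, h⟩ := roughZ (κ / 2) (by positivity)
  refine ⟨K ^ J + 1, by positivity, Y₀ + 1, ?_⟩
  intro m hm s V hV hVs
  obtain ⟨Y, hY⟩ : ∃ Y : ℕ, Y = 2 * 4 ^ m + 1 := ⟨_, rfl⟩
  have hY4 : Y₀ ≤ Y := by
    have : m < 4 ^ m := Nat.lt_pow_self (by norm_num)
    omega
  have hmr : (1 : ℝ) ≤ m := by exact_mod_cast (by omega : 1 ≤ m)
  have h4 : (1 : ℝ) ≤ 4 ^ m := one_le_pow₀ (by norm_num)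
  have hYr : (Y : ℝ) = 2 * 4 ^ m + 1 := by rw [hY]; push_cast; ring
  have hlog4 : 1 ≤ Real.log 4 := by
    rw [show (4 : ℝ) = 2 ^ 2 by norm_num, Real.log_pow]
    have := Real.log_two_gt_d9
    push_cast
    linarith
  have hlY : (m : ℝ) ≤ Real.log Y := by
    have h1 : Real.log ((4 : ℝ) ^ m) ≤ Real.log Y := by
      apply Real.log_le_log (by positivity)
      rw [hYr]
      linarith
    rw [Real.log_pow] at h1
    nlinarith
  -- the good pairs
  obtain ⟨T, hT⟩ : ∃ T : Finset (ℤ × ℤ), T = (Icc (-(4 ^ m : ℤ)) (4 ^ m) ×ˢ Icc (-(4 ^ m : ℤ)) (4 ^ m)).filter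
      (fun x => ∀ l : ℕ, l.Prime → (l : ℝ) ≤ (4 : ℝ) ^ (κ * m) → ¬ (l : ℤ) ∣ x.1 * s + x.2) := ⟨_, rfl⟩
  have hpw : (Y : ℝ) ^ (κ / 2) ≤ (4 : ℝ) ^ (κ * m) := by
    have h1 : (Y : ℝ) ≤ (4 : ℝ) ^ ((m : ℝ) * 2) := by
      rw [Real.rpow_mul (by norm_num), Real.rpow_natCast]
      have : ((4 : ℝ) ^ m) ^ (2 : ℝ) = 4 ^ m * 4 ^ m := by
        rw [Real.rpow_two]
        ring
      rw [this, hYr]
      have h44 : (4 : ℝ) ≤ 4 ^ m := by
        calc (4 : ℝ) = 4 ^ 1 := (pow_one _).symm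
          _ ≤ 4 ^ m := pow_le_pow_right₀ (by norm_num) (by omega)
      nlinarith
    calc (Y : ℝ) ^ (κ / 2) ≤ ((4 : ℝ) ^ ((m : ℝ) * 2)) ^ (κ / 2) := Real.rpow_le_rpow (Nat.cast_nonneg _) h1 (by positivity)
      _ = (4 : ℝ) ^ (κ * m) := by
          rw [← Real.rpow_mul (by norm_num)]
          congr 1
          ring
  have hTc : (T.card : ℝ) ≤ K * (144 ^ m / m) := by
    have hfib : T.card = ∑ a ∈ Icc (-(4 ^ m : ℤ)) (4 ^ m), (T.filter (fun x => x.1 = a)).card := by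
      apply card_eq_sum_card_fiberwise
      intro x hx
      rw [mem_coe, hT, mem_filter, mem_product] at hx
      exact hx.1.1
    have hone : ∀ a ∈ Icc (-(4 ^ m : ℤ)) (4 ^ m), ((T.filter (fun x => x.1 = a)).card : ℝ) ≤ K * (Y / m) := by
      intro a ha
      have h1 := h Y hY4 (a * s - 4 ^ m - 1) ((T.filter (fun x => x.1 = a)).image (fun x => a * s + x.2)) (by
        intro n hn
        obtain ⟨x, hx, rfl⟩ := mem_image.1 hn
        rw [mem_filter, hT, mem_filter, mem_product, mem_Icc, mem_Icc] at hx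
        obtain ⟨⟨⟨-, g1, g2⟩, -⟩, -⟩ := hx
        have g3 : (Y : ℤ) = 2 * 4 ^ m + 1 := by rw [hY]; push_cast; ring
        constructor
        · linarith
        · rw [g3]
          linarith) (by
        intro n hn l hl hlX
        obtain ⟨x, hx, rfl⟩ := mem_image.1 hn
        rw [mem_filter, hT, mem_filter] at hx
        have := hx.1.2 l hl (hlX.trans hpw)
        rwa [hx.2] at this)
      rw [card_image_of_injOn] at h1
      · refine h1.trans ?_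
        have : (0 : ℝ) ≤ Y := Nat.cast_nonneg _
        gcongr
      · intro x hx y hy he
        rw [mem_coe, mem_filter] at hx hy
        have he' : a * s + x.2 = a * s + y.2 := he
        have h2 : x.2 = y.2 := by linarith
        exact Prod.ext (by rw [hx.2, hy.2]) h2
    have h144 : (Y : ℝ) * Y ≤ 144 ^ m := by
      have h9 : (9 : ℝ) ≤ 9 ^ m := by
        calc (9 : ℝ) = 9 ^ 1 := (pow_one _).symm
          _ ≤ 9 ^ m := pow_le_pow_right₀ (by norm_num) (by omega)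
      calc (Y : ℝ) * Y = (2 * 4 ^ m + 1) * (2 * 4 ^ m + 1) := by rw [hYr]
        _ ≤ 9 * (4 ^ m * 4 ^ m) := by nlinarith
        _ ≤ 9 ^ m * (4 ^ m * 4 ^ m) := mul_le_mul_of_nonneg_right h9 (by positivity)
        _ = 144 ^ m := by
            rw [← mul_pow, ← mul_pow]
            norm_num
    calc (T.card : ℝ) = ∑ a ∈ Icc (-(4 ^ m : ℤ)) (4 ^ m), ((T.filter (fun x => x.1 = a)).card : ℝ) := by
          rw [hfib]
          push_cast
          rfl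
      _ ≤ ∑ _a ∈ Icc (-(4 ^ m : ℤ)) (4 ^ m), K * ((Y : ℝ) / m) := sum_le_sum hone
      _ = Y * (K * ((Y : ℝ) / m)) := by rw [sum_const, nsmul_eq_mul, side, hYr]
      _ = K * (Y * Y / m) := by ring
      _ ≤ K * (144 ^ m / m) := by gcongr
  -- the systems
  have hVsub : V ⊆ (Fintype.piFinset (fun _ : Fin J => T)).image (fun f => Nat.pair m (Encodable.encode f)) := by
    intro N hN
    have h1 := hV hN
    unfold GS at h1
    rw [mem_image] at h1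
    obtain ⟨f, hf, hfN⟩ := h1
    rw [mem_filter, mem_Box] at hf
    rw [mem_image]
    refine ⟨f, ?_, hfN⟩
    rw [Fintype.mem_piFinset]
    intro i
    rw [hT, mem_filter, mem_product, mem_Icc, mem_Icc, ← abs_le, ← abs_le]
    refine ⟨hf.1 i, ?_⟩
    intro l hl hlX
    have h2 := hVs N hN f (by rw [← hfN, Nat.unpair_pair]) i l hl (by
      rw [← hfN, Nat.unpair_pair]
      exact hlX)
    exact h2
  have hVc : (V.card : ℝ) ≤ (T.card : ℝ) ^ J := by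
    have h1 := (card_le_card hVsub).trans card_image_le
    rw [Fintype.card_piFinset, prod_const, card_univ, Fintype.card_fin] at h1
    exact_mod_cast h1
  calc (V.card : ℝ) ≤ (T.card : ℝ) ^ J := hVc
    _ ≤ (K * (144 ^ m / m)) ^ J := pow_le_pow_left₀ (Nat.cast_nonneg _) hTc J
    _ = K ^ J * (((144 : ℝ) ^ J) ^ m / (m : ℝ) ^ J) := by
        rw [mul_pow, div_pow, ← pow_mul, ← pow_mul, mul_comm m J]
    _ ≤ (K ^ J + 1) * (((144 : ℝ) ^ J) ^ m / (m : ℝ) ^ J) := by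
        apply mul_le_mul_of_nonneg_right (by linarith) (by positivity)

lemma hlowS (J : ℕ) : ∃ κ₀ : ℝ, 0 < κ₀ ∧ κ₀ ≤ 1 ∧ ∀ θ : ℝ, 0 < θ → ∃ δ : ℝ, 0 < δ ∧ ∃ m₁ : ℕ,
    ∀ m, m₁ ≤ m → ∀ n : ℕ, θ * m ≤ n → n ≤ m → ∀ N ∈ GS J m, ∀ Q : Finset ℕ, (∀ s ∈ IB n, hitS J (κ₀ * θ) N s → s ∈ Q) →
      δ * ((4 : ℝ) ^ n / (m : ℝ) ^ J) ≤ Q.card := by
  classical
  obtain ⟨κ₀, hκ₀, hκ₁, c, hc, N₀, hlow⟩ := lowsD J
  obtain ⟨w, hw, hlogs⟩ := logsJ J
  refine ⟨κ₀, hκ₀, hκ₁, fun θ hθ => ⟨c * w / 2 ^ J, by positivity, ⌈((N₀ : ℝ) + 1) / θ⌉₊ + 1, ?_⟩⟩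
  intro m hm n hn1 hn2 N hN Q hQ
  unfold GS at hN
  rw [mem_image] at hN
  obtain ⟨f, hf, hfN⟩ := hN
  rw [mem_filter] at hf
  obtain ⟨hf, hfix⟩ := hf
  have hmr : (1 : ℝ) ≤ m := by exact_mod_cast (by omega : 1 ≤ m)
  have hn0 : N₀ + 1 ≤ n := by
    have h1 : ((N₀ : ℝ) + 1) / θ ≤ m := (Nat.le_ceil _).trans (by exact_mod_cast (by omega : ⌈((N₀ : ℝ) + 1) / θ⌉₊ ≤ m))
    rw [div_le_iff₀ hθ] at h1
    have h2 : ((N₀ + 1 : ℕ) : ℝ) ≤ n := by push_cast; linarith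
    exact_mod_cast h2
  have hnn : n < 4 ^ n := Nat.lt_pow_self (by norm_num)
  have hgood := good_of hfix (poly_deg f)
  have h1 := hlow (4 ^ n) (by omega) (roots (poly f)) hgood (4 ^ n - 1)
  have h2 := hlogs (roots (poly f)) hgood (4 ^ n) (by omega)
  have hsub : RZ κ₀ (roots (poly f)) (4 ^ n - 1) (4 ^ n) ⊆ Q := by
    intro s hs
    rw [mem_RZ] at hs
    obtain ⟨⟨g1, g2⟩, g3⟩ := hs
    apply hQ s (mem_IB.2 ⟨by omega, by omega⟩)
    intro f' hf' i l hl hlX hdvd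
    rw [← hfN, Nat.unpair_pair] at hf' hlX
    have hff : f = f' := Encodable.encode_injective hf'
    rw [← hff] at hdvd
    apply g3 l hl
    · push_cast
      refine hlX.trans ?_
      rw [← Real.rpow_natCast, ← Real.rpow_mul (by norm_num)]
      apply Real.rpow_le_rpow_of_exponent_le (by norm_num)
      have : κ₀ * (θ * m) ≤ κ₀ * n := mul_le_mul_of_nonneg_left hn1 hκ₀.le
      show κ₀ * θ * (m : ℝ) ≤ n * κ₀
      linarith
    · rw [mod_mem_roots hl.pos, poly_eval]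
      exact hdvd.trans (Finset.dvd_prod_of_mem _ (mem_univ i))
  have h3 : ((RZ κ₀ (roots (poly f)) (4 ^ n - 1) (4 ^ n)).card : ℝ) ≤ Q.card := by
    exact_mod_cast card_le_card hsub
  refine le_trans ?_ (h1.trans h3)
  push_cast at h2 ⊢
  have hlog4 : Real.log 4 ≤ 2 := by
    rw [show (4 : ℝ) = 2 ^ 2 by norm_num, Real.log_pow]
    have := Real.log_two_lt_d9
    push_cast
    linarith
  have hlog40 : 0 < Real.log 4 := Real.log_pos (by norm_num)
  have hn1r : (1 : ℝ) ≤ n := by exact_mod_cast (by omega : 1 ≤ n)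
  have h4 : Real.log ((4 : ℝ) ^ n) ≤ 2 * m := by
    rw [Real.log_pow]
    have : (n : ℝ) ≤ m := by exact_mod_cast hn2
    nlinarith
  have h50 : 0 < Real.log ((4 : ℝ) ^ n) := by
    rw [Real.log_pow]
    positivity
  have h5 : w / (2 * (m : ℝ)) ^ J ≤ w / Real.log ((4 : ℝ) ^ n) ^ J := by
    apply div_le_div_of_nonneg_left hw.le (by positivity)
    exact pow_le_pow_left₀ h50.le h4 J
  calc c * w / 2 ^ J * ((4 : ℝ) ^ n / (m : ℝ) ^ J) = c * (4 ^ n * (w / (2 * (m : ℝ)) ^ J)) := by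
        rw [mul_pow]
        field_simp
    _ ≤ c * (4 ^ n * VV (roots (poly f)) 0 (4 ^ n)) := by
        apply mul_le_mul_of_nonneg_left _ hc.le
        apply mul_le_mul_of_nonneg_left (h5.trans h2) (by positivity)

end Pool.Agent.H563.TG
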