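import Pool.Agent.H563.TG.Uni

/-!
# Universal thin sets of integers, for events of probability `1 / m ^ J`
-/

set_option autoImplicit false

namespace Pool.Agent.H563.TG

open Finset Filter

lemma pow_le_two (J : ℕ) (c : ℝ) (hc : 0 < c) : ∃ n₀ : ℕ, ∀ n, n₀ ≤ n → (n : ℝ) ^ J ≤ c * 2 ^ n := by
  have h := tendsto_pow_const_div_const_pow_of_one_lt J (show (1 : ℝ) < 2 by norm_num)
  obtain ⟨n₀, hn₀⟩ := eventually_atTop.1 (h.eventually (gt_mem_nhds hc))
  refine ⟨n₀, fun n hn => ?_⟩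
  have h1 := hn₀ n hn
  rw [div_lt_iff₀ (by positivity)] at h1
  exact h1.le

/-- **universal thin sets of integers** -/
lemma univJ {θ η W δ K : ℝ} (J : ℕ) (hJ : 1 ≤ J) (hθ : 0 < θ) (hθη : θ < η) (hη1 : η ≤ 1) (hW : 1 ≤ W) (hδ : 0 < δ) (hK : 0 < K)
    (hit : ℕ → ℕ → Prop) (G : ℕ → Finset ℕ) (m₁ : ℕ) (hG : ∀ m, m₁ ≤ m → ((G m).card : ℝ) ≤ W ^ m)
    (hlow : ∀ m, m₁ ≤ m → ∀ n : ℕ, θ * m ≤ n → (n : ℝ) ≤ η * m → ∀ N ∈ G m, ∀ Q : Finset ℕ, (∀ q ∈ IB n, hit N q → q ∈ Q) →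
      δ * ((4 : ℝ) ^ n / (m : ℝ) ^ J) ≤ Q.card)
    (hup : ∀ m, m₁ ≤ m → ∀ q, ∀ V ⊆ G m, (∀ N ∈ V, hit N q) → (V.card : ℝ) ≤ K * (W ^ m / (m : ℝ) ^ J)) (B : ℝ) (hB : 0 < B) :
    ∃ C : ℝ, 0 < C ∧ ∃ S : Set ℕ, (∀ k ∈ S, 2 ≤ k) ∧ (∀ x : ℕ, 2 ≤ x → ({q | q ∈ S ∧ q ≤ x}.ncard : ℝ) ≤ C * Real.log x ^ (J + 1)) ∧
      ∃ m₂ : ℕ, ∀ m, m₂ ≤ m → ∀ N ∈ G m, ∃ H : Finset ℕ, (∀ q ∈ H, q ∈ S ∧ 2 * (q : ℝ) ≤ (4 : ℝ) ^ (η * m) ∧ hit N q) ∧
        B * m ≤ H.card := by
  classical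
  obtain ⟨c, hc, m₀, h⟩ := thinU δ K hδ hK
  obtain ⟨ω, hω⟩ : ∃ ω : ℝ, ω = η - θ := ⟨_, rfl⟩
  have hω0 : 0 < ω := by rw [hω]; linarith
  have hlW : 0 ≤ Real.log W := Real.log_nonneg hW
  obtain ⟨K₀, hK₀⟩ : ∃ K₀ : ℕ, (4 + Real.log W + B) ≤ c * ω * θ ^ J / 2 * K₀ := by
    refine ⟨⌈(4 + Real.log W + B) / (c * ω * θ ^ J / 2)⌉₊, ?_⟩
    have := Nat.le_ceil ((4 + Real.log W + B) / (c * ω * θ ^ J / 2))
    rw [div_le_iff₀ (by positivity)] at this
    linarith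
  obtain ⟨k, hk⟩ : ∃ k : ℕ → ℕ, k = fun n => min (K₀ * n ^ J) (2 ^ n) := ⟨_, rfl⟩
  have hkm : Monotone k := by
    intro a b hab
    rw [hk]
    exact min_le_min (Nat.mul_le_mul_left _ (Nat.pow_le_pow_left hab J)) (Nat.pow_le_pow_right (by norm_num) hab)
  obtain ⟨n₄, hn₄⟩ : ∃ n₄ : ℕ, ∀ n, n₄ ≤ n → K₀ * n ^ J ≤ 2 ^ n := by
    obtain ⟨n₀, hn₀⟩ := pow_le_two J (1 / ((K₀ : ℝ) + 1)) (by positivity)
    refine ⟨n₀, fun n hn => ?_⟩
    have h1 := hn₀ n hn
    rw [div_mul_eq_mul_div, le_div_iff₀ (by positivity), one_mul] at h1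
    have h2 : (K₀ : ℝ) * (n : ℝ) ^ J ≤ 2 ^ n := by
      have : (0 : ℝ) ≤ (n : ℝ) ^ J := by positivity
      nlinarith
    exact_mod_cast h2
  -- the bound for k
  obtain ⟨n₂, hn₂1, hn₂⟩ : ∃ n₂ : ℕ, 1 ≤ n₂ ∧ ∀ n, n₂ ≤ n → (n : ℝ) ^ J ≤ δ * θ ^ J / 2 * 2 ^ n := by
    obtain ⟨t, ht⟩ := pow_le_two J (δ * θ ^ J / 2) (by positivity)
    exact ⟨max t 1, le_max_right _ _, fun n hn => ht n ((le_max_left _ _).trans hn)⟩
  obtain ⟨m₃, hm₃⟩ : ∃ m₃ : ℕ, m₃ = m₁ + ⌈(n₂ : ℝ) / θ⌉₊ + 1 := ⟨_, rfl⟩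
  have hlo_m : ∀ m, m₃ ≤ m → n₂ ≤ ⌈θ * (m : ℝ)⌉₊ := by
    intro m hm
    have h1 : (n₂ : ℝ) / θ ≤ m := (Nat.le_ceil _).trans (by exact_mod_cast (by omega : ⌈(n₂ : ℝ) / θ⌉₊ ≤ m))
    rw [div_le_iff₀ hθ] at h1
    have h2 : (n₂ : ℝ) ≤ (⌈θ * (m : ℝ)⌉₊ : ℝ) := by
      refine le_trans ?_ (Nat.le_ceil _)
      linarith
    exact_mod_cast h2
  have hhi_m : ∀ m : ℕ, ⌊η * (m : ℝ)⌋₊ ≤ m := by
    intro m
    apply Nat.floor_le_of_le
    have : (0 : ℝ) ≤ m := Nat.cast_nonneg _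
    nlinarith
  obtain ⟨g, hg1, hg0, hg2⟩ := h hit k (fun m => ⌈θ * (m : ℝ)⌉₊) (fun m => ⌊η * (m : ℝ)⌋₊) IB (fun n => (4 : ℝ) ^ n)
    (fun m => (m : ℝ) ^ J) G (fun m => W ^ m) n₂ m₃ (by
      intro n n' _ _ hnn
      rw [disjoint_left]
      intro q hq hq'
      rw [mem_IB] at hq hq'
      rcases Nat.lt_or_gt_of_ne hnn with h | h
      · have : 4 ^ (n + 1) ≤ 4 ^ n' := Nat.pow_le_pow_right (by norm_num) h
        rw [pow_succ] at this
        omega
      · have : 4 ^ (n' + 1) ≤ 4 ^ n := Nat.pow_le_pow_right (by norm_num) h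
        rw [pow_succ] at this
        omega) (by
      intro n _
      rw [IB_card, hk]
      refine ⟨(min_le_right _ _).trans (Nat.pow_le_pow_left (by norm_num) n), ?_⟩
      push_cast
      exact le_rfl) (by
      intro m hm
      have hm0 : (0 : ℝ) < m := by exact_mod_cast (by omega : 0 < m)
      have hm1 : (1 : ℝ) ≤ m := by exact_mod_cast (by omega : 1 ≤ m)
      refine ⟨hlo_m m hm, hhi_m m, hm0, ?_, by positivity, hG m (by omega)⟩
      exact le_self_pow₀ hm1 (by omega)) (by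
      intro m hm n hn1 hn2
      have hm0 : (0 : ℝ) < m := by exact_mod_cast (by omega : 0 < m)
      have h1 : θ * m ≤ n := (Nat.le_ceil _).trans (by exact_mod_cast hn1)
      have h2 := hn₂ n ((hlo_m m hm).trans hn1)
      have h3 : (k n : ℝ) ≤ 2 ^ n := by
        rw [hk]
        exact_mod_cast min_le_right _ _
      rw [mul_div_assoc', le_div_iff₀ (by positivity)]
      have h4 : (4 : ℝ) ^ n = 2 ^ n * 2 ^ n := by rw [← mul_pow]; norm_num
      rw [h4]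
      have h5 : (m : ℝ) ^ J ≤ δ / 2 * 2 ^ n := by
        have h6 : θ ^ J * (m : ℝ) ^ J ≤ θ ^ J * (δ / 2 * 2 ^ n) := by
          calc θ ^ J * (m : ℝ) ^ J = (θ * m) ^ J := by rw [mul_pow]
            _ ≤ (n : ℝ) ^ J := pow_le_pow_left₀ (by positivity) h1 J
            _ ≤ δ * θ ^ J / 2 * 2 ^ n := h2
            _ = θ ^ J * (δ / 2 * 2 ^ n) := by ring
        exact le_of_mul_le_mul_left h6 (by positivity)
      calc (k n : ℝ) * (m : ℝ) ^ J ≤ 2 ^ n * (δ / 2 * 2 ^ n) := mul_le_mul h3 h5 (by positivity) (by positivity)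
        _ = _ := by ring) (by
      intro m hm n hn1 hn2 N hN Q hQ
      refine hlow m (by omega) n ((Nat.le_ceil _).trans (by exact_mod_cast hn1)) ?_ N hN Q hQ
      have : 0 < η := by linarith
      exact (by exact_mod_cast hn2.le : (n : ℝ) ≤ (⌊η * (m : ℝ)⌋₊ : ℝ)).trans (Nat.floor_le (by positivity))) (by
      intro m hm q V hV hVq
      exact hup m (by omega) q V hV hVq)
  obtain ⟨S, hS⟩ : ∃ S : Set ℕ, S = {q | ∃ s : ℕ × ℕ, n₂ ≤ s.1 ∧ s.2 < k s.1 ∧ q = g s} := ⟨_, rfl⟩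
  refine ⟨6 ^ (J + 1) * ((K₀ : ℝ) + 1), by positivity, S, ?_, ?_, ?_⟩
  · intro q hq
    rw [hS] at hq
    obtain ⟨s, h1, h2, rfl⟩ := hq
    have h3 := (mem_IB.1 (hg1 s h1 h2)).1
    have : 4 ^ 1 ≤ 4 ^ s.1 := Nat.pow_le_pow_right (by norm_num) (by omega)
    omega
  · intro x hx
    obtain ⟨M, hM⟩ : ∃ M, M = Nat.log 4 x + 1 := ⟨_, rfl⟩
    have hsub : {q | q ∈ S ∧ q ≤ x} ⊆ (((range M).biUnion (fun n => (range (k n)).image (fun t => g (n, t))) : Finset ℕ) : Set ℕ) := by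
      rintro q ⟨hq, hqx⟩
      rw [hS] at hq
      obtain ⟨s, h1, h2, rfl⟩ := hq
      have h3 := (mem_IB.1 (hg1 s h1 h2)).1
      rw [mem_coe, mem_biUnion]
      refine ⟨s.1, ?_, ?_⟩
      · rw [mem_range, hM]
        by_contra hcon
        push Not at hcon
        have h4 : 4 ^ (Nat.log 4 x + 1) ≤ 4 ^ s.1 := Nat.pow_le_pow_right (by norm_num) hcon
        have h5 : x < 4 ^ (Nat.log 4 x + 1) := Nat.lt_pow_succ_log_self (by norm_num) x
        omega
      · rw [mem_image]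
        exact ⟨s.2, mem_range.2 h2, rfl⟩
    have hcard : {q | q ∈ S ∧ q ≤ x}.ncard ≤ M * (K₀ * M ^ J) := by
      refine (Set.ncard_le_ncard hsub (finite_toSet _)).trans ?_
      rw [Set.ncard_coe_finset]
      refine card_biUnion_le.trans ?_
      calc ∑ n ∈ range M, ((range (k n)).image (fun t => g (n, t))).card ≤ ∑ _n ∈ range M, K₀ * M ^ J := by
            apply sum_le_sum
            intro n hn
            rw [mem_range] at hn
            refine card_image_le.trans ?_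
            rw [card_range, hk]
            exact (min_le_left _ _).trans (Nat.mul_le_mul_left _ (Nat.pow_le_pow_left hn.le J))
        _ = M * (K₀ * M ^ J) := by rw [sum_const, card_range, smul_eq_mul]
    have hxr : (2 : ℝ) ≤ x := by exact_mod_cast hx
    have hlx : 0.69 ≤ Real.log (x : ℝ) := by
      have := Real.log_le_log (by norm_num) hxr
      have := Real.log_two_gt_d9
      linarith
    have hlog4' : 1 ≤ Real.log 4 := by
      rw [show (4 : ℝ) = 2 ^ 2 by norm_num, Real.log_pow]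
      have := Real.log_two_gt_d9
      push_cast
      linarith
    have hMr : (M : ℝ) ≤ 6 * Real.log x := by
      have h1 : ((4 : ℝ) ^ (Nat.log 4 x)) ≤ x := by exact_mod_cast Nat.pow_log_le_self 4 (by omega)
      have h2 := Real.log_le_log (by positivity) h1
      rw [Real.log_pow] at h2
      have h3 : (0 : ℝ) ≤ (Nat.log 4 x : ℕ) := Nat.cast_nonneg _
      rw [hM]
      push_cast
      nlinarith
    calc ({q | q ∈ S ∧ q ≤ x}.ncard : ℝ) ≤ ((M * (K₀ * M ^ J) : ℕ) : ℝ) := by exact_mod_cast hcard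
      _ = K₀ * (M : ℝ) ^ (J + 1) := by push_cast; ring
      _ ≤ K₀ * (6 * Real.log x) ^ (J + 1) := by gcongr
      _ = 6 ^ (J + 1) * K₀ * Real.log x ^ (J + 1) := by rw [mul_pow]; ring
      _ ≤ 6 ^ (J + 1) * ((K₀ : ℝ) + 1) * Real.log x ^ (J + 1) := by
          have h0 : 0 ≤ Real.log (x : ℝ) := by linarith
          have : 0 ≤ 6 ^ (J + 1) * Real.log (x : ℝ) ^ (J + 1) := by positivity
          nlinarith
  · refine ⟨m₀ + m₃ + ⌈4 / ω⌉₊ + ⌈(n₄ : ℝ) / θ⌉₊ + 1, ?_⟩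
    intro m hm N hN
    have hmr : (1 : ℝ) ≤ m := by exact_mod_cast (by omega : 1 ≤ m)
    have hmω : 4 / ω ≤ m := (Nat.le_ceil _).trans (by exact_mod_cast (by omega : ⌈4 / ω⌉₊ ≤ m))
    have hmθ : (n₄ : ℝ) / θ ≤ m := (Nat.le_ceil _).trans (by exact_mod_cast (by omega : ⌈(n₄ : ℝ) / θ⌉₊ ≤ m))
    rw [div_le_iff₀ hω0] at hmω
    rw [div_le_iff₀ hθ] at hmθ
    have h2 := hg2 m (by omega)
    obtain ⟨lo, hlo⟩ : ∃ lo, lo = ⌈θ * (m : ℝ)⌉₊ := ⟨_, rfl⟩
    obtain ⟨hi, hhi⟩ : ∃ hi, hi = ⌊η * (m : ℝ)⌋₊ := ⟨_, rfl⟩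
    have h2' : ∀ n : ℝ, 0 ≤ n → n ≤ (steps k lo hi).card → ∀ U : Finset ℕ, U ⊆ G m →
        (∀ N ∈ U, ∀ B ⊆ steps k lo hi, (∀ s ∈ B, hit N (g s)) → (B.card : ℝ) ≤ c * (n / (m : ℝ) ^ J)) →
        (U.card : ℝ) ≤ 12 * W ^ m * Real.exp (-(c * (n / (m : ℝ) ^ J))) := by
      rw [hlo, hhi]
      exact h2
    have hlo1 : θ * m ≤ lo := by
      rw [hlo]
      exact Nat.le_ceil (θ * (m : ℝ))
    have hlo2 : (lo : ℝ) ≤ θ * m + 1 := by
      rw [hlo]
      linarith [Nat.ceil_lt_add_one (show 0 ≤ θ * (m : ℝ) by positivity)]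
    have hhi1 : η * m - 1 ≤ hi := by
      rw [hhi]
      linarith [Nat.lt_floor_add_one (η * (m : ℝ))]
    have hn₂lo : n₂ ≤ lo := by rw [hlo]; exact hlo_m m (by omega)
    have hklo : K₀ * lo ^ J ≤ k lo := by
      rw [hk]
      apply le_min le_rfl
      apply hn₄
      have : (n₄ : ℝ) ≤ lo := by linarith
      exact_mod_cast this
    obtain ⟨n, hn⟩ : ∃ n : ℝ, n = (ω * m / 2) * (K₀ * (θ * m) ^ J) := ⟨_, rfl⟩
    have hn0 : 0 ≤ n := by rw [hn]; positivity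
    have hn1 : n ≤ (steps k lo hi).card := by
      have h3 := steps_card hkm lo hi
      have h4 : ω * m / 2 ≤ ((hi - lo : ℕ) : ℝ) := by
        have h5 : (hi : ℝ) - lo ≤ ((hi - lo : ℕ) : ℝ) := by
          have h6 : hi ≤ (hi - lo) + lo := by omega
          have h7 : (hi : ℝ) ≤ ((hi - lo : ℕ) : ℝ) + lo := by exact_mod_cast h6
          linarith
        rw [hω] at hmω ⊢
        nlinarith
      have h5 : (K₀ * (θ * m) ^ J : ℝ) ≤ k lo := by
        have h6 : ((K₀ * lo ^ J : ℕ) : ℝ) ≤ k lo := by exact_mod_cast hklo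
        push_cast at h6
        refine le_trans ?_ h6
        exact mul_le_mul_of_nonneg_left (pow_le_pow_left₀ (by positivity) hlo1 J) (Nat.cast_nonneg _)
      calc n = (ω * m / 2) * (K₀ * (θ * m) ^ J) := hn
        _ ≤ ((hi - lo : ℕ) : ℝ) * k lo := mul_le_mul h4 h5 (by positivity) (by positivity)
        _ = (((hi - lo) * k lo : ℕ) : ℝ) := by push_cast; ring
        _ ≤ _ := by exact_mod_cast h3
    have hmJ : (0 : ℝ) < (m : ℝ) ^ J := by positivity
    have hY : (4 + Real.log W + B) * m ≤ c * (n / (m : ℝ) ^ J) := by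
      have e0 : n / (m : ℝ) ^ J = ω * m / 2 * (K₀ * θ ^ J) := by
        rw [hn, mul_pow]
        field_simp
      rw [e0]
      calc (4 + Real.log W + B) * m ≤ (c * ω * θ ^ J / 2 * K₀) * m := by gcongr
        _ = c * (ω * m / 2 * (K₀ * θ ^ J)) := by ring
    by_contra hcon
    have h3 := h2' n hn0 hn1 {N} (by
      intro N' hN'
      rw [mem_singleton] at hN'
      rw [hN']
      exact hN) (by
      intro N' hN' B' hB' hBh
      rw [mem_singleton] at hN'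
      rw [hN'] at hBh
      by_contra hlt
      push Not at hlt
      apply hcon
      refine ⟨B'.image g, ?_, ?_⟩
      · intro q hq
        obtain ⟨s, hs, rfl⟩ := mem_image.1 hq
        obtain ⟨f1, f2⟩ := mem_steps.1 (hB' hs)
        refine ⟨?_, ?_, hBh s hs⟩
        · rw [hS]
          exact ⟨s, by omega, f2, rfl⟩
        · have h4 := (mem_IB.1 (hg1 s (by omega) f2)).2
          have h5 : 2 * (g s : ℝ) ≤ 4 * (4 : ℝ) ^ s.1 := by
            have : (g s : ℝ) ≤ 2 * 4 ^ s.1 := by exact_mod_cast h4.le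
            linarith
          have h6 : (s.1 : ℝ) + 1 ≤ η * m := by
            have h7 : ((s.1 + 1 : ℕ) : ℝ) ≤ hi := by exact_mod_cast (by omega : s.1 + 1 ≤ hi)
            push_cast at h7
            refine h7.trans ?_
            rw [hhi]
            apply Nat.floor_le
            have : 0 < η := by linarith
            positivity
          calc 2 * (g s : ℝ) ≤ 4 * (4 : ℝ) ^ s.1 := h5
            _ = (4 : ℝ) ^ ((s.1 : ℝ) + 1) := by
                rw [Real.rpow_add (by norm_num), Real.rpow_natCast, Real.rpow_one, mul_comm]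
            _ ≤ (4 : ℝ) ^ (η * m) := Real.rpow_le_rpow_of_exponent_le (by norm_num) h6
      · have e2 : (B'.image g : Finset ℕ).card = B'.card := by
          apply card_image_of_injOn
          intro s hs s' hs' he
          have f1 := mem_steps.1 (hB' hs)
          have f2 := mem_steps.1 (hB' hs')
          exact hg0 s s' (by omega) (by omega) f1.2 f2.2 he
        rw [e2]
        refine le_trans ?_ (hY.trans hlt.le)
        nlinarith)
    rw [card_singleton] at h3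
    have h4 : 12 * W ^ m * Real.exp (-(c * (n / (m : ℝ) ^ J))) < 1 := by
      have hW0 : 0 < W := by linarith
      have e1 : W ^ m = Real.exp (m * Real.log W) := by
        rw [← Real.log_pow, Real.exp_log (by positivity)]
      have e2 : (12 : ℝ) < Real.exp 3 := by
        have e4 : Real.exp 3 = Real.exp 1 * Real.exp 1 * Real.exp 1 := by
          rw [← Real.exp_add, ← Real.exp_add]
          norm_num
        rw [e4]
        have e5 := Real.exp_one_gt_d9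
        have e6 : (2.7 : ℝ) ≤ Real.exp 1 := by linarith
        have e7 : (7.29 : ℝ) ≤ Real.exp 1 * Real.exp 1 := by nlinarith
        nlinarith
      calc 12 * W ^ m * Real.exp (-(c * (n / (m : ℝ) ^ J))) ≤
            Real.exp 3 * Real.exp (m * Real.log W) * Real.exp (-((4 + Real.log W + B) * m)) := by
            rw [← e1]
            apply mul_le_mul _ _ (Real.exp_pos _).le (by positivity)
            · exact mul_le_mul_of_nonneg_right e2.le (by positivity)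
            · apply Real.exp_le_exp.2
              linarith
        _ = Real.exp (3 + m * Real.log W + -((4 + Real.log W + B) * m)) := by
            rw [Real.exp_add, Real.exp_add]
        _ < Real.exp 0 := by
            apply Real.exp_lt_exp.2
            nlinarith
        _ = 1 := Real.exp_zero
    have h5 : ((1 : ℕ) : ℝ) < 1 := lt_of_le_of_lt h3 h4
    norm_num at h5

end Pool.Agent.H563.TG
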